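import Mathlib
import Pool.Agent.Lib.MP_938ce2_ag_sub.SD

/-!
The statement of Theorem S (proved by helper82's rows `l4_tasks`).
-/

set_option autoImplicit false
set_option linter.unusedSectionVars false

namespace Pool.Agent.Lib.MP_938ce2_ag_rr

open Finset Module
open Pool.Agent.Lib.MP_938ce2_ag_h67 (sg)
open Pool.Agent.Lib.MP_938ce2_ag_h60 (CMType)
open Pool.Agent.Lib.MP_938ce2_ag_u2 (Act)
open Pool.Agent.Lib.MP_938ce2_ag_sub (Rest ZZ Quad mem_ZZ)

open Classical in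
/-- the fourth moments of the combinations of the odd quadratic sets orthogonal to a CM type -/
def TS : Prop := ∃ C : ℝ, 0 < C ∧ ∀ η : ℝ, 0 < η → ∃ g₀ : ℕ, ∀ (G X : Type) [Group G] [Fintype G]
  [MulAction G X] [Fintype X] [DecidableEq X] [MulAction.IsPretransitive G X] (c : G) (g : ℕ),
  Act G X c g → g₀ ≤ g → ∀ x₀ : X,
    ((Finset.univ.filter fun Φ : Finset X => CMType c Φ ∧ ∃ b : Finset X → ℝ,
      C * (2 * g) * (∑ U ∈ ZZ G c x₀ Φ, b U ^ 2) ^ 2
        < ∑ x, (∑ U ∈ ZZ G c x₀ Φ, b U * (sg U x : ℝ)) ^ 4).card : ℝ) ≤ η * 2 ^ g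

end Pool.Agent.Lib.MP_938ce2_ag_rr
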