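import Mathlib

/-!
Row JA. Sums of pairwise non-isomorphic simple submodules.
-/

set_option autoImplicit false
set_option linter.unusedSectionVars false

namespace Pool.Agent.Lib.MP_938ce2_ag_rr

open Module

variable {K R V : Type} [Field K] [Ring R] [Algebra K R] [AddCommGroup V] [Module K V] [Module R V]
  [IsScalarTower K R V] {κ : Type} [Fintype κ]

theorem indep (S : κ → Submodule R V) (hS : ∀ i, IsSimpleModule R (S i))
    (hinj : ∀ i j, Nonempty (S i ≃ₗ[R] S j) → i = j) : iSupIndep S := by
  intro i
  rw [disjoint_iff]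
  by_contra hne
  have hat : IsAtom (S i) := isSimpleModule_iff_isAtom.1 (hS i)
  have hle : S i ≤ ⨆ j, ⨆ (_ : j ≠ i), S j := by
    rcases hat.le_iff.1 (inf_le_left : S i ⊓ (⨆ j, ⨆ (_ : j ≠ i), S j) ≤ S i) with h | h
    · exact absurd h hne
    · exact inf_eq_left.1 h
  have hs : (⨆ j, ⨆ (_ : j ≠ i), S j) = sSup {m | ∃ j, j ≠ i ∧ S j = m} := by
    apply le_antisymm
    · exact iSup_le fun j => iSup_le fun hj => le_sSup ⟨j, hj, rfl⟩
    · refine sSup_le ?_
      rintro m ⟨j, hj, rfl⟩
      exact le_iSup₂ (f := fun j (_ : j ≠ i) => S j) j hj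
  rw [hs] at hle
  have h1 : ∀ m : {m | ∃ j, j ≠ i ∧ S j = m}, IsSimpleModule R (m : Submodule R V) := by
    rintro ⟨m, j, hj, rfl⟩
    exact hS j
  have h2 := hS i
  obtain ⟨m, ⟨j, hj, rfl⟩, hm⟩ := Submodule.linearEquiv_of_le_sSup (N := S i) _ hle
  exact hj (hinj i j hm).symm

/-- the sum map -/
private noncomputable def sumMap (S : κ → Submodule R V) : (∀ i, S i) →ₗ[R] V :=
  ∑ i, (S i).subtype ∘ₗ LinearMap.proj i

private theorem sumMap_apply (S : κ → Submodule R V) (v : ∀ i, S i) :
    sumMap S v = ∑ i, (v i : V) := by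
  unfold sumMap
  rw [LinearMap.sum_apply]
  rfl

private theorem sumMap_inj (S : κ → Submodule R V) (hS : iSupIndep S) :
    Function.Injective (sumMap S) := by
  rw [← LinearMap.ker_eq_bot, LinearMap.ker_eq_bot']
  intro v hv
  rw [sumMap_apply] at hv
  have := (iSupIndep_iff_finsetSum_eq_zero_imp_eq_zero S).1 hS Finset.univ (fun i => (v i : V))
    (fun i _ => (v i).2) hv
  funext i
  exact Subtype.ext (this i (Finset.mem_univ i))

private theorem sumMap_range (S : κ → Submodule R V) : LinearMap.range (sumMap S) = ⨆ i, S i := by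
  classical
  apply le_antisymm
  · rintro _ ⟨v, rfl⟩
    rw [sumMap_apply]
    exact Submodule.sum_mem _ fun i _ => (le_iSup S i) (v i).2
  · refine iSup_le fun i v hv => ⟨Pi.single i ⟨v, hv⟩, ?_⟩
    rw [sumMap_apply, Finset.sum_eq_single i]
    · rw [Pi.single_eq_same]
    · intro j _ hj
      rw [Pi.single_eq_of_ne hj]
      rfl
    · intro h
      exact absurd (Finset.mem_univ i) h

/-- the sum of an independent family is the product -/
private noncomputable def sumEquiv (S : κ → Submodule R V) (hS : iSupIndep S) :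
    (∀ i, S i) ≃ₗ[R] (⨆ i, S i : Submodule R V) :=
  (LinearEquiv.ofInjective (sumMap S) (sumMap_inj S hS)).trans
    (LinearEquiv.ofEq _ _ (sumMap_range S))

private theorem finite_sub [Module.Finite K V] (S : Submodule R V) : Module.Finite K S :=
  Module.Finite.of_injective (S.subtype.restrictScalars K) S.subtype_injective

theorem finrank_sup [Module.Finite K V] (S : κ → Submodule R V)
    (hS : ∀ i, IsSimpleModule R (S i))
    (hinj : ∀ i j, Nonempty (S i ≃ₗ[R] S j) → i = j) :
    finrank K (⨆ i, S i : Submodule R V) = ∑ i, finrank K (S i) := by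
  have h0 : ∀ i, Module.Finite K (S i) := fun i => finite_sub (S i)
  rw [← ((sumEquiv S (indep S hS hinj)).restrictScalars K).finrank_eq]
  exact Module.finrank_pi_fintype K

theorem end_ge [Module.Finite K V] (S : κ → Submodule R V)
    (hS : ∀ i, IsSimpleModule R (S i))
    (hinj : ∀ i j, Nonempty (S i ≃ₗ[R] S j) → i = j) :
    Fintype.card κ ≤ finrank K ((⨆ i, S i : Submodule R V) →ₗ[R] (⨆ i, S i : Submodule R V)) := by
  classical
  set e := sumEquiv S (indep S hS hinj) with he
  have hfin : Module.Finite K (⨆ i, S i : Submodule R V) := finite_sub _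
  have hfin2 : Module.Finite K
      ((⨆ i, S i : Submodule R V) →ₗ[R] (⨆ i, S i : Submodule R V)) := by
    let r : ((⨆ i, S i : Submodule R V) →ₗ[R] (⨆ i, S i : Submodule R V)) →ₗ[K]
        ((⨆ i, S i : Submodule R V) →ₗ[K] (⨆ i, S i : Submodule R V)) :=
      { toFun := fun f => f.restrictScalars K
        map_add' := fun _ _ => rfl
        map_smul' := fun _ _ => rfl }
    refine Module.Finite.of_injective r ?_
    intro f f' h
    ext x
    exact congrArg Subtype.val (LinearMap.congr_fun h x)
  let D : (κ → K) →ₗ[K] ((∀ i, S i) →ₗ[R] (∀ i, S i)) :=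
    { toFun := fun a => LinearMap.pi fun i => a i • LinearMap.proj i
      map_add' := by
        intro a b
        ext v i
        simp [add_smul]
      map_smul' := by
        intro c a
        ext v i
        simp [mul_smul] }
  have hD : ∀ (a : κ → K) (v : ∀ i, S i) (i : κ), D a v i = a i • v i := fun a v i => rfl
  let Φ : (κ → K) →ₗ[K] ((⨆ i, S i : Submodule R V) →ₗ[R] (⨆ i, S i : Submodule R V)) :=
    { toFun := fun a => e.toLinearMap ∘ₗ (D a) ∘ₗ e.symm.toLinearMap
      map_add' := by
        intro a b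
        rw [map_add]
        ext x
        simp
      map_smul' := by
        intro c a
        rw [map_smul]
        ext x
        have : e (c • (D a (e.symm x))) = c • e (D a (e.symm x)) :=
          (e.restrictScalars K).map_smul c _
        simpa using congrArg Subtype.val this }
  have hΦ : Function.Injective Φ := by
    rw [← LinearMap.ker_eq_bot, LinearMap.ker_eq_bot']
    intro a ha
    funext i
    have := (hS i).nontrivial
    obtain ⟨v, hv⟩ := exists_ne (0 : S i)
    have h1 := LinearMap.congr_fun ha (e (Pi.single i v))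
    have h2 : Φ a (e (Pi.single i v)) = e (D a (Pi.single i v)) := by
      show e (D a (e.symm (e (Pi.single i v)))) = _
      rw [LinearEquiv.symm_apply_apply]
    rw [h2] at h1
    have h3 : D a (Pi.single i v) = 0 := e.injective (by rw [h1, map_zero]; rfl)
    have h4 := congrFun h3 i
    rw [hD, Pi.single_eq_same] at h4
    exact (smul_eq_zero.1 h4).resolve_right hv
  have h5 := LinearMap.finrank_le_finrank_of_injective hΦ
  rwa [Module.finrank_fintype_fun_eq_card] at h5

theorem sup_equiv (S S' : κ → Submodule R V) (hS : ∀ i, IsSimpleModule R (S i))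
    (hinj : ∀ i j, Nonempty (S i ≃ₗ[R] S j) → i = j)
    (hiso : ∀ i, Nonempty (S i ≃ₗ[R] S' i)) :
    Nonempty ((⨆ i, S i : Submodule R V) ≃ₗ[R] (⨆ i, S' i : Submodule R V)) := by
  have e := fun i => Classical.choice (hiso i)
  have hS' : ∀ i, IsSimpleModule R (S' i) := fun i => by
    have := hS i
    exact IsSimpleModule.congr (e i).symm
  have hinj' : ∀ i j, Nonempty (S' i ≃ₗ[R] S' j) → i = j := by
    rintro i j ⟨f⟩
    exact hinj i j ⟨((e i).trans f).trans (e j).symm⟩
  exact ⟨((sumEquiv S (indep S hS hinj)).symm.trans (LinearEquiv.piCongrRight e)).trans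
    (sumEquiv S' (indep S' hS' hinj'))⟩

end Pool.Agent.Lib.MP_938ce2_ag_rr
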