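import Mathlib
import Pool.Agent.Lib.MP_938ce2_ag_sub.SD

/-!
Definitions for the rows `rr_tasks`: the functions orthogonal to a CM type without linear components of dimension one
have bounded fourth moment (MP_938ce2_ag, theorem R).
-/

set_option autoImplicit false
set_option linter.unusedSectionVars false

namespace Pool.Agent.Lib.MP_938ce2_ag_rr

open Finset Module MonoidAlgebra
open Pool.Agent.Lib.MP_938ce2_ag_h67 (sg VV ev mkV kerM mem_kerM)

/-- every one of four subgroups contains the intersection of the other three -/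
def Rel {ι G : Type} [Group G] (k : ι → Subgroup G) (a b c d : ι) : Prop :=
  k b ⊓ k c ⊓ k d ≤ k a ∧ k a ⊓ k c ⊓ k d ≤ k b ∧ k a ⊓ k b ⊓ k d ≤ k c ∧ k a ⊓ k b ⊓ k c ≤ k d

open Classical in
/-- the members of a family of subgroups which contain the intersection of the members in `S` -/
noncomputable def cl {ι G : Type} [Fintype ι] [Group G] (k : ι → Subgroup G) (S : Finset ι) :
    Finset ι := Finset.univ.filter fun i => ⨅ j ∈ S, k j ≤ k i

lemma mem_cl {ι G : Type} [Fintype ι] [Group G] (k : ι → Subgroup G) (S : Finset ι) (i : ι) :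
    i ∈ cl k S ↔ ⨅ j ∈ S, k j ≤ k i := by
  classical
  unfold cl
  rw [Finset.mem_filter]
  exact ⟨fun h => h.2, fun h => ⟨Finset.mem_univ _, h⟩⟩

/-- the sum of the images of the homomorphisms of a submodule to the functions on `X` -/
noncomputable def VI {G X : Type} [Group G] [MulAction G X]
    (M : Submodule (MonoidAlgebra ℚ G) (VV ℚ G X)) : Submodule (MonoidAlgebra ℚ G) (VV ℚ G X) :=
  ⨆ f : M →ₗ[MonoidAlgebra ℚ G] VV ℚ G X, LinearMap.range f

end Pool.Agent.Lib.MP_938ce2_ag_rr
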