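import Mathlib
import Pool.Agent.Lib.MP_938ce2_ag_rr.RD
import Pool.Agent.Lib.MP_938ce2_ag_u2.Defs
import Pool.Agent.Lib.MP_938ce2_ag_u4.MinkB

/-!
Row JB (80 lines). The kernel of a sum of two-dimensional modules.

RECIPE. `kerM_iSup`: `≤`: `kerM` is antitone (`S i ≤ ⨆ i, S i`); `≥`: for `σ` in all kernels the set of the `v` with `single σ 1 • v = v` is a `ℚ`-subspace, but not a
`ℚ[G]`-submodule in general; use instead `Submodule.iSup_induction` (closed under addition, contains every `S i`). `index_le`: `Pool.Agent.Lib.MP_938ce2_ag_u4.index_le_mink`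
gives `(kerM (S i)).index ≤ 3 ^ (dM * dM) = 81`; `Subgroup.index_inf_le` and induction on the finite set `T` (or `Subgroup.index_iInf_le`). `not_dvd`: if the prime `q > 81`
divides the index of `K = ⨅ i, kerM (S i)` in `G`, there is `σ ∈ G` whose image in `G ⧸ K` has order `q` (Cauchy, `exists_prime_orderOf_dvd_card`; `K` is normal), so
`σ ∉ K`, `σ ^ q ∈ K`; there is `i` with `σ ∉ kerM (S i)`, `σ ^ q ∈ kerM (S i)`; then the image of `σ` in `G ⧸ kerM (S i)` has order `q`, so
`q ∣ (kerM (S i)).index ≤ 81`, contradiction.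
-/

set_option autoImplicit false
set_option linter.unusedSectionVars false

namespace Pool.Agent.Lib.MP_938ce2_ag_rr

open Finset Module MonoidAlgebra
open Pool.Agent.Lib.MP_938ce2_ag_h67 (sg VV ev mkV kerM mem_kerM ev_ext ev_single ev_add ev_smul)
open Pool.Agent.Lib.MP_938ce2_ag_u2 (dM)

variable {G X : Type} [Group G] [Fintype G] [MulAction G X] [Fintype X] [DecidableEq X] {κ : Type}
  [Fintype κ]

theorem kerM_iSup (S : κ → Submodule (MonoidAlgebra ℚ G) (VV ℚ G X)) :
    kerM (⨆ i, S i) = ⨅ i, kerM (S i) := by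
  ext σ
  rw [Subgroup.mem_iInf]
  constructor
  · intro h i s
    have h1 := h ⟨s.1, (le_iSup S i) s.2⟩
    have h2 : (MonoidAlgebra.single σ (1 : ℚ) : MonoidAlgebra ℚ G) • (s : VV ℚ G X) = s :=
      congrArg Subtype.val h1
    exact Subtype.ext h2
  · intro h s
    apply Subtype.ext
    show (MonoidAlgebra.single σ (1 : ℚ) : MonoidAlgebra ℚ G) • (s : VV ℚ G X) = s
    refine Submodule.iSup_induction S
      (motive := fun v => (MonoidAlgebra.single σ (1 : ℚ) : MonoidAlgebra ℚ G) • v = v) s.2 ?_ ?_ ?_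
    · intro i v hv
      exact congrArg Subtype.val (h i ⟨v, hv⟩)
    · exact smul_zero _
    · intro v w hv hw
      rw [smul_add, hv, hw]

theorem index_le (S : κ → Submodule (MonoidAlgebra ℚ G) (VV ℚ G X)) (h2 : ∀ i, dM (S i) = 2)
    (T : Finset κ) : (⨅ i ∈ T, kerM (S i)).index ≤ 81 ^ T.card := by
  classical
  induction T using Finset.induction_on with
  | empty => simp
  | insert a T ha ih =>
    rw [Finset.iInf_insert, Finset.card_insert_of_notMem ha]
    refine Subgroup.index_inf_le.trans ?_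
    have h1 := Pool.Agent.Lib.MP_938ce2_ag_u4.index_le_mink (S a)
    rw [h2 a] at h1
    calc (kerM (S a)).index * (⨅ i ∈ T, kerM (S i)).index ≤ 81 * 81 ^ T.card :=
          Nat.mul_le_mul (h1.trans (by norm_num)) ih
      _ = 81 ^ (T.card + 1) := by ring

theorem not_dvd (S : κ → Submodule (MonoidAlgebra ℚ G) (VV ℚ G X)) (h2 : ∀ i, dM (S i) = 2)
    (q : ℕ) (hq : q.Prime) (hq81 : 81 < q) : ¬ q ∣ (kerM (⨆ i, S i)).index := by
  intro hdvd
  have hfq : Fact q.Prime := ⟨hq⟩
  have hdvd' : q ∣ Nat.card (G ⧸ kerM (⨆ i, S i)) := hdvd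
  obtain ⟨x, hx⟩ := exists_prime_orderOf_dvd_card' q hdvd'
  obtain ⟨σ, rfl⟩ := QuotientGroup.mk'_surjective (kerM (⨆ i, S i)) x
  have hσ : σ ∉ kerM (⨆ i, S i) := by
    intro h
    rw [(QuotientGroup.eq_one_iff σ).mpr h |> fun h' => show (QuotientGroup.mk' _ σ) = 1 from h',
      orderOf_one] at hx
    exact hq.one_lt.ne hx
  have hσq : σ ^ q ∈ kerM (⨆ i, S i) := by
    rw [← QuotientGroup.eq_one_iff]
    have := pow_orderOf_eq_one (QuotientGroup.mk' (kerM (⨆ i, S i)) σ)
    rw [hx] at this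
    exact this
  rw [kerM_iSup, Subgroup.mem_iInf] at hσ hσq
  push Not at hσ
  obtain ⟨i, hi⟩ := hσ
  have h1 : orderOf (QuotientGroup.mk' (kerM (S i)) σ) = q := by
    apply orderOf_eq_prime
    · rw [← map_pow]
      exact (QuotientGroup.eq_one_iff _).mpr (hσq i)
    · intro h
      exact hi ((QuotientGroup.eq_one_iff σ).mp h)
  have h3 : q ∣ Nat.card (G ⧸ kerM (S i)) := by
    rw [← h1]
    exact orderOf_dvd_natCard _
  have h4 : Nat.card (G ⧸ kerM (S i)) ≤ 81 := by
    have h5 := Pool.Agent.Lib.MP_938ce2_ag_u4.index_le_mink (S i)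
    rw [h2 i] at h5
    exact h5.trans (by norm_num)
  have h6 := Nat.le_of_dvd Nat.card_pos h3
  omega

end Pool.Agent.Lib.MP_938ce2_ag_rr
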