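import Mathlib
import Pool.Agent.Lib.MP_938ce2_ag_rr.RD
import Pool.Agent.Lib.MP_938ce2_ag_rr.JA
import Pool.Agent.Lib.MP_938ce2_ag_rr.JB

/-!
Row CC (90 lines). The number of the two-dimensional modules on which the common kernel of `T` acts trivially.

RECIPE. `K = ⨅ i ∈ T, kerM (S i)`, index at most `81 ^ T.card` (`index_le`). Let `κ' = {i // i ∈ cl (fun i => kerM (S i)) T}` and `N = ⨆ i : κ', S i`, of dimension
`2 * Fintype.card κ'` (`finrank_sup`). Every `v ∈ N` satisfies `ev v (k • x) = ev v x` for `k ∈ K` (`Submodule.iSup_induction`; `K ≤ kerM (S i)`). Fix `x₀ : X`; by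
transitivity `v` is determined by its values at `σ • x₀`, `σ` in a set of representatives of the left cosets (`K` is normal as an intersection of kernels) of `K`: the map
`N → (G ⧸ K → ℚ)`, `v ↦ (σ ↦ ev v (σ • x₀))` (well defined: `ev v (σ k x₀) = ev v (k' σ x₀)`) is linear and injective, so `2 * card κ' ≤ K.index`.
-/

set_option autoImplicit false
set_option linter.unusedSectionVars false

namespace Pool.Agent.Lib.MP_938ce2_ag_rr

open Finset Module MonoidAlgebra
open Pool.Agent.Lib.MP_938ce2_ag_h67 (sg VV ev mkV kerM mem_kerM ev_ext ev_single ev_add ev_smul)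
open Pool.Agent.Lib.MP_938ce2_ag_u2 (dM)

theorem cl_card {G X : Type} [Group G] [Fintype G] [MulAction G X] [Fintype X] [DecidableEq X]
    [MulAction.IsPretransitive G X] [Nonempty X] {κ : Type} [Fintype κ]
    (S : κ → Submodule (MonoidAlgebra ℚ G) (VV ℚ G X))
    (hS : ∀ i, IsSimpleModule (MonoidAlgebra ℚ G) (S i))
    (hinj : ∀ i j, Nonempty (S i ≃ₗ[MonoidAlgebra ℚ G] S j) → i = j) (h2 : ∀ i, dM (S i) = 2)
    (T : Finset κ) : (cl (fun i => kerM (S i)) T).card ≤ 81 ^ T.card := by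
  classical
  obtain ⟨x₀⟩ := ‹Nonempty X›
  have hfinV : Module.Finite ℚ (VV ℚ G X) := inferInstance
  obtain ⟨K, hK⟩ : ∃ K : Subgroup G, K = ⨅ i ∈ T, kerM (S i) := ⟨_, rfl⟩
  have hidx : K.index ≤ 81 ^ T.card := by rw [hK]; exact index_le S h2 T
  obtain ⟨N, hN⟩ : ∃ N : Submodule (MonoidAlgebra ℚ G) (VV ℚ G X),
      N = ⨆ i : {i // i ∈ cl (fun i => kerM (S i)) T}, S i.1 := ⟨_, rfl⟩
  have hdim : finrank ℚ N = 2 * (cl (fun i => kerM (S i)) T).card := by
    rw [hN, finrank_sup (K := ℚ) (fun i : {i // i ∈ cl (fun i => kerM (S i)) T} => S i.1)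
      (fun i => hS i.1) (fun i j h => Subtype.ext (hinj i.1 j.1 h))]
    have h3 : ∀ i : {i // i ∈ cl (fun i => kerM (S i)) T}, finrank ℚ (S i.1) = 2 := fun i => h2 i.1
    rw [Finset.sum_congr rfl fun i _ => h3 i, Finset.sum_const, Finset.card_univ,
      Fintype.card_coe, smul_eq_mul, mul_comm]
  -- the elements of `N` are invariant under `K`
  have hinv : ∀ v ∈ N, ∀ k ∈ K, ∀ x, ev v (k • x) = ev v x := by
    intro v hv k hk
    rw [hN] at hv
    induction hv using Submodule.iSup_induction' with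
    | mem i w hw =>
      intro x
      have h3 : k⁻¹ ∈ kerM (S i.1) := by
        have h4 := (mem_cl _ _ _).1 i.2
        exact h4 (hK ▸ K.inv_mem hk)
      have h4 := congrArg (fun s : S i.1 => ev (s : VV ℚ G X) x) ((mem_kerM _ _).1 h3 ⟨w, hw⟩)
      have h5 : ev (MonoidAlgebra.single k⁻¹ (1 : ℚ) • w) x = ev w x := h4
      rw [ev_single, one_mul, inv_inv] at h5
      exact h5
    | zero => intro x; rfl
    | add a b _ _ ha hb =>
      intro x
      rw [ev_add, ev_add, ha x, hb x]
  -- the evaluation at representatives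
  let L : N →ₗ[ℚ] (G ⧸ K → ℚ) :=
    { toFun := fun v q => ev (v : VV ℚ G X) (q.out • x₀)
      map_add' := fun _ _ => rfl
      map_smul' := fun _ _ => rfl }
  have hL : Function.Injective L := by
    rw [← LinearMap.ker_eq_bot, LinearMap.ker_eq_bot']
    intro v hv
    apply Subtype.ext
    apply ev_ext
    intro x
    obtain ⟨σ, rfl⟩ := MulAction.exists_smul_eq G x₀ x
    have h3 : ev (v : VV ℚ G X) ((QuotientGroup.mk σ : G ⧸ K).out • x₀) = 0 :=
      congrFun hv (QuotientGroup.mk σ)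
    obtain ⟨⟨k, hk⟩, hkσ⟩ := QuotientGroup.mk_out_eq_mul K σ
    have h4 : (QuotientGroup.mk σ : G ⧸ K).out = σ * k := hkσ
    rw [h4] at h3
    have hw : MonoidAlgebra.single σ⁻¹ (1 : ℚ) • (v : VV ℚ G X) ∈ N := N.smul_mem _ v.2
    have h5 := hinv _ hw k hk x₀
    rw [ev_single, ev_single, one_mul, one_mul, inv_inv, smul_smul] at h5
    rw [h3] at h5
    exact h5.symm
  have hfinN : Module.Finite ℚ N :=
    Module.Finite.of_injective (N.subtype.restrictScalars ℚ) Subtype.val_injective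
  have h3 : finrank ℚ N ≤ finrank ℚ (G ⧸ K → ℚ) := LinearMap.finrank_le_finrank_of_injective hL
  rw [Module.finrank_fintype_fun_eq_card, hdim] at h3
  have h4 : K.index = Fintype.card (G ⧸ K) := by
    rw [Subgroup.index, Nat.card_eq_fintype_card]
  omega

end Pool.Agent.Lib.MP_938ce2_ag_rr
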