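import Mathlib
import Pool.Agent.Lib.MP_938ce2_ag_rr.CC

/-!
Row CT (30 lines). `cl_card` for two and three members.

RECIPE. `cl_card` for `T = {a, b}` and `T = {a, b, c}` (`T.card ≤ 2`, `≤ 3`; `81 ^ 2 = 6561`, `81 ^ 3 = 531441`): `⨅ j ∈ {a, b}, kerM (S j) = kerM (S a) ⊓ kerM (S b)`
(`Finset.iInf_insert`, `Finset.iInf_singleton`, also correct if `a = b`).
-/

set_option autoImplicit false
set_option linter.unusedSectionVars false

namespace Pool.Agent.Lib.MP_938ce2_ag_rr

open Finset Module MonoidAlgebra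
open Pool.Agent.Lib.MP_938ce2_ag_h67 (sg VV ev mkV kerM mem_kerM ev_ext ev_single ev_add ev_smul)
open Pool.Agent.Lib.MP_938ce2_ag_u2 (dM)

variable {G X : Type} [Group G] [Fintype G] [MulAction G X] [Fintype X] [DecidableEq X]
  [MulAction.IsPretransitive G X] [Nonempty X] {κ : Type} [Fintype κ]

open Classical in
theorem two_card (S : κ → Submodule (MonoidAlgebra ℚ G) (VV ℚ G X))
    (hS : ∀ i, IsSimpleModule (MonoidAlgebra ℚ G) (S i))
    (hinj : ∀ i j, Nonempty (S i ≃ₗ[MonoidAlgebra ℚ G] S j) → i = j) (h2 : ∀ i, dM (S i) = 2)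
    (a b : κ) : (Finset.univ.filter fun c => kerM (S a) ⊓ kerM (S b) ≤ kerM (S c)).card
      ≤ 6561 := by
  have h1 := cl_card S hS hinj h2 ({a, b} : Finset κ)
  have h3 : (Finset.univ.filter fun c => kerM (S a) ⊓ kerM (S b) ≤ kerM (S c))
      ⊆ cl (fun i => kerM (S i)) ({a, b} : Finset κ) := by
    intro c hc
    rw [Finset.mem_filter] at hc
    rw [mem_cl]
    refine le_trans (le_inf ?_ ?_) hc.2
    · exact iInf₂_le (f := fun j (_ : j ∈ ({a, b} : Finset κ)) => kerM (S j)) a (by simp)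
    · exact iInf₂_le (f := fun j (_ : j ∈ ({a, b} : Finset κ)) => kerM (S j)) b (by simp)
  have h4 : ({a, b} : Finset κ).card ≤ 2 := Finset.card_le_two
  have h5 : 81 ^ ({a, b} : Finset κ).card ≤ 81 ^ 2 := Nat.pow_le_pow_right (by norm_num) h4
  exact le_trans (Finset.card_le_card h3) (le_trans h1 (le_trans h5 (by norm_num)))

open Classical in
theorem three_card (S : κ → Submodule (MonoidAlgebra ℚ G) (VV ℚ G X))
    (hS : ∀ i, IsSimpleModule (MonoidAlgebra ℚ G) (S i))
    (hinj : ∀ i j, Nonempty (S i ≃ₗ[MonoidAlgebra ℚ G] S j) → i = j) (h2 : ∀ i, dM (S i) = 2)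
    (a b c : κ) : (Finset.univ.filter fun d =>
      kerM (S a) ⊓ kerM (S b) ⊓ kerM (S c) ≤ kerM (S d)).card ≤ 531441 := by
  have h1 := cl_card S hS hinj h2 ({a, b, c} : Finset κ)
  have h3 : (Finset.univ.filter fun d => kerM (S a) ⊓ kerM (S b) ⊓ kerM (S c) ≤ kerM (S d))
      ⊆ cl (fun i => kerM (S i)) ({a, b, c} : Finset κ) := by
    intro d hd
    rw [Finset.mem_filter] at hd
    rw [mem_cl]
    refine le_trans (le_inf (le_inf ?_ ?_) ?_) hd.2
    · exact iInf₂_le (f := fun j (_ : j ∈ ({a, b, c} : Finset κ)) => kerM (S j)) a (by simp)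
    · exact iInf₂_le (f := fun j (_ : j ∈ ({a, b, c} : Finset κ)) => kerM (S j)) b (by simp)
    · exact iInf₂_le (f := fun j (_ : j ∈ ({a, b, c} : Finset κ)) => kerM (S j)) c (by simp)
  have h4 : ({a, b, c} : Finset κ).card ≤ 3 := Finset.card_le_three
  have h5 : 81 ^ ({a, b, c} : Finset κ).card ≤ 81 ^ 3 := Nat.pow_le_pow_right (by norm_num) h4
  exact le_trans (Finset.card_le_card h3) (le_trans h1 (le_trans h5 (by norm_num)))

end Pool.Agent.Lib.MP_938ce2_ag_rr
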