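import Mathlib

/-!
Row D2 (50 lines). Density from fourth moments.

RECIPE. `(a + b)^4 ≤ 8 (a^4 + b^4)`, so `n ∑ f^4 ≤ 8 (A (∑ f₁^2)^2 + B (∑ f₂^2)^2) ≤ 8 max A B (∑ f₁^2 + ∑ f₂^2)^2 = 8 max A B (∑ f^2)^2` (`ho`). Cauchy-Schwarz on the
support: `(∑ f^2)^2 ≤ #supp * ∑ f^4`. Hence `n (∑ f^2)^2 ≤ #supp * 8 max A B (∑ f^2)^2`, and `∑ f^2 > 0`.
-/

set_option autoImplicit false

namespace Pool.Agent.Lib.MP_938ce2_ag_rr

open Finset

open Classical in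
theorem density4 {X : Type} [Fintype X] (f f₁ f₂ : X → ℝ) (hf : ∀ x, f x = f₁ x + f₂ x)
    (ho : ∑ x, f₁ x * f₂ x = 0) (A B : ℝ) (hA : 0 ≤ A) (hB : 0 ≤ B)
    (h1 : (Fintype.card X : ℝ) * ∑ x, f₁ x ^ 4 ≤ A * (∑ x, f₁ x ^ 2) ^ 2)
    (h2 : (Fintype.card X : ℝ) * ∑ x, f₂ x ^ 4 ≤ B * (∑ x, f₂ x ^ 2) ^ 2)
    (hne : ∃ x, f x ≠ 0) :
    (Fintype.card X : ℝ) ≤ 8 * max A B * (Finset.univ.filter fun x => f x ≠ 0).card := by
  set P : ℝ := ∑ x, f₁ x ^ 2 with hP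
  set Q : ℝ := ∑ x, f₂ x ^ 2 with hQ
  set F : ℝ := ∑ x, f x ^ 2 with hF
  have hP0 : 0 ≤ P := Finset.sum_nonneg fun x _ => sq_nonneg _
  have hQ0 : 0 ≤ Q := Finset.sum_nonneg fun x _ => sq_nonneg _
  have hFPQ : F = P + Q := by
    have : F = P + 2 * ∑ x, f₁ x * f₂ x + Q := by
      rw [hF, hP, hQ, Finset.mul_sum, ← Finset.sum_add_distrib, ← Finset.sum_add_distrib]
      exact Finset.sum_congr rfl fun x _ => by rw [hf x]; ring
    rw [this, ho]; ring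
  obtain ⟨x0, hx0⟩ := hne
  have hFpos : 0 < F := by
    have h := Finset.single_le_sum (f := fun x => f x ^ 2) (fun x _ => sq_nonneg _)
      (Finset.mem_univ x0)
    exact lt_of_lt_of_le (by positivity) h
  have h4 : ∑ x, f x ^ 4 ≤ 8 * (∑ x, f₁ x ^ 4 + ∑ x, f₂ x ^ 4) := by
    rw [← Finset.sum_add_distrib, Finset.mul_sum]
    refine Finset.sum_le_sum fun x _ => ?_
    rw [hf x]
    nlinarith [sq_nonneg (f₁ x - f₂ x), sq_nonneg (f₁ x + f₂ x), sq_nonneg (f₁ x ^ 2 - f₂ x ^ 2),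
      mul_nonneg (sq_nonneg (f₁ x - f₂ x)) (sq_nonneg (f₁ x + f₂ x)),
      mul_nonneg (sq_nonneg (f₁ x - f₂ x)) (sq_nonneg (f₁ x - f₂ x))]
  have hM0 : 0 ≤ max A B := hA.trans (le_max_left _ _)
  have hn : (Fintype.card X : ℝ) * ∑ x, f x ^ 4 ≤ 8 * max A B * F ^ 2 := by
    have hn0 : (0 : ℝ) ≤ Fintype.card X := Nat.cast_nonneg _
    have e1 := mul_le_mul_of_nonneg_left h4 hn0
    have e2 : A * P ^ 2 ≤ max A B * P ^ 2 :=
      mul_le_mul_of_nonneg_right (le_max_left _ _) (sq_nonneg _)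
    have e3 : B * Q ^ 2 ≤ max A B * Q ^ 2 :=
      mul_le_mul_of_nonneg_right (le_max_right _ _) (sq_nonneg _)
    have e4 : max A B * P ^ 2 + max A B * Q ^ 2 ≤ max A B * F ^ 2 := by
      rw [hFPQ, ← mul_add]
      apply mul_le_mul_of_nonneg_left _ hM0
      nlinarith [mul_nonneg hP0 hQ0]
    nlinarith [e1, e2, e3, e4, h1, h2]
  set S := Finset.univ.filter fun x => f x ≠ 0 with hS
  have hcs : F ^ 2 ≤ (S.card : ℝ) * ∑ x, f x ^ 4 := by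
    have e1 : F = ∑ x ∈ S, f x ^ 2 := by
      rw [hF, hS, Finset.sum_filter]
      exact Finset.sum_congr rfl fun x _ => by
        by_cases h : f x = 0 <;> simp [h]
    have e2 : (∑ x ∈ S, f x ^ 2) ^ 2 ≤ (S.card : ℝ) * ∑ x ∈ S, (f x ^ 2) ^ 2 :=
      sq_sum_le_card_mul_sum_sq
    have e3 : ∑ x ∈ S, (f x ^ 2) ^ 2 ≤ ∑ x, f x ^ 4 := by
      calc ∑ x ∈ S, (f x ^ 2) ^ 2 = ∑ x ∈ S, f x ^ 4 :=
            Finset.sum_congr rfl fun x _ => by ring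
        _ ≤ ∑ x, f x ^ 4 :=
            Finset.sum_le_sum_of_subset_of_nonneg (Finset.subset_univ _)
              (fun x _ _ => by positivity)
    rw [e1]
    exact e2.trans (mul_le_mul_of_nonneg_left e3 (Nat.cast_nonneg _))
  have hn0 : (0 : ℝ) ≤ Fintype.card X := Nat.cast_nonneg _
  have e5 : (Fintype.card X : ℝ) * F ^ 2 ≤ 8 * max A B * S.card * F ^ 2 := by
    calc (Fintype.card X : ℝ) * F ^ 2 ≤ Fintype.card X * ((S.card : ℝ) * ∑ x, f x ^ 4) :=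
          mul_le_mul_of_nonneg_left hcs hn0
      _ = S.card * ((Fintype.card X : ℝ) * ∑ x, f x ^ 4) := by ring
      _ ≤ S.card * (8 * max A B * F ^ 2) := mul_le_mul_of_nonneg_left hn (Nat.cast_nonneg _)
      _ = 8 * max A B * S.card * F ^ 2 := by ring
  exact le_of_mul_le_mul_right e5 (by positivity)

end Pool.Agent.Lib.MP_938ce2_ag_rr
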