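import Mathlib
import Pool.Agent.Lib.MP_938ce2_ag_rr.RD

/-!
Row VN (50 lines). The mean value of a product of four functions vanishes unless they are related.

RECIPE. By symmetry (commutativity of the product) it suffices to treat `¬ (k b ⊓ k c ⊓ k d ≤ k a)`; make this a private lemma and permute. `K = k b ⊓ k c ⊓ k d` is normal.
For `σ ∈ K`: `∑ x, f a x * f b x * f c x * f d x = ∑ x, f a (σ • x) * f b (σ • x) * f c (σ • x) * f d (σ • x) = ∑ x, f a (σ • x) * f b x * f c x * f d x`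
(`Equiv.sum_comp (MulAction.toPerm σ)`, `hinv`). Sum over `σ : K`: `|K|` times the sum is `∑ x, (∑ σ : K, f a (σ • x)) * ... = 0` (`havg`).
-/

set_option autoImplicit false
set_option linter.unusedSectionVars false

namespace Pool.Agent.Lib.MP_938ce2_ag_rr

open Finset

open Classical in
private lemma vanish_one {ι G X : Type} [Group G] [Fintype G] [MulAction G X] [Fintype X]
    (k : ι → Subgroup G) (hn : ∀ i, (k i).Normal) (f : ι → X → ℝ)
    (hinv : ∀ i, ∀ σ ∈ k i, ∀ x, f i (σ • x) = f i x)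
    (havg : ∀ i, ∀ K : Subgroup G, K.Normal → ¬ K ≤ k i → ∀ x,
      ∑ σ ∈ (Finset.univ.filter fun σ : G => σ ∈ K), f i (σ • x) = 0)
    (a b c d : ι) (h : ¬ k b ⊓ k c ⊓ k d ≤ k a) : ∑ x, f a x * f b x * f c x * f d x = 0 := by
  have := hn b
  have := hn c
  have := hn d
  have hK : (k b ⊓ k c ⊓ k d).Normal := inferInstance
  have h1 : ∀ σ ∈ (Finset.univ.filter fun σ : G => σ ∈ k b ⊓ k c ⊓ k d),
      ∑ x, f a x * f b x * f c x * f d x = ∑ x, f a (σ • x) * f b x * f c x * f d x := by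
    intro σ hσ
    have hσ' : σ ∈ k b ⊓ k c ⊓ k d := (mem_filter.1 hσ).2
    obtain ⟨⟨hb, hc⟩, hd⟩ := hσ'
    rw [← Equiv.sum_comp (MulAction.toPerm σ) (fun x => f a x * f b x * f c x * f d x)]
    refine sum_congr rfl (fun x _ => ?_)
    simp only [MulAction.toPerm_apply]
    rw [hinv b σ hb, hinv c σ hc, hinv d σ hd]
  have h2 : ((Finset.univ.filter fun σ : G => σ ∈ k b ⊓ k c ⊓ k d).card : ℝ) *
      ∑ x, f a x * f b x * f c x * f d x = 0 := by
    rw [← nsmul_eq_mul, ← sum_const, sum_congr rfl h1, sum_comm]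
    refine sum_eq_zero (fun x _ => ?_)
    rw [← sum_mul, ← sum_mul, ← sum_mul, havg a _ hK h x, zero_mul, zero_mul, zero_mul]
  have h3 : ((Finset.univ.filter fun σ : G => σ ∈ k b ⊓ k c ⊓ k d).card : ℝ) ≠ 0 := by
    have : (Finset.univ.filter fun σ : G => σ ∈ k b ⊓ k c ⊓ k d).Nonempty :=
      ⟨1, mem_filter.2 ⟨mem_univ _, one_mem _⟩⟩
    exact_mod_cast (card_pos.2 this).ne'
  exact (mul_eq_zero.1 h2).resolve_left h3

open Classical in
theorem vanish {ι G X : Type} [Group G] [Fintype G] [MulAction G X] [Fintype X]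
    (k : ι → Subgroup G) (hn : ∀ i, (k i).Normal) (f : ι → X → ℝ)
    (hinv : ∀ i, ∀ σ ∈ k i, ∀ x, f i (σ • x) = f i x)
    (havg : ∀ i, ∀ K : Subgroup G, K.Normal → ¬ K ≤ k i → ∀ x,
      ∑ σ ∈ (Finset.univ.filter fun σ : G => σ ∈ K), f i (σ • x) = 0)
    (a b c d : ι) (h : ¬ Rel k a b c d) : ∑ x, f a x * f b x * f c x * f d x = 0 := by
  unfold Rel at h
  by_cases ha : k b ⊓ k c ⊓ k d ≤ k a
  · by_cases hb : k a ⊓ k c ⊓ k d ≤ k b
    · by_cases hc : k a ⊓ k b ⊓ k d ≤ k c
      · by_cases hd : k a ⊓ k b ⊓ k c ≤ k d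
        · exact absurd ⟨ha, hb, hc, hd⟩ h
        · rw [← vanish_one k hn f hinv havg d a b c hd]
          exact sum_congr rfl (fun x _ => by ring)
      · rw [← vanish_one k hn f hinv havg c a b d hc]
        exact sum_congr rfl (fun x _ => by ring)
    · rw [← vanish_one k hn f hinv havg b a c d hb]
      exact sum_congr rfl (fun x _ => by ring)
  · exact vanish_one k hn f hinv havg a b c d ha

end Pool.Agent.Lib.MP_938ce2_ag_rr
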