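import Mathlib
import Pool.Agent.Lib.MP_938ce2_ag_rr.RD
import Pool.Agent.Lib.MP_938ce2_ag_rr.VN

/-!
Row FM (90 lines). The fourth moment of a sum of functions.

RECIPE. `n = Fintype.card X` (if `n = 0` everything is `0`). `w i = √((∑ x, f i x ^ 2) / n)`, `|f i x| ≤ 2 w i` (`hsup`). `∑ x, (∑ i ∈ T, f i x)^4` is the four-fold sum of
`∑ x, f a x * f b x * f c x * f d x`; it is `0` if not `Rel` (`vanish`), otherwise at most `n * 16 * w a * w b * w c * w d`. With `hW` the total is at most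
`16 n B (∑ i ∈ T, w i ^ 2) ^ 2 = 16 n B ((∑ x, (∑ i ∈ T, f i x)^2) / n)^2` (`horth`: `∑ x, (∑ i, f i x)^2 = ∑ i, ∑ x, f i x ^2`).
-/

set_option autoImplicit false
set_option linter.unusedSectionVars false

namespace Pool.Agent.Lib.MP_938ce2_ag_rr

open Finset

private theorem fm_expand {ι X : Type} [Fintype X] (f : ι → X → ℝ) (T : Finset ι) :
    ∑ x, (∑ i ∈ T, f i x) ^ 4 =
      ∑ a ∈ T, ∑ b ∈ T, ∑ c ∈ T, ∑ d ∈ T, ∑ x, f a x * f b x * f c x * f d x := by
  have h1 : ∀ x, (∑ i ∈ T, f i x) ^ 4 =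
      ∑ a ∈ T, ∑ b ∈ T, ∑ c ∈ T, ∑ d ∈ T, f a x * f b x * f c x * f d x := by
    intro x
    have e : (∑ i ∈ T, f i x) ^ 4 = (∑ i ∈ T, f i x) *
        ((∑ i ∈ T, f i x) * ((∑ i ∈ T, f i x) * (∑ i ∈ T, f i x))) := by
      ring
    rw [e, Finset.sum_mul]
    refine Finset.sum_congr rfl fun a _ => ?_
    rw [Finset.sum_mul, Finset.mul_sum]
    refine Finset.sum_congr rfl fun b _ => ?_
    rw [Finset.sum_mul, Finset.mul_sum, Finset.mul_sum]
    refine Finset.sum_congr rfl fun c _ => ?_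
    rw [Finset.mul_sum, Finset.mul_sum, Finset.mul_sum]
    refine Finset.sum_congr rfl fun d _ => ?_
    ring
  rw [Finset.sum_congr rfl fun x _ => h1 x]
  rw [Finset.sum_comm]
  refine Finset.sum_congr rfl fun a _ => ?_
  rw [Finset.sum_comm]
  refine Finset.sum_congr rfl fun b _ => ?_
  rw [Finset.sum_comm]
  refine Finset.sum_congr rfl fun c _ => ?_
  rw [Finset.sum_comm]

private theorem fm_square {ι X : Type} [Fintype X] (f : ι → X → ℝ) (T : Finset ι)
    (horth : ∀ i ∈ T, ∀ j ∈ T, i ≠ j → ∑ x, f i x * f j x = 0) :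
    ∑ x, (∑ i ∈ T, f i x) ^ 2 = ∑ i ∈ T, ∑ x, f i x ^ 2 := by
  classical
  have h1 : ∀ x, (∑ i ∈ T, f i x) ^ 2 = ∑ a ∈ T, ∑ b ∈ T, f a x * f b x := by
    intro x
    rw [sq, Finset.sum_mul]
    refine Finset.sum_congr rfl fun a _ => ?_
    rw [Finset.mul_sum]
  rw [Finset.sum_congr rfl fun x _ => h1 x, Finset.sum_comm]
  refine Finset.sum_congr rfl fun a ha => ?_
  rw [Finset.sum_comm, Finset.sum_eq_single a]
  · refine Finset.sum_congr rfl fun x _ => ?_
    rw [sq]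
  · intro b hb hba
    exact horth a ha b hb hba.symm
  · intro h; exact absurd ha h

open Classical in
theorem fourth {ι G X : Type} [Group G] [Fintype G] [MulAction G X] [Fintype X]
    (k : ι → Subgroup G) (hn : ∀ i, (k i).Normal) (f : ι → X → ℝ)
    (hinv : ∀ i, ∀ σ ∈ k i, ∀ x, f i (σ • x) = f i x)
    (havg : ∀ i, ∀ K : Subgroup G, K.Normal → ¬ K ≤ k i → ∀ x,
      ∑ σ ∈ (Finset.univ.filter fun σ : G => σ ∈ K), f i (σ • x) = 0)
    (T : Finset ι) (horth : ∀ i ∈ T, ∀ j ∈ T, i ≠ j → ∑ x, f i x * f j x = 0)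
    (hsup : ∀ i ∈ T, ∀ x, (Fintype.card X : ℝ) * f i x ^ 2 ≤ 4 * ∑ y, f i y ^ 2) (B : ℝ)
    (hB : 0 ≤ B)
    (hW : ∀ w : ι → ℝ, (∀ i, 0 ≤ w i) →
      ∑ a ∈ T, ∑ b ∈ T, ∑ c ∈ T, ∑ d ∈ T, (if Rel k a b c d then w a * w b * w c * w d else 0)
        ≤ B * (∑ i ∈ T, w i ^ 2) ^ 2) :
    (Fintype.card X : ℝ) * ∑ x, (∑ i ∈ T, f i x) ^ 4 ≤ 16 * B * (∑ x, (∑ i ∈ T, f i x) ^ 2) ^ 2 := by
  rcases Nat.eq_zero_or_pos (Fintype.card X) with h0 | hpos
  · rw [h0, Nat.cast_zero, zero_mul]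
    positivity
  set n : ℝ := (Fintype.card X : ℝ) with hn'
  have hnpos : 0 < n := by rw [hn']; exact_mod_cast hpos
  let w : ι → ℝ := fun i => Real.sqrt ((∑ y, f i y ^ 2) / n)
  have hw0 : ∀ i, 0 ≤ w i := fun i => Real.sqrt_nonneg _
  have hs0 : ∀ i, 0 ≤ ∑ y, f i y ^ 2 := fun i => Finset.sum_nonneg fun y _ => sq_nonneg _
  have hw2 : ∀ i, w i ^ 2 = (∑ y, f i y ^ 2) / n := fun i =>
    Real.sq_sqrt (div_nonneg (hs0 i) hnpos.le)
  have hfw : ∀ i ∈ T, ∀ x, |f i x| ≤ 2 * w i := by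
    intro i hi x
    have h1 := hsup i hi x
    have h2 : f i x ^ 2 ≤ (2 * w i) ^ 2 := by
      rw [mul_pow, hw2]
      have h3 : f i x ^ 2 ≤ (4 * ∑ y, f i y ^ 2) / n := by
        rw [le_div_iff₀ hnpos, mul_comm]
        exact h1
      calc f i x ^ 2 ≤ (4 * ∑ y, f i y ^ 2) / n := h3
        _ = 2 ^ 2 * ((∑ y, f i y ^ 2) / n) := by ring
    exact abs_le_of_sq_le_sq h2 (by have := hw0 i; positivity)
  have hterm : ∀ a ∈ T, ∀ b ∈ T, ∀ c ∈ T, ∀ d ∈ T, ∑ x, f a x * f b x * f c x * f d x ≤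
      16 * n * (if Rel k a b c d then w a * w b * w c * w d else 0) := by
    intro a ha b hb c hc d hd
    by_cases hR : Rel k a b c d
    · rw [if_pos hR]
      have h1 : ∀ x ∈ (Finset.univ : Finset X), f a x * f b x * f c x * f d x ≤
          16 * (w a * w b * w c * w d) := by
        intro x _
        have ha' := hfw a ha x
        have hb' := hfw b hb x
        have hc' := hfw c hc x
        have hd' := hfw d hd x
        calc f a x * f b x * f c x * f d x ≤ |f a x * f b x * f c x * f d x| := le_abs_self _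
          _ = |f a x| * |f b x| * |f c x| * |f d x| := by rw [abs_mul, abs_mul, abs_mul]
          _ ≤ (2 * w a) * (2 * w b) * (2 * w c) * (2 * w d) := by
              have wa := hw0 a
              have wb := hw0 b
              have wc := hw0 c
              have wd := hw0 d
              gcongr
          _ = 16 * (w a * w b * w c * w d) := by ring
      have h2 := Finset.sum_le_card_nsmul _ _ _ h1
      rw [Finset.card_univ, nsmul_eq_mul] at h2
      calc _ ≤ _ := h2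
        _ = 16 * n * (w a * w b * w c * w d) := by rw [hn']; ring
    · rw [if_neg hR, mul_zero]
      exact le_of_eq (vanish k hn f hinv havg a b c d hR)
  have h4 : ∑ x, (∑ i ∈ T, f i x) ^ 4 ≤ 16 * n * (B * (∑ i ∈ T, w i ^ 2) ^ 2) := by
    rw [fm_expand]
    calc ∑ a ∈ T, ∑ b ∈ T, ∑ c ∈ T, ∑ d ∈ T, ∑ x, f a x * f b x * f c x * f d x
        ≤ ∑ a ∈ T, ∑ b ∈ T, ∑ c ∈ T, ∑ d ∈ T,
            16 * n * (if Rel k a b c d then w a * w b * w c * w d else 0) :=
          Finset.sum_le_sum fun a ha => Finset.sum_le_sum fun b hb => Finset.sum_le_sum fun c hc =>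
            Finset.sum_le_sum fun d hd => hterm a ha b hb c hc d hd
      _ = 16 * n * ∑ a ∈ T, ∑ b ∈ T, ∑ c ∈ T, ∑ d ∈ T,
            (if Rel k a b c d then w a * w b * w c * w d else 0) := by
          rw [Finset.mul_sum]
          refine Finset.sum_congr rfl fun a _ => ?_
          rw [Finset.mul_sum]
          refine Finset.sum_congr rfl fun b _ => ?_
          rw [Finset.mul_sum]
          refine Finset.sum_congr rfl fun c _ => ?_
          rw [Finset.mul_sum]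
      _ ≤ _ := mul_le_mul_of_nonneg_left (hW w hw0) (by positivity)
  have h5 : ∑ i ∈ T, w i ^ 2 = (∑ x, (∑ i ∈ T, f i x) ^ 2) / n := by
    rw [fm_square f T horth, Finset.sum_div]
    exact Finset.sum_congr rfl fun i _ => hw2 i
  calc n * ∑ x, (∑ i ∈ T, f i x) ^ 4 ≤ n * (16 * n * (B * (∑ i ∈ T, w i ^ 2) ^ 2)) :=
        mul_le_mul_of_nonneg_left h4 hnpos.le
    _ = 16 * B * (∑ x, (∑ i ∈ T, f i x) ^ 2) ^ 2 := by
        rw [h5]
        field_simp

end Pool.Agent.Lib.MP_938ce2_ag_rr
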