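import Mathlib
import Pool.Agent.Lib.MP_938ce2_ag_rr.RD

/-!
Row IO (90 lines). Isotypic submodules of different types are orthogonal.
-/

set_option autoImplicit false
set_option linter.unusedSectionVars false

namespace Pool.Agent.Lib.MP_938ce2_ag_rr

open Finset Module MonoidAlgebra
open Pool.Agent.Lib.MP_938ce2_ag_h67 (sg VV ev mkV kerM mem_kerM ev_ext ev_single ev_add ev_smul)

section io

variable {G X : Type} [Group G] [MulAction G X] [Fintype X]

/-- the invariant form -/
private noncomputable def ioB (G X : Type) [Group G] [MulAction G X] [Fintype X] :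
    LinearMap.BilinForm ℚ (VV ℚ G X) :=
  LinearMap.mk₂ ℚ (fun u v => ∑ x, ev u x * ev v x)
    (fun u u' v => by
      simp only [ev_add, add_mul, Finset.sum_add_distrib])
    (fun c u v => by
      simp only [ev_smul, smul_eq_mul, Finset.mul_sum, mul_assoc])
    (fun u v v' => by
      simp only [ev_add, mul_add, Finset.sum_add_distrib])
    (fun c u v => by
      simp only [ev_smul, smul_eq_mul, Finset.mul_sum]
      exact Finset.sum_congr rfl (fun x _ => by ring))

private theorem ioB_apply (u v : VV ℚ G X) : ioB G X u v = ∑ x, ev u x * ev v x := rfl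

private theorem ioB_symm (u v : VV ℚ G X) : ioB G X u v = ioB G X v u := by
  rw [ioB_apply, ioB_apply]
  exact Finset.sum_congr rfl (fun x _ => mul_comm _ _)

private theorem ioB_pos (u : VV ℚ G X) (h : ioB G X u u = 0) : u = 0 := by
  rw [ioB_apply] at h
  have h1 := (Finset.sum_eq_zero_iff_of_nonneg (fun x _ => mul_self_nonneg (ev u x))).1 h
  apply ev_ext
  intro x
  exact mul_self_eq_zero.1 (h1 x (mem_univ x))

private theorem ioB_smul (u v : VV ℚ G X) (σ : G) (c : ℚ) :
    ioB G X u (MonoidAlgebra.single σ c • v) = ioB G X (MonoidAlgebra.single σ⁻¹ c • u) v := by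
  rw [ioB_apply, ioB_apply]
  simp only [ev_single, inv_inv]
  rw [← Equiv.sum_comp (MulAction.toPerm σ) (fun x => ev u x * (c * ev v (σ⁻¹ • x)))]
  refine Finset.sum_congr rfl (fun x _ => ?_)
  rw [MulAction.toPerm_apply, inv_smul_smul]
  ring

/-- the orthogonal complement -/
private noncomputable def ioW (R : Submodule (MonoidAlgebra ℚ G) (VV ℚ G X)) :
    Submodule (MonoidAlgebra ℚ G) (VV ℚ G X) where
  carrier := {v | ∀ r ∈ R, ioB G X r v = 0}
  add_mem' := by
    intro a b ha hb r hr
    rw [map_add, ha r hr, hb r hr, add_zero]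
  zero_mem' := by
    intro r _
    rw [map_zero]
  smul_mem' := by
    intro a v hv r hr
    induction a using MonoidAlgebra.induction_linear with
    | zero => rw [zero_smul, map_zero]
    | add f g hf hg => rw [add_smul, map_add, hf, hg, add_zero]
    | single σ c =>
      rw [ioB_smul]
      exact hv _ (R.smul_mem _ hr)

private theorem io_compl (R : Submodule (MonoidAlgebra ℚ G) (VV ℚ G X)) : IsCompl R (ioW R) := by
  rw [isCompl_iff]
  constructor
  · rw [Submodule.disjoint_def]
    intro v hv hw
    exact ioB_pos v (hw v hv)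
  · rw [codisjoint_iff, Submodule.eq_top_iff']
    intro v
    let R' : Submodule ℚ (VV ℚ G X) := R.restrictScalars ℚ
    have h1 : IsCompl R' ((ioB G X).orthogonal R') := by
      apply LinearMap.BilinForm.isCompl_orthogonal_of_restrict_nondegenerate
      · intro u v h
        rw [ioB_symm]
        exact h
      · refine ⟨?_, ?_⟩
        · intro u hu
          exact Subtype.ext (ioB_pos (u : VV ℚ G X) (hu u))
        · intro u hu
          exact Subtype.ext (ioB_pos (u : VV ℚ G X) (hu u))
    have h2 : v ∈ R' ⊔ (ioB G X).orthogonal R' := by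
      rw [h1.sup_eq_top]
      exact Submodule.mem_top
    obtain ⟨r, hr, w, hw, hrw⟩ := Submodule.mem_sup.1 h2
    refine Submodule.mem_sup.2 ⟨r, hr, w, ?_, hrw⟩
    intro s hs
    exact hw s hs

end io

theorem orth_VI {G X : Type} [Group G] [Fintype G] [MulAction G X] [Fintype X] [DecidableEq X]
    (M N : Submodule (MonoidAlgebra ℚ G) (VV ℚ G X)) (hM : IsSimpleModule (MonoidAlgebra ℚ G) M)
    (hN : IsSimpleModule (MonoidAlgebra ℚ G) N) (hMN : ¬ Nonempty (M ≃ₗ[MonoidAlgebra ℚ G] N))
    (u v : VV ℚ G X) (hu : u ∈ VI M) (hv : v ∈ VI N) : ∑ x, ev u x * ev v x = 0 := by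
  have key : ∀ (f : M →ₗ[MonoidAlgebra ℚ G] VV ℚ G X) (h : N →ₗ[MonoidAlgebra ℚ G] VV ℚ G X)
      (m : M) (n : N), ioB G X (h n) (f m) = 0 := by
    intro f h m n
    let R := LinearMap.range h
    have hc := io_compl R
    let g : M →ₗ[MonoidAlgebra ℚ G] R := (R.projectionOnto (ioW R) hc).comp f
    have hg : g = 0 := by
      by_contra hne
      rcases LinearMap.injective_or_eq_zero h with hinj | hz
      · let e : N ≃ₗ[MonoidAlgebra ℚ G] R := LinearEquiv.ofInjective h hinj
        haveI : IsSimpleModule (MonoidAlgebra ℚ G) R := IsSimpleModule.congr e.symm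
        have h2 : Function.Bijective g := (LinearMap.bijective_or_eq_zero g).resolve_right hne
        exact hMN ⟨(LinearEquiv.ofBijective g h2).trans e.symm⟩
      · apply hne
        apply LinearMap.ext
        intro m'
        apply Subtype.ext
        obtain ⟨n', hn'⟩ := (g m').2
        rw [← hn', hz]
        rfl
    have h3 : f m ∈ ioW R := by
      have h4 : R.projectionOnto (ioW R) hc (f m) = 0 := by
        have := congrArg (fun l => l m) hg
        exact this
      exact (Submodule.projectionOnto_apply_eq_zero_iff hc).1 h4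
    exact h3 (h n) (LinearMap.mem_range_self h n)
  have key2 : ∀ (h : N →ₗ[MonoidAlgebra ℚ G] VV ℚ G X) (n : N), ioB G X (h n) u = 0 := by
    intro h n
    unfold VI at hu
    induction hu using Submodule.iSup_induction' with
    | mem f x hx =>
      obtain ⟨m, rfl⟩ := hx
      exact key f h m n
    | zero => rw [map_zero]
    | add x y _ _ hx hy => rw [map_add, hx, hy, add_zero]
  have key3 : ioB G X v u = 0 := by
    unfold VI at hv
    induction hv using Submodule.iSup_induction' with
    | mem h x hx =>
      obtain ⟨n, rfl⟩ := hx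
      exact key2 h n
    | zero => rw [map_zero, LinearMap.zero_apply]
    | add x y _ _ hx hy => rw [map_add, LinearMap.add_apply, hx, hy, add_zero]
  rw [ioB_symm] at key3
  exact key3

end Pool.Agent.Lib.MP_938ce2_ag_rr
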