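import Mathlib
import Pool.Agent.Lib.MP_938ce2_ag_rr.RD
import Pool.Agent.Lib.MP_938ce2_ag_h85d.Isotypic

/-!
Row IA (110 lines). Invariance, averages, dimension of the isotypic submodules.

RECIPE. All by `Submodule.iSup_induction` (membership in the supremum of the ranges) reduced to `u = f m`, `f : M →ₗ VV`. (1) `single σ 1 • m = m` for `σ ∈ kerM M`, so
`single σ 1 • f m = f m`; evaluate at `σ • x` (`ev_single`). (2) `z = ∑ σ ∈ K, single σ⁻¹ 1 • m ∈ M` (or with `σ`) is fixed by `K`; the `K`-fixed vectors of `M` are an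
`ℚ[G]`-submodule (`K` normal), not all of `M` as `K` is not contained in `kerM M`, so `⊥` (simple). Hence `z = 0`, and `∑ σ ∈ K, ev (f m) (σ • x) = ev (f z) x = 0`.
(3) `finrank ℚ (VI M) ≤ dH M * dM M ≤ dM M * dM M`: see the private theorem `exists_isotypic` in `MP_938ce2_ag_sub/S9.lean` (copy it) and
`Pool.Agent.Lib.MP_938ce2_ag_h85d.finrank_hom_le`. (4) kernels are normal: see `Kern.lean` (there may be an instance; otherwise by definition).
-/

set_option autoImplicit false
set_option linter.unusedSectionVars false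

namespace Pool.Agent.Lib.MP_938ce2_ag_rr

open Finset Module MonoidAlgebra
open Pool.Agent.Lib.MP_938ce2_ag_h67 (sg VV ev mkV kerM mem_kerM ev_ext ev_single ev_add ev_smul)

variable {G X : Type} [Group G] [Fintype G] [MulAction G X] [Fintype X] [DecidableEq X]

private theorem exists_isotypic {F R A V : Type} [Field F] [Ring R] [Algebra F R] [AddCommGroup A]
    [Module F A] [Module R A] [IsScalarTower F R A] [AddCommGroup V] [Module F V] [Module R V]
    [IsScalarTower F R V] [Module.Finite F A] [Module.Finite F V] [Module.Finite F (A →ₗ[R] V)] :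
    ∃ V1 : Submodule R V, (∀ f : A →ₗ[R] V, LinearMap.range f ≤ V1) ∧
    finrank F V1 ≤ finrank F (A →ₗ[R] V) * finrank F A := by
  let B : (A →ₗ[R] V) →ₗ[F] A →ₗ[F] V :=
    { toFun := fun f => f.restrictScalars F
      map_add' := fun f f' => rfl
      map_smul' := fun a f => rfl }
  let L : TensorProduct F (A →ₗ[R] V) A →ₗ[F] V := TensorProduct.lift B
  let V1 : Submodule R V :=
    { carrier := LinearMap.range L
      zero_mem' := Submodule.zero_mem _
      add_mem' := fun {a b} ha hb => Submodule.add_mem _ ha hb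
      smul_mem' := by
        rintro r _ ⟨t, rfl⟩
        induction t using TensorProduct.induction_on with
        | zero =>
          rw [map_zero, smul_zero]
          exact Submodule.zero_mem _
        | tmul f a =>
          refine ⟨TensorProduct.tmul F f (r • a), ?_⟩
          show f (r • a) = r • f a
          exact map_smul f r a
        | add s t hs ht =>
          rw [map_add, smul_add]
          exact Submodule.add_mem _ hs ht }
  refine ⟨V1, ?_, ?_⟩
  · rintro f _ ⟨a, rfl⟩
    exact ⟨TensorProduct.tmul F f a, rfl⟩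
  · have h1 : finrank F V1 = finrank F (LinearMap.range L) := rfl
    rw [h1, ← finrank_tensorProduct]
    exact LinearMap.finrank_range_le L

private lemma single_mul_smul {V : Type} [AddCommGroup V] [Module (MonoidAlgebra ℚ G) V]
    (σ τ : G) (a b : ℚ) (v : V) :
    (MonoidAlgebra.single σ a : MonoidAlgebra ℚ G) • (MonoidAlgebra.single τ b : MonoidAlgebra ℚ G) • v
      = (MonoidAlgebra.single (σ * τ) (a * b) : MonoidAlgebra ℚ G) • v := by
  rw [← mul_smul, MonoidAlgebra.single_mul_single]

/-- the vectors fixed by a normal subgroup -/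
private def fixN {V : Type} [AddCommGroup V] [Module (MonoidAlgebra ℚ G) V] (K : Subgroup G)
    (hK : K.Normal) : Submodule (MonoidAlgebra ℚ G) V where
  carrier := {v | ∀ k ∈ K, (MonoidAlgebra.single k 1 : MonoidAlgebra ℚ G) • v = v}
  zero_mem' := fun k _ => smul_zero _
  add_mem' := by
    intro v w hv hw k hk
    rw [smul_add, hv k hk, hw k hk]
  smul_mem' := by
    intro r v hv k hk
    induction r using MonoidAlgebra.induction_linear with
    | zero => rw [zero_smul, smul_zero]
    | add f g hf hg => rw [add_smul, smul_add, hf, hg]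
    | single τ a =>
      have h1 : τ⁻¹ * k * τ ∈ K := by
        have := hK.conj_mem k hk τ⁻¹
        rwa [inv_inv] at this
      have h2 := hv _ h1
      conv_rhs => rw [← h2]
      rw [single_mul_smul, single_mul_smul, one_mul, mul_one]
      congr 2
      group

theorem VI_inv (M : Submodule (MonoidAlgebra ℚ G) (VV ℚ G X)) (u : VV ℚ G X) (hu : u ∈ VI M)
    (σ : G) (hσ : σ ∈ kerM M) (x : X) : ev u (σ • x) = ev u x := by
  unfold VI at hu
  refine Submodule.iSup_induction (fun f : M →ₗ[MonoidAlgebra ℚ G] VV ℚ G X => LinearMap.range f)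
    (motive := fun u => ev u (σ • x) = ev u x) hu ?_ rfl ?_
  · rintro f _ ⟨m, rfl⟩
    have h1 : (MonoidAlgebra.single σ⁻¹ (1 : ℚ) : MonoidAlgebra ℚ G) • m = m :=
      (kerM M).inv_mem hσ m
    have h2 := congrArg (fun w => ev (f w) x) h1
    simp only [map_smul] at h2
    rw [ev_single, inv_inv, one_mul] at h2
    exact h2
  · intro v w hv hw
    show ev (v + w) (σ • x) = ev (v + w) x
    rw [ev_add, ev_add, hv, hw]

open Classical in
theorem VI_avg (M : Submodule (MonoidAlgebra ℚ G) (VV ℚ G X))
    (hM : IsSimpleModule (MonoidAlgebra ℚ G) M) (u : VV ℚ G X) (hu : u ∈ VI M) (K : Subgroup G)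
    (hK : K.Normal) (hKM : ¬ K ≤ kerM M) (x : X) :
    ∑ σ ∈ (Finset.univ.filter fun σ : G => σ ∈ K), ev u (σ • x) = 0 := by
  have hbot : (fixN K hK : Submodule (MonoidAlgebra ℚ G) M) = ⊥ := by
    rcases hM.eq_bot_or_eq_top (fixN K hK) with h | h
    · exact h
    · exfalso
      apply hKM
      intro k hk s
      have : s ∈ (fixN K hK : Submodule (MonoidAlgebra ℚ G) M) := by rw [h]; trivial
      exact this k hk
  unfold VI at hu
  refine Submodule.iSup_induction (fun f : M →ₗ[MonoidAlgebra ℚ G] VV ℚ G X => LinearMap.range f)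
    (motive := fun u => ∑ σ ∈ (Finset.univ.filter fun σ : G => σ ∈ K), ev u (σ • x) = 0) hu ?_ ?_ ?_
  · rintro f _ ⟨m, rfl⟩
    have hz : (∑ σ ∈ (Finset.univ.filter fun σ : G => σ ∈ K),
        (MonoidAlgebra.single σ⁻¹ (1 : ℚ) : MonoidAlgebra ℚ G) • m) = 0 := by
      have hmem : (∑ σ ∈ (Finset.univ.filter fun σ : G => σ ∈ K),
        (MonoidAlgebra.single σ⁻¹ (1 : ℚ) : MonoidAlgebra ℚ G) • m) ∈
          (fixN K hK : Submodule (MonoidAlgebra ℚ G) M) := by
        intro k hk
        rw [Finset.smul_sum]
        refine Finset.sum_nbij' (fun σ => σ * k⁻¹) (fun σ => σ * k) ?_ ?_ ?_ ?_ ?_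
        · intro σ hσ
          rw [Finset.mem_filter] at hσ ⊢
          exact ⟨Finset.mem_univ _, K.mul_mem hσ.2 (K.inv_mem hk)⟩
        · intro σ hσ
          rw [Finset.mem_filter] at hσ ⊢
          exact ⟨Finset.mem_univ _, K.mul_mem hσ.2 hk⟩
        · intro σ _
          group
        · intro σ _
          group
        · intro σ _
          refine (single_mul_smul (V := M) k σ⁻¹ 1 1 m).trans ?_
          have e1 : k * σ⁻¹ = (σ * k⁻¹)⁻¹ := by group
          rw [one_mul, e1]
      rw [hbot] at hmem
      exact (Submodule.mem_bot _).mp hmem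
    have h2 := congrArg (fun w => ev (f w) x) hz
    simp only [map_sum, map_smul, map_zero] at h2
    rw [Pool.Agent.Lib.MP_938ce2_ag_h67.ev_sum] at h2
    rw [← (show ev (0 : VV ℚ G X) x = 0 from rfl), ← h2]
    refine Finset.sum_congr rfl fun σ _ => ?_
    rw [ev_single, inv_inv, one_mul]
  · exact Finset.sum_eq_zero fun σ _ => rfl
  · intro v w hv hw
    have : ∀ σ : G, ev (v + w) (σ • x) = ev v (σ • x) + ev w (σ • x) := fun σ => ev_add _ _ _
    rw [Finset.sum_congr rfl fun σ _ => this σ, Finset.sum_add_distrib, hv, hw, add_zero]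

theorem VI_finrank [MulAction.IsPretransitive G X] [Nonempty X]
    (M : Submodule (MonoidAlgebra ℚ G) (VV ℚ G X)) :
    finrank ℚ (VI M) ≤ finrank ℚ M * finrank ℚ M := by
  have hfin : Module.Finite ℚ M := Module.Finite.of_injective (M.subtype.restrictScalars ℚ)
    Subtype.val_injective
  have hfh : Module.Finite ℚ (M →ₗ[MonoidAlgebra ℚ G] VV ℚ G X) :=
    Pool.Agent.Lib.MP_938ce2_ag_h85d.finite_hom
  obtain ⟨V1, hV1, hV1r⟩ := exists_isotypic (F := ℚ) (R := MonoidAlgebra ℚ G) (A := M)
    (V := VV ℚ G X)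
  have hle : VI M ≤ V1 := iSup_le hV1
  have hfV : Module.Finite ℚ V1 := Module.Finite.of_injective (V1.subtype.restrictScalars ℚ)
    Subtype.val_injective
  have h1 : finrank ℚ (VI M) ≤ finrank ℚ V1 :=
    LinearMap.finrank_le_finrank_of_injective
      (f := (Submodule.inclusion hle).restrictScalars ℚ) (Submodule.inclusion_injective hle)
  exact h1.trans (hV1r.trans (Nat.mul_le_mul_right _
    (Pool.Agent.Lib.MP_938ce2_ag_h85d.finrank_hom_le M)))

theorem kerM_normal (M : Submodule (MonoidAlgebra ℚ G) (VV ℚ G X)) : (kerM M).Normal := by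
  infer_instance

end Pool.Agent.Lib.MP_938ce2_ag_rr
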