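import Mathlib
import Pool.Agent.Lib.MP_938ce2_ag_rr.RD
import Pool.Agent.Lib.MP_938ce2_ag_rr.IA
import Pool.Agent.Lib.MP_938ce2_ag_sub.S3

/-!
Row RB (70 lines). The supremum of a member of an isotypic submodule.

RECIPE. `sup_bound` (`MP_938ce2_ag_sub/S3.lean`) for the real span `W` of the functions `x ↦ (ev v x : ℝ)`, `v ∈ VI M`: invariant under translations (`VI M` is a
`ℚ[G]`-submodule: `ev (single σ⁻¹ 1 • v) x = ev v (σ • x)`), of dimension at most `finrank ℚ (VI M) ≤ 2 * 2` (`VI_finrank`; a `ℚ`-basis of `VI M` spans `W`: copy the private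
lemma `span_finrank` of `MP_938ce2_ag_sub/S10.lean`).
-/

set_option autoImplicit false
set_option linter.unusedSectionVars false

namespace Pool.Agent.Lib.MP_938ce2_ag_rr

open Finset Module MonoidAlgebra
open Pool.Agent.Lib.MP_938ce2_ag_h67 (sg VV ev mkV kerM mem_kerM ev_ext ev_single ev_add ev_smul)
open Pool.Agent.Lib.MP_938ce2_ag_u2 (dM)

private lemma rb_span {X : Type} [Fintype X] [DecidableEq X] (P : Submodule ℚ (X → ℚ)) :
    finrank ℝ (Submodule.span ℝ ((fun (h : X → ℚ) (x : X) => (h x : ℝ)) '' (P : Set (X → ℚ))))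
      ≤ finrank ℚ P := by
  let b := Module.finBasis ℚ P
  let v : Fin (finrank ℚ P) → (X → ℝ) := fun i x => (((b i : P) : X → ℚ) x : ℝ)
  have h1 : Submodule.span ℝ ((fun (h : X → ℚ) (x : X) => (h x : ℝ)) '' (P : Set (X → ℚ)))
      ≤ Submodule.span ℝ (Set.range v) := by
    rw [Submodule.span_le]
    rintro _ ⟨h, hh, rfl⟩
    have h2 := b.sum_repr ⟨h, hh⟩
    have h3 : (fun x => (h x : ℝ)) = ∑ i, ((b.repr ⟨h, hh⟩ i : ℚ) : ℝ) • v i := by
      funext x
      have h4 : h = ∑ i, (b.repr ⟨h, hh⟩ i) • ((b i : P) : X → ℚ) := by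
        have h5 : ((∑ i, (b.repr ⟨h, hh⟩ i) • b i : P) : X → ℚ) = h := congrArg (Subtype.val) h2
        conv_lhs => rw [← h5]
        simp only [AddSubmonoidClass.coe_finsetSum, SetLike.val_smul]
      have h6 : h x = ∑ i, (b.repr ⟨h, hh⟩ i) * ((b i : P) : X → ℚ) x := by
        have h7 := congrFun h4 x
        rw [Finset.sum_apply] at h7
        exact h7
      rw [Finset.sum_apply, h6]
      push_cast
      refine Finset.sum_congr rfl fun i _ => ?_
      rfl
    show (fun x => (h x : ℝ)) ∈ Submodule.span ℝ (Set.range v)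
    rw [h3]
    exact Submodule.sum_mem _ fun i _ =>
      Submodule.smul_mem _ _ (Submodule.subset_span (Set.mem_range_self i))
  calc finrank ℝ (Submodule.span ℝ ((fun (h : X → ℚ) (x : X) => (h x : ℝ)) '' (P : Set (X → ℚ))))
      ≤ finrank ℝ (Submodule.span ℝ (Set.range v)) := Submodule.finrank_mono h1
    _ ≤ Fintype.card (Fin (finrank ℚ P)) := finrank_range_le_card v
    _ = finrank ℚ P := Fintype.card_fin _

theorem VI_sup {G X : Type} [Group G] [Fintype G] [MulAction G X] [Fintype X]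
    [DecidableEq X] [MulAction.IsPretransitive G X] (M : Submodule (MonoidAlgebra ℚ G) (VV ℚ G X))
    (h2 : dM M = 2) (v : VV ℚ G X) (hv : v ∈ VI M) (x : X) :
    (Fintype.card X : ℝ) * ((ev v x : ℚ) : ℝ) ^ 2 ≤ 4 * ∑ y, ((ev v y : ℚ) : ℝ) ^ 2 := by
  classical
  have : Nonempty X := ⟨x⟩
  let P : Submodule ℚ (X → ℚ) := ((VI M).restrictScalars ℚ).map
    ((mkV G : (X → ℚ) ≃ₗ[ℚ] VV ℚ G X).symm : VV ℚ G X →ₗ[ℚ] (X → ℚ))
  have hPmem : ∀ h : X → ℚ, h ∈ P ↔ mkV G h ∈ VI M := by
    intro h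
    constructor
    · rintro ⟨w, hw, rfl⟩
      exact hw
    · intro hh
      exact ⟨mkV G h, hh, rfl⟩
  have hfin : finrank ℚ P ≤ 4 := by
    have h3 : finrank ℚ P = finrank ℚ ((VI M).restrictScalars ℚ) :=
      LinearEquiv.finrank_map_eq _ _
    have h4 : finrank ℚ (VI M) ≤ finrank ℚ M * finrank ℚ M := VI_finrank M
    have h5 : finrank ℚ M = 2 := h2
    rw [h5] at h4
    rw [h3]
    exact h4
  set W : Submodule ℝ (X → ℝ) :=
    Submodule.span ℝ ((fun (h : X → ℚ) (x : X) => (h x : ℝ)) '' (P : Set (X → ℚ))) with hWdef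
  have hWfin : finrank ℝ W ≤ 4 := le_trans (rb_span P) hfin
  have hinv : ∀ σ : G, ∀ f ∈ W, (fun x => f (σ • x)) ∈ W := by
    intro σ f hf
    induction hf using Submodule.span_induction with
    | mem f hf =>
      obtain ⟨h, hh, rfl⟩ := hf
      apply Submodule.subset_span
      refine ⟨fun y => h (σ • y), ?_, rfl⟩
      have h3 : mkV G h ∈ VI M := (hPmem h).mp hh
      refine (hPmem _).mpr ?_
      have h4 : MonoidAlgebra.single σ⁻¹ (1 : ℚ) • mkV G h ∈ VI M := Submodule.smul_mem _ _ h3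
      have h5 : MonoidAlgebra.single σ⁻¹ (1 : ℚ) • mkV G h = mkV G (fun y => h (σ • y)) := by
        apply ev_ext
        intro y
        rw [ev_single, inv_inv, one_mul]
        rfl
      rw [← h5]
      exact h4
    | zero => exact Submodule.zero_mem _
    | add f g _ _ hf hg => exact Submodule.add_mem _ hf hg
    | smul a f _ hf => exact Submodule.smul_mem _ a hf
  have hvW : (fun y => ((ev v y : ℚ) : ℝ)) ∈ W := by
    apply Submodule.subset_span
    exact ⟨fun y => ev v y, (hPmem _).mpr hv, rfl⟩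
  have hmain := Pool.Agent.Lib.MP_938ce2_ag_sub.sup_bound (G := G) W hinv _ hvW x
  refine le_trans hmain ?_
  have h6 : (finrank ℝ W : ℝ) ≤ 4 := by exact_mod_cast hWfin
  exact mul_le_mul_of_nonneg_right h6 (Finset.sum_nonneg fun y _ => sq_nonneg _)

end Pool.Agent.Lib.MP_938ce2_ag_rr
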