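import Mathlib

/-!
Row LC (50 lines). Layer cake.

RECIPE. First the statement for `v ≥ 0` and `e : ι → ℝ`: if `∑ c ∈ T.filter (l ≤ v ·), e c ≤ 0` for all `l > 0` then `∑ c ∈ T, v c * e c ≤ 0`. Strong induction on
`(T.filter (0 < v ·)).card`: if this set `P` is empty the sum is `0`; otherwise let `m > 0` be the minimum of `v` on `P`; `∑ v e = ∑_P (v - m) e + m ∑_P e`, the
second sum is `≤ 0` (`l = m`), and the first is covered by the induction for `v' = v - m` on `P` (extended by `0`), `{v' ≥ l} = {v ≥ l + m}`. Then put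
`v = w ^ 2`, `e = t - C`, `{w ^ 2 ≥ l} = {w ≥ √l}`.
-/

set_option autoImplicit false

namespace Pool.Agent.Lib.MP_938ce2_ag_rr

open Finset

open Classical in
private theorem layer_aux {ι : Type} (T : Finset ι) (e : ι → ℝ) (n : ℕ) :
    ∀ v : ι → ℝ, (∀ i, 0 ≤ v i) → (T.filter fun c => 0 < v c).card ≤ n →
      (∀ l : ℝ, 0 < l → ∑ c ∈ T.filter (fun c => l ≤ v c), e c ≤ 0) →
      ∑ c ∈ T, v c * e c ≤ 0 := by
  induction n with
  | zero =>
    intro v hv hn h
    have h0 : T.filter (fun c => 0 < v c) = ∅ := Finset.card_eq_zero.1 (Nat.le_zero.1 hn)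
    refine le_of_eq (Finset.sum_eq_zero fun c hc => ?_)
    have h1 : ¬ 0 < v c := fun h2 => by
      have h3 : c ∈ T.filter (fun c => 0 < v c) := Finset.mem_filter.2 ⟨hc, h2⟩
      rw [h0] at h3
      exact absurd h3 (Finset.notMem_empty c)
    have h2 : v c = 0 := le_antisymm (not_lt.1 h1) (hv c)
    rw [h2, zero_mul]
  | succ n ih =>
    intro v hv hn h
    rcases (T.filter fun c => 0 < v c).eq_empty_or_nonempty with h0 | hne
    · exact ih v hv (by rw [h0]; exact Nat.zero_le _) h
    · obtain ⟨a, ha, hmin⟩ := Finset.exists_min_image _ v hne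
      have ha' := Finset.mem_filter.1 ha
      have hm : 0 < v a := ha'.2
      have hminT : ∀ c ∈ T, 0 < v c → v a ≤ v c := fun c hc h1 =>
        hmin c (Finset.mem_filter.2 ⟨hc, h1⟩)
      have h1 : ∑ c ∈ T, (max (v c - v a) 0) * e c ≤ 0 := by
        refine ih (fun c => max (v c - v a) 0) (fun c => le_max_right _ _) ?_ ?_
        · have hlt : (T.filter fun c => 0 < max (v c - v a) 0).card <
              (T.filter fun c => 0 < v c).card := by
            refine Finset.card_lt_card ⟨?_, ?_⟩
            · intro c hc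
              rw [Finset.mem_filter] at hc ⊢
              refine ⟨hc.1, ?_⟩
              rcases lt_max_iff.1 hc.2 with h2 | h2
              · linarith
              · exact absurd h2 (lt_irrefl _)
            · intro hsub
              have h2 := (Finset.mem_filter.1 (hsub ha)).2
              simp at h2
          omega
        · intro l hl
          have hEq : T.filter (fun c => l ≤ max (v c - v a) 0) =
              T.filter (fun c => l + v a ≤ v c) := by
            refine Finset.filter_congr fun c _ => ?_
            rw [le_max_iff]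
            constructor
            · rintro (h2 | h2)
              · linarith
              · linarith
            · intro h2
              exact Or.inl (by linarith)
          rw [hEq]
          exact h (l + v a) (by linarith)
      have h2 : ∑ c ∈ T, v c * e c = ∑ c ∈ T, (max (v c - v a) 0) * e c +
          v a * ∑ c ∈ T.filter (fun c => v a ≤ v c), e c := by
        rw [Finset.mul_sum, Finset.sum_filter, ← Finset.sum_add_distrib]
        refine Finset.sum_congr rfl fun c hc => ?_
        by_cases h3 : v a ≤ v c
        · rw [if_pos h3, max_eq_left (by linarith)]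
          ring
        · have h4 : v c = 0 := by
            by_contra h5
            exact h3 (hminT c hc (lt_of_le_of_ne (hv c) (Ne.symm h5)))
          rw [if_neg h3, h4, max_eq_right (by linarith)]
          ring
      rw [h2]
      have h3 := mul_nonpos_of_nonneg_of_nonpos hm.le (h (v a) hm)
      linarith

open Classical in
theorem layer {ι : Type} (T : Finset ι) (w : ι → ℝ) (hw : ∀ i, 0 ≤ w i) (t : ι → ℝ) (C : ℝ)
    (h : ∀ l : ℝ, 0 < l → ∑ c ∈ T.filter (fun c => l ≤ w c), t c
      ≤ C * (T.filter fun c => l ≤ w c).card) :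
    ∑ c ∈ T, w c ^ 2 * t c ≤ C * ∑ c ∈ T, w c ^ 2 := by
  have h1 := layer_aux T (fun c => t c - C) _ (fun c => w c ^ 2) (fun i => sq_nonneg _) le_rfl ?_
  · have h2 : ∑ c ∈ T, w c ^ 2 * (t c - C) = ∑ c ∈ T, w c ^ 2 * t c - C * ∑ c ∈ T, w c ^ 2 := by
      rw [Finset.mul_sum, ← Finset.sum_sub_distrib]
      exact Finset.sum_congr rfl fun c _ => by ring
    have h3 : ∑ c ∈ T, w c ^ 2 * (t c - C) ≤ 0 := h1
    linarith
  · intro l hl
    have hEq : T.filter (fun c => l ≤ w c ^ 2) = T.filter (fun c => Real.sqrt l ≤ w c) := by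
      refine Finset.filter_congr fun c _ => ?_
      rw [Real.sqrt_le_left (hw c)]
    have h4 := h (Real.sqrt l) (Real.sqrt_pos.2 hl)
    have h5 : ∑ c ∈ T.filter (fun c => l ≤ w c ^ 2), (t c - C) =
        ∑ c ∈ T.filter (fun c => Real.sqrt l ≤ w c), t c -
          C * (T.filter fun c => Real.sqrt l ≤ w c).card := by
      rw [hEq, Finset.sum_sub_distrib, Finset.sum_const, nsmul_eq_mul, mul_comm C]
    rw [h5]
    linarith

end Pool.Agent.Lib.MP_938ce2_ag_rr
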