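import Mathlib
import Pool.Agent.Lib.MP_938ce2_ag_rr.RD
import Pool.Agent.Lib.MP_938ce2_ag_rr.LC

/-!
Row W1 (90 lines). The sorted part of the weighted number of relations.

RECIPE. For `w d ≤ w c ≤ w b ≤ w a` the product is at most `w a ^ 2 * w c ^ 2`. For given `a, b, c` there are at most `B` members `d ∈ T` with `Rel k a b c d` (`h3`), so
the sum is at most `B * ∑ a ∈ T, w a ^ 2 * ∑ c ∈ T, w c ^ 2 * t c`, `t c = #{b ∈ T : w c ≤ w b, ∃ d ∈ T, Rel k a b c d}`. `layer` for fixed `a`: for `l > 0` and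
`F = {c ∈ T : l ≤ w c}`: `∑ c ∈ F, t c ≤ #{(b, c) ∈ F × F : ∃ d ∈ T, Rel k a b c d} ≤ C F.card` (`w b ≥ w c ≥ l`; `htg`).
-/

set_option autoImplicit false
set_option linter.unusedSectionVars false

namespace Pool.Agent.Lib.MP_938ce2_ag_rr

open Finset

open Classical in
private theorem inner_layer {ι G : Type} [Fintype ι] [Group G] (k : ι → Subgroup G) (T : Finset ι)
    (C : ℕ) (a : ι)
    (htg : ∀ F ⊆ T, ((F ×ˢ F).filter fun p => ∃ d ∈ T, Rel k a p.1 p.2 d).card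
      ≤ C * F.card) (w : ι → ℝ) (hw : ∀ i, 0 ≤ w i) :
    ∑ c ∈ T, w c ^ 2 * ((T.filter fun b => w c ≤ w b ∧ ∃ d ∈ T, Rel k a b c d).card : ℝ) ≤
      C * ∑ c ∈ T, w c ^ 2 := by
  refine layer T w hw (fun c => ((T.filter fun b => w c ≤ w b ∧ ∃ d ∈ T, Rel k a b c d).card : ℝ))
    C fun l hl => ?_
  set F : Finset ι := T.filter fun c => l ≤ w c with hF
  have h1 := htg F (filter_subset _ _)
  have h2 : ∑ c ∈ F, (T.filter fun b => w c ≤ w b ∧ ∃ d ∈ T, Rel k a b c d).card ≤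
      ((F ×ˢ F).filter fun p => ∃ d ∈ T, Rel k a p.1 p.2 d).card := by
    rw [card_filter, sum_product_right]
    refine sum_le_sum fun c hc => ?_
    rw [← card_filter]
    refine card_le_card fun b hb => ?_
    rw [mem_filter] at hb ⊢
    refine ⟨?_, hb.2.2⟩
    rw [hF, mem_filter]
    rw [hF, mem_filter] at hc
    exact ⟨hb.1, hc.2.trans hb.2.1⟩
  have h3 : ∑ c ∈ F, (T.filter fun b => w c ≤ w b ∧ ∃ d ∈ T, Rel k a b c d).card ≤
      C * F.card := h2.trans h1
  exact_mod_cast h3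

open Classical in
theorem sorted_sum {ι G : Type} [Fintype ι] [Group G] (k : ι → Subgroup G) (T : Finset ι)
    (B C : ℕ) (h3 : ∀ a ∈ T, ∀ b ∈ T, ∀ c ∈ T, (T.filter fun d => Rel k a b c d).card ≤ B)
    (htg : ∀ a ∈ T, ∀ F ⊆ T, ((F ×ˢ F).filter fun p => ∃ d ∈ T, Rel k a p.1 p.2 d).card
      ≤ C * F.card) (w : ι → ℝ) (hw : ∀ i, 0 ≤ w i) :
    ∑ a ∈ T, ∑ b ∈ T, ∑ c ∈ T, ∑ d ∈ T,
      (if Rel k a b c d ∧ w b ≤ w a ∧ w c ≤ w b ∧ w d ≤ w c then w a * w b * w c * w d else 0)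
      ≤ B * C * (∑ i ∈ T, w i ^ 2) ^ 2 := by
  -- one triple
  have step1 : ∀ a ∈ T, ∀ b ∈ T, ∀ c ∈ T, ∑ d ∈ T,
      (if Rel k a b c d ∧ w b ≤ w a ∧ w c ≤ w b ∧ w d ≤ w c then w a * w b * w c * w d else 0) ≤
      if (w c ≤ w b ∧ ∃ d ∈ T, Rel k a b c d) then w a ^ 2 * (w c ^ 2 * B) else 0 := by
    intro a ha b hb c hc
    split_ifs with h
    · calc ∑ d ∈ T, (if Rel k a b c d ∧ w b ≤ w a ∧ w c ≤ w b ∧ w d ≤ w c
            then w a * w b * w c * w d else 0)
          ≤ ∑ d ∈ T, (if Rel k a b c d then w a ^ 2 * w c ^ 2 else 0) := by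
            refine sum_le_sum fun d _ => ?_
            split_ifs with h1 h2 h2
            · obtain ⟨-, h4, h5, h6⟩ := h1
              calc w a * w b * w c * w d ≤ w a * w a * w c * w c := by
                    have e1 := hw a
                    have e2 := hw b
                    have e3 := hw c
                    have e4 := hw d
                    gcongr
                _ = w a ^ 2 * w c ^ 2 := by ring
            · exact absurd h1.1 h2
            · positivity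
            · exact le_rfl
        _ = ((T.filter fun d => Rel k a b c d).card : ℝ) * (w a ^ 2 * w c ^ 2) := by
            rw [← sum_filter, sum_const, nsmul_eq_mul]
        _ ≤ B * (w a ^ 2 * w c ^ 2) := by
            gcongr
            exact_mod_cast h3 a ha b hb c hc
        _ = w a ^ 2 * (w c ^ 2 * B) := by ring
    · refine le_of_eq (sum_eq_zero fun d hd => ?_)
      rw [if_neg]
      rintro ⟨h1, h2, h4, h5⟩
      exact h ⟨h4, d, hd, h1⟩
  calc ∑ a ∈ T, ∑ b ∈ T, ∑ c ∈ T, ∑ d ∈ T,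
      (if Rel k a b c d ∧ w b ≤ w a ∧ w c ≤ w b ∧ w d ≤ w c then w a * w b * w c * w d else 0)
      ≤ ∑ a ∈ T, ∑ b ∈ T, ∑ c ∈ T,
        (if (w c ≤ w b ∧ ∃ d ∈ T, Rel k a b c d) then w a ^ 2 * (w c ^ 2 * B) else 0) :=
        sum_le_sum fun a ha => sum_le_sum fun b hb => sum_le_sum fun c hc => step1 a ha b hb c hc
    _ = ∑ a ∈ T, w a ^ 2 * (B * ∑ c ∈ T, w c ^ 2 *
        ((T.filter fun b => w c ≤ w b ∧ ∃ d ∈ T, Rel k a b c d).card : ℝ)) := by
        refine sum_congr rfl fun a _ => ?_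
        rw [sum_comm, mul_sum, mul_sum]
        refine sum_congr rfl fun c _ => ?_
        rw [← sum_filter, sum_const, nsmul_eq_mul]
        ring
    _ ≤ ∑ a ∈ T, w a ^ 2 * (B * (C * ∑ c ∈ T, w c ^ 2)) := by
        refine sum_le_sum fun a ha => ?_
        have := inner_layer k T C a (htg a ha) w hw
        gcongr
    _ = B * C * (∑ i ∈ T, w i ^ 2) ^ 2 := by
        rw [← sum_mul]
        ring

end Pool.Agent.Lib.MP_938ce2_ag_rr
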