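import Mathlib
import Pool.Agent.Lib.MP_938ce2_ag_rr.RD

/-!
Row W2 (80 lines). Sorting: the whole sum is at most `24` times the sorted part.

RECIPE. Work with `x : Fin 4 → ι`, `x ∈ Fintype.piFinset fun _ => T`, `f x = if Rel k (x 0) (x 1) (x 2) (x 3) then w (x 0) * w (x 1) * w (x 2) * w (x 3) else 0`. It is
invariant under `x ↦ x ∘ σ`, `σ : Equiv.Perm (Fin 4)` (prove the two facts for `Rel` with the definition: every `k (x i)` contains the intersection of the other
three; the product is `∏ i, w (x i)`). For every `x` there is `σ` with `w ∘ x ∘ σ` antitone (`Tuple.sort` and `Fin.rev`), so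
`f x ≤ ∑ σ, (if Antitone (w ∘ x ∘ σ) then f (x ∘ σ) else 0)`; exchange the sums, reindex `x ∘ σ` by `x`; there are `24` permutations. Finally rewrite the sums over
`Fintype.piFinset` as four-fold sums (e.g. by `Finset.sum_nbij'` to `T ×ˢ T ×ˢ T ×ˢ T` with `![a, b, c, d]`, then `Finset.sum_product`).
-/

set_option autoImplicit false
set_option linter.unusedSectionVars false

namespace Pool.Agent.Lib.MP_938ce2_ag_rr

open Finset

private theorem rel_iff {ι G : Type} [Group G] (k : ι → Subgroup G) (x : Fin 4 → ι) :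
    Rel k (x 0) (x 1) (x 2) (x 3) ↔
      ∀ i, ∀ g, (∀ j, j ≠ i → g ∈ k (x j)) → g ∈ k (x i) := by
  constructor
  · rintro ⟨h0, h1, h2, h3⟩ i g hg
    fin_cases i
    · exact h0 (Subgroup.mem_inf.2 ⟨Subgroup.mem_inf.2 ⟨hg 1 (by decide), hg 2 (by decide)⟩,
        hg 3 (by decide)⟩)
    · exact h1 (Subgroup.mem_inf.2 ⟨Subgroup.mem_inf.2 ⟨hg 0 (by decide), hg 2 (by decide)⟩,
        hg 3 (by decide)⟩)
    · exact h2 (Subgroup.mem_inf.2 ⟨Subgroup.mem_inf.2 ⟨hg 0 (by decide), hg 1 (by decide)⟩,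
        hg 3 (by decide)⟩)
    · exact h3 (Subgroup.mem_inf.2 ⟨Subgroup.mem_inf.2 ⟨hg 0 (by decide), hg 1 (by decide)⟩,
        hg 2 (by decide)⟩)
  · intro h
    refine ⟨fun g hg => h 0 g fun j hj => ?_, fun g hg => h 1 g fun j hj => ?_,
      fun g hg => h 2 g fun j hj => ?_, fun g hg => h 3 g fun j hj => ?_⟩ <;>
    · rw [Subgroup.mem_inf, Subgroup.mem_inf] at hg
      obtain ⟨⟨ha, hb⟩, hc⟩ := hg
      fin_cases j
      all_goals first
        | exact absurd rfl hj
        | exact ha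
        | exact hb
        | exact hc

private theorem rel_perm {ι G : Type} [Group G] (k : ι → Subgroup G) (x : Fin 4 → ι)
    (s : Equiv.Perm (Fin 4)) (h : Rel k (x 0) (x 1) (x 2) (x 3)) :
    Rel k (x (s 0)) (x (s 1)) (x (s 2)) (x (s 3)) := by
  rw [rel_iff] at h
  have h2 := (rel_iff k (fun i => x (s i))).2 (fun i g hg => h (s i) g fun j hj => by
    have h3 := hg (s.symm j) (by
      intro e
      apply hj
      rw [← e, Equiv.apply_symm_apply])
    simpa using h3)
  exact h2

open Classical in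
/-- the summand -/
private noncomputable def qq {ι G : Type} [Group G] (k : ι → Subgroup G) (w : ι → ℝ)
    (x : Fin 4 → ι) : ℝ :=
  if Rel k (x 0) (x 1) (x 2) (x 3) then w (x 0) * w (x 1) * w (x 2) * w (x 3) else 0

private theorem qq_nonneg {ι G : Type} [Group G] (k : ι → Subgroup G) (w : ι → ℝ)
    (hw : ∀ i, 0 ≤ w i) (x : Fin 4 → ι) : 0 ≤ qq k w x := by
  unfold qq
  split_ifs
  · exact mul_nonneg (mul_nonneg (mul_nonneg (hw _) (hw _)) (hw _)) (hw _)
  · exact le_rfl

private theorem qq_perm {ι G : Type} [Group G] (k : ι → Subgroup G) (w : ι → ℝ)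
    (x : Fin 4 → ι) (s : Equiv.Perm (Fin 4)) : qq k w (fun i => x (s i)) = qq k w x := by
  have hp : w (x (s 0)) * w (x (s 1)) * w (x (s 2)) * w (x (s 3)) =
      w (x 0) * w (x 1) * w (x 2) * w (x 3) := by
    have e1 := Equiv.prod_comp s fun i => w (x i)
    rw [Fin.prod_univ_four, Fin.prod_univ_four] at e1
    exact e1
  unfold qq
  by_cases h : Rel k (x 0) (x 1) (x 2) (x 3)
  · rw [if_pos (rel_perm k x s h), if_pos h, hp]
  · rw [if_neg h, if_neg]
    intro h2
    apply h
    have h3 := rel_perm k (fun i => x (s i)) s.symm h2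
    simpa using h3

open Classical in
private theorem four_sum {ι : Type} (T : Finset ι) (F : ι → ι → ι → ι → ℝ) :
    ∑ a ∈ T, ∑ b ∈ T, ∑ c ∈ T, ∑ d ∈ T, F a b c d =
      ∑ x ∈ Fintype.piFinset fun _ : Fin 4 => T, F (x 0) (x 1) (x 2) (x 3) := by
  have h1 : ∑ a ∈ T, ∑ b ∈ T, ∑ c ∈ T, ∑ d ∈ T, F a b c d =
      ∑ p ∈ T ×ˢ (T ×ˢ (T ×ˢ T)), F p.1 p.2.1 p.2.2.1 p.2.2.2 := by
    simp only [Finset.sum_product]
  rw [h1]
  refine Finset.sum_nbij' (fun p => ![p.1, p.2.1, p.2.2.1, p.2.2.2])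
    (fun x => (x 0, x 1, x 2, x 3)) ?_ ?_ ?_ ?_ ?_
  · intro p hp
    simp only [Finset.mem_product] at hp
    rw [Fintype.mem_piFinset]
    intro i
    fin_cases i
    · exact hp.1
    · exact hp.2.1
    · exact hp.2.2.1
    · exact hp.2.2.2
  · intro x hx
    rw [Fintype.mem_piFinset] at hx
    simp only [Finset.mem_product]
    exact ⟨hx 0, hx 1, hx 2, hx 3⟩
  · intro p _
    rfl
  · intro x _
    funext i
    fin_cases i <;> rfl
  · intro p _
    rfl

open Classical in
theorem sort_sum {ι G : Type} [Fintype ι] [Group G] (k : ι → Subgroup G) (T : Finset ι)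
    (w : ι → ℝ) (hw : ∀ i, 0 ≤ w i) :
    ∑ a ∈ T, ∑ b ∈ T, ∑ c ∈ T, ∑ d ∈ T, (if Rel k a b c d then w a * w b * w c * w d else 0)
      ≤ 24 * ∑ a ∈ T, ∑ b ∈ T, ∑ c ∈ T, ∑ d ∈ T,
      (if Rel k a b c d ∧ w b ≤ w a ∧ w c ≤ w b ∧ w d ≤ w c then w a * w b * w c * w d else 0) := by
  have e1 := four_sum T (fun a b c d => if Rel k a b c d then w a * w b * w c * w d else 0)
  have e2 := four_sum T (fun a b c d => if Rel k a b c d ∧ w b ≤ w a ∧ w c ≤ w b ∧ w d ≤ w c then
    w a * w b * w c * w d else 0)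
  rw [e1, e2]
  set P := Fintype.piFinset fun _ : Fin 4 => T with hP
  -- the antitone part
  set A : (Fin 4 → ι) → ℝ := fun x => if Antitone (fun i => w (x i)) then qq k w x else 0 with hA
  have hA0 : ∀ x, 0 ≤ A x := by
    intro x
    simp only [hA]
    split_ifs
    · exact qq_nonneg k w hw x
    · exact le_rfl
  have hstep : ∀ x, qq k w x ≤ ∑ s : Equiv.Perm (Fin 4), A (fun i => x (s i)) := by
    intro x
    set f : Fin 4 → ℝ := fun i => - w (x i) with hf
    have hm := Tuple.monotone_sort f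
    have hanti : Antitone (fun i => w (x (Tuple.sort f i))) := by
      intro i j hij
      have := hm hij
      simp only [Function.comp, hf] at this
      linarith
    have h1 : A (fun i => x (Tuple.sort f i)) = qq k w x := by
      simp only [hA]
      rw [if_pos hanti, qq_perm]
    rw [← h1]
    exact Finset.single_le_sum (f := fun s : Equiv.Perm (Fin 4) => A (fun i => x (s i)))
      (fun s _ => hA0 _) (Finset.mem_univ (Tuple.sort f))
  have hreidx : ∀ s : Equiv.Perm (Fin 4), ∑ x ∈ P, A (fun i => x (s i)) = ∑ x ∈ P, A x := by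
    intro s
    refine Finset.sum_nbij' (fun x i => x (s i)) (fun x i => x (s.symm i)) ?_ ?_ ?_ ?_ ?_
    · intro x hx
      rw [hP, Fintype.mem_piFinset] at hx ⊢
      exact fun i => hx _
    · intro x hx
      rw [hP, Fintype.mem_piFinset] at hx ⊢
      exact fun i => hx _
    · intro x _
      funext i
      simp
    · intro x _
      funext i
      simp
    · intro x _
      rfl
  have hAle : ∀ x, A x ≤ if Rel k (x 0) (x 1) (x 2) (x 3) ∧ w (x 1) ≤ w (x 0) ∧
      w (x 2) ≤ w (x 1) ∧ w (x 3) ≤ w (x 2) then w (x 0) * w (x 1) * w (x 2) * w (x 3) else 0 := by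
    intro x
    have hpos : 0 ≤ w (x 0) * w (x 1) * w (x 2) * w (x 3) :=
      mul_nonneg (mul_nonneg (mul_nonneg (hw _) (hw _)) (hw _)) (hw _)
    simp only [hA]
    by_cases ha : Antitone (fun i => w (x i))
    · rw [if_pos ha]
      unfold qq
      by_cases hr : Rel k (x 0) (x 1) (x 2) (x 3)
      · rw [if_pos hr, if_pos]
        refine ⟨hr, ha (by decide), ha (by decide), ha (by decide)⟩
      · rw [if_neg hr]
        split_ifs
        · exact hpos
        · exact le_rfl
    · rw [if_neg ha]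
      split_ifs
      · exact hpos
      · exact le_rfl
  calc ∑ x ∈ P, (if Rel k (x 0) (x 1) (x 2) (x 3) then w (x 0) * w (x 1) * w (x 2) * w (x 3)
        else 0) = ∑ x ∈ P, qq k w x := rfl
    _ ≤ ∑ x ∈ P, ∑ s : Equiv.Perm (Fin 4), A (fun i => x (s i)) :=
        Finset.sum_le_sum fun x _ => hstep x
    _ = ∑ s : Equiv.Perm (Fin 4), ∑ x ∈ P, A (fun i => x (s i)) := Finset.sum_comm
    _ = ∑ s : Equiv.Perm (Fin 4), ∑ x ∈ P, A x := Finset.sum_congr rfl fun s _ => hreidx s
    _ = 24 * ∑ x ∈ P, A x := by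
        rw [Finset.sum_const, Finset.card_univ, Fintype.card_perm, Fintype.card_fin, nsmul_eq_mul]
        norm_num [Nat.factorial]
    _ ≤ _ := by
        refine mul_le_mul_of_nonneg_left (Finset.sum_le_sum fun x _ => hAle x) (by norm_num)

end Pool.Agent.Lib.MP_938ce2_ag_rr
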