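import Mathlib
import Pool.Agent.Lib.MP_938ce2_ag_rr.RA
import Pool.Agent.Lib.MP_938ce2_ag_rr.RB
import Pool.Agent.Lib.MP_938ce2_ag_rr.IO
import Pool.Agent.Lib.MP_938ce2_ag_rr.FM
import Pool.Agent.Lib.MP_938ce2_ag_rr.CT
import Pool.Agent.Lib.MP_938ce2_ag_rr.W1
import Pool.Agent.Lib.MP_938ce2_ag_rr.W2

/-!
Row RC (130 lines). Theorem R: the fourth moments of the functions in `Rest`.

RECIPE. `κ = {i // dM (S i) = 2}`, `S' i = S i.1`, `k i = kerM (S' i)`, `T = {i : κ | Φ ∈ badC c (S' i)}`. `rest_decomp` gives `f = ∑ i ∈ T, F i` (transfer the sum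
to the subtype). Apply `fourth` to `f' i x = if i ∈ T then (F i x : ℝ) else 0`: `kerM_normal`, `VI_inv`, `VI_avg`, `orth_VI` (with `hinj`), `VI_sup`; `hW` with
`B = 24 * 531441 * (3 * 10^11)`: `sort_sum`, `sorted_sum` with `B = 531441` (`Rel k a b c d` implies `k a ⊓ k b ⊓ k c ≤ k d`; `three_card`), `htg`.
`16 * 24 * 531441 * 3 * 10^11 ≤ 10^20`.
-/

set_option autoImplicit false
set_option linter.unusedSectionVars false

namespace Pool.Agent.Lib.MP_938ce2_ag_rr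

open Finset Module MonoidAlgebra
open Pool.Agent.Lib.MP_938ce2_ag_h67 (sg VV ev mkV kerM mem_kerM ev_ext ev_single ev_add ev_smul)
open Pool.Agent.Lib.MP_938ce2_ag_h60 (CMType)
open Pool.Agent.Lib.MP_938ce2_ag_u2 (Act OddM badC mem_badC dM dE dH)
open Pool.Agent.Lib.MP_938ce2_ag_sub (Rest ZZ Quad mem_ZZ)

open Classical in
private theorem rc_weights {κ G : Type} [Fintype κ] [Group G] (k : κ → Subgroup G) (T : Finset κ)
    (hthree : ∀ a b c : κ, (Finset.univ.filter fun d => k a ⊓ k b ⊓ k c ≤ k d).card ≤ 531441)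
    (htg : ∀ (a : κ) (F : Finset κ), F ⊆ T →
      ((F ×ˢ F).filter fun p => ∃ d ∈ T, Rel k a p.1 p.2 d).card ≤ 3 * 10 ^ 11 * F.card)
    (w : κ → ℝ) (hw : ∀ i, 0 ≤ w i) :
    ∑ a ∈ T, ∑ b ∈ T, ∑ c ∈ T, ∑ d ∈ T, (if Rel k a b c d then w a * w b * w c * w d else 0)
      ≤ (24 * (531441 * (3 * 10 ^ 11))) * (∑ i ∈ T, w i ^ 2) ^ 2 := by
  have h1 := sort_sum k T w hw
  have h3 : ∀ a ∈ T, ∀ b ∈ T, ∀ c ∈ T, (T.filter fun d => Rel k a b c d).card ≤ 531441 := by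
    intro a _ b _ c _
    refine le_trans (Finset.card_le_card ?_) (hthree a b c)
    intro d hd
    rw [Finset.mem_filter] at hd ⊢
    exact ⟨Finset.mem_univ _, hd.2.2.2.2⟩
  have h2 := sorted_sum k T 531441 (3 * 10 ^ 11) h3 (fun a _ F hF => htg a F hF) w hw
  refine le_trans h1 ?_
  have h7 := mul_le_mul_of_nonneg_left h2 (by norm_num : (0 : ℝ) ≤ 24)
  refine le_trans h7 (le_of_eq ?_)
  push_cast
  ring

open Classical in
theorem rest_fourth {G X : Type} [Group G] [Fintype G] [MulAction G X] [Fintype X]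
    [DecidableEq X] [MulAction.IsPretransitive G X] {c : G} {g : ℕ} (hA : Act G X c g) (x₀ : X)
    (Φ : Finset X) (hΦ : CMType c Φ) (ι : Type) [Fintype ι]
    (S : ι → Submodule (MonoidAlgebra ℚ G) (VV ℚ G X))
    (hS : ∀ i, IsSimpleModule (MonoidAlgebra ℚ G) (S i))
    (hall : ∀ M : Submodule (MonoidAlgebra ℚ G) (VV ℚ G X), IsSimpleModule (MonoidAlgebra ℚ G) M →
        OddM c M → ∃ i, Nonempty (M ≃ₗ[MonoidAlgebra ℚ G] S i))
    (hinj : ∀ i j, Nonempty (S i ≃ₗ[MonoidAlgebra ℚ G] S j) → i = j)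
    (h3 : ∀ i, 3 ≤ dM (S i) → Φ ∉ badC c (S i))
    (htg : ∀ (a : {i : ι // dM (S i) = 2}) (F : Finset {i : ι // dM (S i) = 2}),
      F ⊆ (Finset.univ.filter fun i : {i : ι // dM (S i) = 2} => Φ ∈ badC c (S i.1)) →
        ((F ×ˢ F).filter fun p =>
          ∃ d ∈ Finset.univ.filter (fun i : {i : ι // dM (S i) = 2} => Φ ∈ badC c (S i.1)),
            Rel (fun i : {i : ι // dM (S i) = 2} => kerM (S i.1)) a p.1 p.2 d).card
          ≤ 3 * 10 ^ 11 * F.card)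
    (f : X → ℚ) (hf : f ∈ Rest G c x₀ Φ) :
    (Fintype.card X : ℝ) * ∑ x, (f x : ℝ) ^ 4 ≤ 10 ^ 20 * (∑ x, (f x : ℝ) ^ 2) ^ 2 := by
  obtain ⟨F, hF, hsum⟩ := rest_decomp hA x₀ Φ hΦ ι S hall h3 f hf
  obtain ⟨k, hk⟩ : ∃ k : {i : ι // dM (S i) = 2} → Subgroup G,
      k = fun i : {i : ι // dM (S i) = 2} => kerM (S i.1) := ⟨_, rfl⟩
  obtain ⟨T, hT⟩ : ∃ T : Finset {i : ι // dM (S i) = 2},
      T = Finset.univ.filter fun i : {i : ι // dM (S i) = 2} => Φ ∈ badC c (S i.1) := ⟨_, rfl⟩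
  rw [← hk, ← hT] at htg
  have hne : Nonempty X := ⟨x₀⟩
  have hthree : ∀ a b c : {i : ι // dM (S i) = 2},
      (Finset.univ.filter fun d => k a ⊓ k b ⊓ k c ≤ k d).card ≤ 531441 := by
    intro a b d
    rw [hk]
    exact three_card (fun i : {i : ι // dM (S i) = 2} => S i.1) (fun i => hS i.1)
      (fun i j hij => Subtype.ext (hinj i.1 j.1 hij)) (fun i => i.2) a b d
  obtain ⟨f', hf'⟩ : ∃ f' : {i : ι // dM (S i) = 2} → X → ℝ,
      f' = fun i x => ((F i.1 x : ℚ) : ℝ) := ⟨_, rfl⟩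
  have hfx : ∀ x, (f x : ℝ) = ∑ i ∈ T, f' i x := by
    intro x
    have h4 : Finset.univ.filter (fun i => dM (S i) = 2 ∧ Φ ∈ badC c (S i))
        = T.map (Function.Embedding.subtype fun i => dM (S i) = 2) := by
      ext i
      rw [Finset.mem_filter, Finset.mem_map]
      constructor
      · rintro ⟨_, h5, h6⟩
        refine ⟨⟨i, h5⟩, ?_, rfl⟩
        rw [hT, Finset.mem_filter]
        exact ⟨Finset.mem_univ _, h6⟩
      · rintro ⟨j, hj, rfl⟩
        rw [hT, Finset.mem_filter] at hj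
        exact ⟨Finset.mem_univ _, j.2, hj.2⟩
    rw [hsum x, h4, Finset.sum_map, hf']
    push_cast
    rfl
  have hmain := fourth k (fun i => by rw [hk]; exact kerM_normal (S i.1)) f'
    (by
      intro i σ hσ x
      rw [hk] at hσ
      have h4 := VI_inv (S i.1) (mkV G (F i.1)) (hF i.1) σ hσ x
      have h5 : F i.1 (σ • x) = F i.1 x := h4
      rw [hf']
      show ((F i.1 (σ • x) : ℚ) : ℝ) = ((F i.1 x : ℚ) : ℝ)
      rw [h5])
    (by
      intro i K hK hKM x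
      rw [hk] at hKM
      have h4 := VI_avg (S i.1) (hS i.1) (mkV G (F i.1)) (hF i.1) K hK hKM x
      have h5 : ∑ σ ∈ (Finset.univ.filter fun σ : G => σ ∈ K), F i.1 (σ • x) = 0 := h4
      rw [hf']
      show ∑ σ ∈ (Finset.univ.filter fun σ : G => σ ∈ K), ((F i.1 (σ • x) : ℚ) : ℝ) = 0
      exact_mod_cast h5)
    T
    (by
      intro i hi j hj hij
      have h4 : ¬ Nonempty (S i.1 ≃ₗ[MonoidAlgebra ℚ G] S j.1) := by
        intro h5
        exact hij (Subtype.ext (hinj i.1 j.1 h5))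
      have h5 := orth_VI (S i.1) (S j.1) (hS i.1) (hS j.1) h4 (mkV G (F i.1)) (mkV G (F j.1))
        (hF i.1) (hF j.1)
      have h6 : ∑ x, F i.1 x * F j.1 x = 0 := h5
      rw [hf']
      show ∑ x, ((F i.1 x : ℚ) : ℝ) * ((F j.1 x : ℚ) : ℝ) = 0
      exact_mod_cast h6)
    (by
      intro i hi x
      have h4 := VI_sup (S i.1) i.2 (mkV G (F i.1)) (hF i.1) x
      rw [hf']
      exact h4)
    (24 * (531441 * (3 * 10 ^ 11))) (by positivity)
    (fun w hw => rc_weights k T hthree (fun a F hF => by convert htg a F hF) w hw)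
  simp only [← hfx] at hmain
  refine le_trans hmain ?_
  have h8 : 0 ≤ (∑ x, (f x : ℝ) ^ 2) ^ 2 := sq_nonneg _
  have h9 : (16 : ℝ) * (24 * (531441 * (3 * 10 ^ 11))) ≤ 10 ^ 20 := by norm_num
  exact mul_le_mul_of_nonneg_right h9 h8

end Pool.Agent.Lib.MP_938ce2_ag_rr
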