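import Mathlib
import Pool.Agent.Lib.MP_938ce2_ag_rr.D2
import Pool.Agent.Lib.MP_938ce2_ag_sub.S10

/-!
Row SP (copy of `supp_bound` in `MP_938ce2_ag_sub/S10.lean` with changes, 200 lines). The support of a function orthogonal to all translates of a CM type.

RECIPE. Copy the proof of `supp_bound` (with its private lemmas). `h4` (formerly from `energy`) now comes from `hS` with `b U` = the coefficients:
`∑ x, f₁ x ^ 4 ≤ A * (2 g) * (∑ U ∈ Z, b U ^ 2)^2` and `∑ x, f₁ x ^ 2 = 2 g * ∑ U ∈ Z, b U ^ 2` (orthogonality, `hsq`), so `2 g * ∑ f₁^4 ≤ A * (∑ f₁^2)^2`.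
`hD2` is replaced by `hR` for `f₂ ∈ Rest`. Then `density4` instead of `density`.
-/

set_option autoImplicit false
set_option linter.unusedSectionVars false

namespace Pool.Agent.Lib.MP_938ce2_ag_rr

open Finset Module
open Pool.Agent.Lib.MP_938ce2_ag_h67 (sg)
open Pool.Agent.Lib.MP_938ce2_ag_h60 (CMType)
open Pool.Agent.Lib.MP_938ce2_ag_u2 (Act)
open Pool.Agent.Lib.MP_938ce2_ag_sub (Rest ZZ Quad mem_ZZ)

open Pool.Agent.Lib.MP_938ce2_ag_sub (mul sg_mul sg_sq sg_inj quad_mul quad_sum quad_smul)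

private lemma orth2 {G X : Type} [Group G] [MulAction G X] [Fintype X] [DecidableEq X]
    [MulAction.IsPretransitive G X] {x₀ : X} {U V : Finset X} (hU : Quad G x₀ U)
    (hV : Quad G x₀ V) (h : U ≠ V) : ∑ x, sg U x * sg V x = 0 := by
  have h1 : mul U V ≠ Finset.univ := by
    intro h2
    apply h
    apply sg_inj
    intro x
    have h3 : sg (mul U V) x = 1 := by
      rw [h2]
      unfold sg
      rw [if_pos (Finset.mem_univ x)]
    rw [sg_mul] at h3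
    have h4 := sg_sq V x
    have h5 : sg U x * (sg V x * sg V x) = sg V x := by
      rw [← mul_assoc, h3, one_mul]
    rw [h4, mul_one] at h5
    exact h5
  have h2 := quad_sum (quad_mul hU hV) h1
  simp only [sg_mul] at h2
  exact h2

private lemma sg_odd {G X : Type} [Group G] [MulAction G X] [Fintype X] [DecidableEq X] {c : G}
    {U : Finset X} (h : CMType c U) (x : X) : sg U (c • x) = - sg U x := by
  have h1 := h x
  unfold sg
  by_cases h2 : x ∈ U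
  · rw [if_neg (h1.mp h2), if_pos h2]
  · have h3 : c • x ∈ U := by
      by_contra h4
      exact h2 (h1.mpr h4)
    rw [if_pos h3, if_neg h2]
    norm_num

theorem supp4 {G X : Type} [Group G] [Fintype G] [MulAction G X] [Fintype X] [DecidableEq X]
    [MulAction.IsPretransitive G X] {c : G} {g : ℕ} (hA : Act G X c g) (x₀ : X)
    (Φ : Finset X) (hΦ : CMType c Φ) (A B : ℝ) (hA0 : 0 ≤ A) (hB0 : 0 ≤ B)
    (hS : ∀ b : Finset X → ℝ, ∑ x, (∑ U ∈ ZZ G c x₀ Φ, b U * (sg U x : ℝ)) ^ 4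
      ≤ A * (2 * g) * (∑ U ∈ ZZ G c x₀ Φ, b U ^ 2) ^ 2)
    (hR : ∀ f ∈ Rest G c x₀ Φ,
      (Fintype.card X : ℝ) * ∑ x, (f x : ℝ) ^ 4 ≤ B * (∑ x, (f x : ℝ) ^ 2) ^ 2)
    (f : X → ℤ) (hodd : ∀ x, f (c • x) = - f x)
    (hf : ∀ σ : G, ∑ x, sg Φ x * f (σ • x) = 0) (hne : ∃ x, f x ≠ 0) :
    (2 * g : ℝ) ≤ 8 * max A B * (Finset.univ.filter fun x => f x ≠ 0).card := by
  classical
  set Z := ZZ G c x₀ Φ with hZ
  have hn : (Fintype.card X : ℝ) = 2 * g := by
    rw [hA.card]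
    push_cast
    ring
  have hnQ : (0 : ℚ) < (Fintype.card X : ℚ) := by
    have h1 : 0 < Fintype.card X := by
      rw [hA.card]
      have := hA.pos
      omega
    exact_mod_cast h1
  have hzq : ∀ U ∈ Z, Quad G x₀ U := fun U hU => ((mem_ZZ G c x₀ Φ U).mp hU).1
  let b : Finset X → ℚ := fun U => (∑ x, (f x : ℚ) * (sg U x : ℚ)) / (Fintype.card X : ℚ)
  have hsq : ∀ U : Finset X, ∀ V ∈ Z, U ∈ Z →
      ∑ x, (sg U x : ℚ) * (sg V x : ℚ) = if V = U then (Fintype.card X : ℚ) else 0 := by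
    intro U V hV hU
    by_cases h : V = U
    · subst h
      rw [if_pos rfl]
      have h1 : ∀ x, (sg V x : ℚ) * (sg V x : ℚ) = 1 := by
        intro x
        have := sg_sq V x
        exact_mod_cast this
      simp only [h1]
      simp
    · rw [if_neg h]
      have h1 := orth2 (hzq U hU) (hzq V hV) (fun h2 => h h2.symm)
      exact_mod_cast h1
  let f₁ : X → ℚ := fun x => ∑ U ∈ Z, b U * (sg U x : ℚ)
  let f₂ : X → ℚ := fun x => (f x : ℚ) - f₁ x
  have hU2 : ∀ U ∈ Z, ∑ x, (sg U x : ℚ) * f₂ x = 0 := by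
    intro U hU
    have h1 : ∑ x, (sg U x : ℚ) * f₁ x = (Fintype.card X : ℚ) * b U := by
      have h2 : ∑ x, (sg U x : ℚ) * f₁ x
          = ∑ V ∈ Z, b V * ∑ x, (sg U x : ℚ) * (sg V x : ℚ) := by
        show ∑ x, (sg U x : ℚ) * (∑ V ∈ Z, b V * (sg V x : ℚ)) = _
        simp only [Finset.mul_sum]
        rw [Finset.sum_comm]
        refine Finset.sum_congr rfl fun V _ => Finset.sum_congr rfl fun x _ => ?_
        ring
      rw [h2, Finset.sum_congr rfl fun V hV => by rw [hsq U V hV hU]]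
      simp only [mul_ite, mul_zero]
      rw [Finset.sum_ite_eq' Z U, if_pos hU]
      ring
    have h3 : (Fintype.card X : ℚ) * b U = ∑ x, (sg U x : ℚ) * (f x : ℚ) := by
      show (Fintype.card X : ℚ) * ((∑ x, (f x : ℚ) * (sg U x : ℚ)) / (Fintype.card X : ℚ)) = _
      rw [mul_div_cancel₀ _ hnQ.ne']
      refine Finset.sum_congr rfl fun x _ => ?_
      ring
    have h4 : ∀ x, (sg U x : ℚ) * f₂ x = (sg U x : ℚ) * (f x : ℚ) - (sg U x : ℚ) * f₁ x := by
      intro x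
      show (sg U x : ℚ) * ((f x : ℚ) - f₁ x) = _
      ring
    simp only [h4]
    rw [Finset.sum_sub_distrib, h1, h3, sub_self]
  have hrest : f₂ ∈ Rest G c x₀ Φ := by
    refine ⟨fun x => ?_, fun σ => ?_, fun U hU => hU2 U hU⟩
    · show ((f (c • x) : ℤ) : ℚ) - ∑ U ∈ Z, b U * (sg U (c • x) : ℚ)
        = -((f x : ℚ) - ∑ U ∈ Z, b U * (sg U x : ℚ))
      rw [hodd x]
      have h1 : ∀ U ∈ Z, b U * (sg U (c • x) : ℚ) = -(b U * (sg U x : ℚ)) := by
        intro U hU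
        rw [sg_odd ((mem_ZZ G c x₀ Φ U).mp hU).2.1 x]
        push_cast
        ring
      rw [Finset.sum_congr rfl h1, Finset.sum_neg_distrib]
      push_cast
      ring
    · show ∑ x, (sg Φ x : ℚ) * (((f (σ • x) : ℤ) : ℚ) - ∑ U ∈ Z, b U * (sg U (σ • x) : ℚ)) = 0
      have h1 : ∑ x, (sg Φ x : ℚ) * ((f (σ • x) : ℤ) : ℚ) = 0 := by
        have := hf σ
        exact_mod_cast this
      have h2 : ∑ x, (sg Φ x : ℚ) * (∑ U ∈ Z, b U * (sg U (σ • x) : ℚ)) = 0 := by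
        simp only [Finset.mul_sum]
        rw [Finset.sum_comm]
        refine Finset.sum_eq_zero fun U hU => ?_
        have hm := (mem_ZZ G c x₀ Φ U).mp hU
        have h3 : ∀ x, (sg Φ x : ℚ) * (b U * (sg U (σ • x) : ℚ))
            = b U * (sg U (σ • x₀) : ℚ) * ((sg Φ x : ℚ) * (sg U x : ℚ)) := by
          intro x
          rw [quad_smul hm.1 σ x]
          push_cast
          ring
        simp only [h3]
        rw [← Finset.mul_sum]
        have h4 : ∑ x, (sg Φ x : ℚ) * (sg U x : ℚ) = 0 := by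
          have := hm.2.2
          exact_mod_cast this
        rw [h4, mul_zero]
      simp only [mul_sub]
      rw [Finset.sum_sub_distrib, h1, h2, sub_zero]
  -- the real functions
  have ho : ∑ x, ((f₁ x : ℚ) : ℝ) * ((f₂ x : ℚ) : ℝ) = 0 := by
    have h1 : ∑ x, f₁ x * f₂ x = 0 := by
      have h2 : ∀ x, f₁ x * f₂ x = ∑ U ∈ Z, b U * ((sg U x : ℚ) * f₂ x) := by
        intro x
        show (∑ U ∈ Z, b U * (sg U x : ℚ)) * f₂ x = _
        rw [Finset.sum_mul]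
        refine Finset.sum_congr rfl fun U _ => ?_
        ring
      simp only [h2]
      rw [Finset.sum_comm]
      refine Finset.sum_eq_zero fun U hU => ?_
      rw [← Finset.mul_sum, hU2 U hU, mul_zero]
    exact_mod_cast h1
  have h2' : ∀ x, ((f₁ x : ℚ) : ℝ) = ∑ U ∈ Z, ((b U : ℚ) : ℝ) * (sg U x : ℝ) := by
    intro x
    show ((∑ U ∈ Z, b U * (sg U x : ℚ) : ℚ) : ℝ) = _
    push_cast
    rfl
  have hsum2 : ∑ x, ((f₁ x : ℚ) : ℝ) ^ 2 = (2 * g : ℝ) * ∑ U ∈ Z, ((b U : ℚ) : ℝ) ^ 2 := by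
    have h1 : ∑ x, f₁ x ^ 2 = (Fintype.card X : ℚ) * ∑ U ∈ Z, b U ^ 2 := by
      have h5 : ∀ x, f₁ x ^ 2 = ∑ U ∈ Z, ∑ V ∈ Z, b U * b V * ((sg U x : ℚ) * (sg V x : ℚ)) := by
        intro x
        show (∑ U ∈ Z, b U * (sg U x : ℚ)) ^ 2 = _
        rw [sq, Finset.sum_mul_sum]
        refine Finset.sum_congr rfl fun U _ => Finset.sum_congr rfl fun V _ => ?_
        ring
      simp only [h5]
      rw [Finset.sum_comm, Finset.mul_sum]
      refine Finset.sum_congr rfl fun U hU => ?_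
      rw [Finset.sum_comm]
      have h6 : ∀ V ∈ Z, ∑ x, b U * b V * ((sg U x : ℚ) * (sg V x : ℚ))
          = if V = U then b U * b V * (Fintype.card X : ℚ) else 0 := by
        intro V hV
        rw [← Finset.mul_sum, hsq U V hV hU]
        simp only [mul_ite, mul_zero]
      rw [Finset.sum_congr rfl h6, Finset.sum_ite_eq' Z U, if_pos hU]
      ring
    have h7 : (∑ x, ((f₁ x : ℚ) : ℝ) ^ 2) = ((∑ x, f₁ x ^ 2 : ℚ) : ℝ) := by
      push_cast
      rfl
    rw [h7, h1, ← hn]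
    push_cast
    rfl
  have h4 : (Fintype.card X : ℝ) * ∑ x, ((f₁ x : ℚ) : ℝ) ^ 4
      ≤ A * (∑ x, ((f₁ x : ℚ) : ℝ) ^ 2) ^ 2 := by
    have h1 := hS (fun U => ((b U : ℚ) : ℝ))
    have h3 : ∑ x, ((f₁ x : ℚ) : ℝ) ^ 4
        = ∑ x, (∑ U ∈ ZZ G c x₀ Φ, ((b U : ℚ) : ℝ) * (sg U x : ℝ)) ^ 4 := by
      refine Finset.sum_congr rfl fun x _ => ?_
      rw [h2' x]
    have hg0 : (0 : ℝ) ≤ 2 * g := by positivity
    rw [hsum2, h3, hn]
    calc (2 * g : ℝ) * ∑ x, (∑ U ∈ ZZ G c x₀ Φ, ((b U : ℚ) : ℝ) * (sg U x : ℝ)) ^ 4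
        ≤ (2 * g : ℝ) * (A * (2 * g) * (∑ U ∈ ZZ G c x₀ Φ, ((b U : ℚ) : ℝ) ^ 2) ^ 2) :=
          mul_le_mul_of_nonneg_left h1 hg0
      _ = A * ((2 * g : ℝ) * ∑ U ∈ Z, ((b U : ℚ) : ℝ) ^ 2) ^ 2 := by
          rw [hZ]
          ring
  have hfin := density4 (fun x => ((f x : ℤ) : ℝ)) (fun x => ((f₁ x : ℚ) : ℝ))
    (fun x => ((f₂ x : ℚ) : ℝ))
    (fun x => by
      show ((f x : ℤ) : ℝ) = ((f₁ x : ℚ) : ℝ) + (((f x : ℚ) - f₁ x : ℚ) : ℝ)
      push_cast
      ring) ho A B hA0 hB0 h4 (hR f₂ hrest)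
    (by
      obtain ⟨x, hx⟩ := hne
      exact ⟨x, by exact_mod_cast hx⟩)
  rw [hn] at hfin
  have hcard : (Finset.univ.filter fun x => ((f x : ℤ) : ℝ) ≠ 0)
      = Finset.univ.filter fun x => f x ≠ 0 := by
    ext x
    simp
  rw [hcard] at hfin
  exact hfin

end Pool.Agent.Lib.MP_938ce2_ag_rr
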