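import Mathlib

/-!
Row M1 (50 lines). A graph with many edges contains a nonempty subgraph of large minimal degree.

RECIPE. Among the `F' ⊆ F` with `C * F'.card < e F'` (`e F' = ((F' ×ˢ F').filter fun p => E p.1 p.2).card`) take one with minimal cardinality
(`Finset.exists_min_image` on `F.powerset.filter _`, nonempty since `F` is in it). It is nonempty because `e ∅ = 0`. For `b ∈ F'` the set `F'.erase b` does not
satisfy the inequality, and `e F' = e (F'.erase b) + 2 * (F'.filter fun c => E b c).card` (`E` symmetric and irreflexive; `≤` is enough), so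
`2 deg b ≥ e F' - C (F'.card - 1) > C`.
-/

set_option autoImplicit false

namespace Pool.Agent.Lib.MP_938ce2_ag_rr

open Finset

open Classical in
theorem min_degree {ι : Type} (F : Finset ι) (E : ι → ι → Prop) (hs : ∀ b c, E b c → E c b)
    (hi : ∀ b, ¬ E b b) (C : ℕ)
    (h : C * F.card < ((F ×ˢ F).filter fun p => E p.1 p.2).card) :
    ∃ F' ⊆ F, F'.Nonempty ∧ ∀ b ∈ F', C < 2 * (F'.filter fun c => E b c).card := by
  have hmem : F ∈ F.powerset.filter (fun F' => C * F'.card < ((F' ×ˢ F').filter fun p => E p.1 p.2).card) := by
    rw [Finset.mem_filter]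
    exact ⟨Finset.mem_powerset_self F, h⟩
  obtain ⟨F', hF', hmin⟩ := Finset.exists_min_image
    (F.powerset.filter (fun F' => C * F'.card < ((F' ×ˢ F').filter fun p => E p.1 p.2).card))
    (fun F' => F'.card) ⟨F, hmem⟩
  rw [Finset.mem_filter, Finset.mem_powerset] at hF'
  obtain ⟨hsub, hlt⟩ := hF'
  refine ⟨F', hsub, ?_, ?_⟩
  · rw [Finset.nonempty_iff_ne_empty]
    rintro rfl
    simp at hlt
  · intro b hb
    by_contra hcon
    push Not at hcon
    have hcard : (F'.erase b).card + 1 = F'.card := Finset.card_erase_add_one hb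
    have h1 : ((F'.erase b ×ˢ F'.erase b).filter fun p => E p.1 p.2).card ≤ C * (F'.erase b).card := by
      by_contra h2
      push Not at h2
      have := hmin (F'.erase b) (by
        rw [Finset.mem_filter, Finset.mem_powerset]
        exact ⟨(Finset.erase_subset b F').trans hsub, h2⟩)
      omega
    have h3 : ((F' ×ˢ F').filter fun p => E p.1 p.2) ⊆
        (((F'.erase b ×ˢ F'.erase b).filter fun p => E p.1 p.2) ∪
          (F'.filter fun c => E b c).image (fun c => (b, c))) ∪
          (F'.filter fun c => E b c).image (fun c => (c, b)) := by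
      rintro ⟨x, y⟩ hxy
      simp only [Finset.mem_filter, Finset.mem_product] at hxy
      obtain ⟨⟨hx, hy⟩, hE⟩ := hxy
      simp only [Finset.mem_union, Finset.mem_filter, Finset.mem_product, Finset.mem_erase,
        Finset.mem_image, Prod.mk.injEq]
      by_cases hxb : x = b
      · left; right
        exact ⟨y, ⟨hy, hxb ▸ hE⟩, hxb.symm, rfl⟩
      · by_cases hyb : y = b
        · right
          exact ⟨x, ⟨hx, hs _ _ (hyb ▸ hE)⟩, rfl, hyb.symm⟩
        · left; left
          exact ⟨⟨⟨hxb, hx⟩, ⟨hyb, hy⟩⟩, hE⟩
    have h4 := Finset.card_le_card h3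
    have h5 := Finset.card_union_le (((F'.erase b ×ˢ F'.erase b).filter fun p => E p.1 p.2) ∪
          (F'.filter fun c => E b c).image (fun c => (b, c)))
          ((F'.filter fun c => E b c).image (fun c => (c, b)))
    have h6 := Finset.card_union_le ((F'.erase b ×ˢ F'.erase b).filter fun p => E p.1 p.2)
          ((F'.filter fun c => E b c).image (fun c => (b, c)))
    have h7 : ((F'.filter fun c => E b c).image (fun c => (b, c))).card ≤ (F'.filter fun c => E b c).card :=
      Finset.card_image_le
    have h8 : ((F'.filter fun c => E b c).image (fun c => (c, b))).card ≤ (F'.filter fun c => E b c).card :=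
      Finset.card_image_le
    have h9 : C * F'.card = C * (F'.erase b).card + C := by rw [← hcard]; ring
    omega

end Pool.Agent.Lib.MP_938ce2_ag_rr
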