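import Mathlib

/-!
Row M2 (60 lines). Greedy choice of disjoint pairs `{c, d c}`.

RECIPE. Strong induction on `N.card`. If `N` is empty take `∅`. Otherwise take `c ∈ N` and remove from `N` the elements `c' = c`, `c' = d c`, `d c' = c`,
`d c' = d c`: at most `1 + 1 + L + L` of them. Apply the induction to the rest and insert `c`.
-/

set_option autoImplicit false

namespace Pool.Agent.Lib.MP_938ce2_ag_rr

open Finset

open Classical in
theorem disjoint_pairs {ι : Type} (N : Finset ι) (d : ι → ι) (L : ℕ)
    (hL : ∀ u, (N.filter fun c => d c = u).card ≤ L) :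
    ∃ N' ⊆ N, N.card ≤ (2 * L + 2) * N'.card ∧
      ∀ c ∈ N', ∀ c' ∈ N', c ≠ c' → d c ≠ c' ∧ c ≠ d c' ∧ d c ≠ d c' := by
  classical
  induction N using Finset.strongInduction with
  | H N ih =>
    rcases N.eq_empty_or_nonempty with rfl | ⟨c, hc⟩
    · exact ⟨∅, Subset.refl _, by simp, by simp⟩
    · set R : Finset ι := N.filter fun c' => c' = c ∨ c' = d c ∨ d c' = c ∨ d c' = d c with hR
      have hcR : c ∈ R := mem_filter.2 ⟨hc, Or.inl rfl⟩
      have hRcard : R.card ≤ 2 * L + 2 := by
        have h1 : R ⊆ ({c} ∪ {d c}) ∪ ((N.filter fun c' => d c' = c) ∪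
            (N.filter fun c' => d c' = d c)) := by
          intro c' hc'
          rw [hR, mem_filter] at hc'
          simp only [mem_union, mem_singleton, mem_filter]
          tauto
        have h2 := hL c
        have h3 := hL (d c)
        have h4 := card_le_card h1
        have h5 := card_union_le ({c} ∪ {d c}) ((N.filter fun c' => d c' = c) ∪
            (N.filter fun c' => d c' = d c))
        have h6 := card_union_le (N.filter fun c' => d c' = c) (N.filter fun c' => d c' = d c)
        have h7 : (({c} : Finset ι) ∪ {d c}).card ≤ 2 := by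
          refine (card_union_le _ _).trans ?_
          simp
        omega
      have hlt : N \ R ⊂ N := by
        refine ssubset_of_subset_of_ne sdiff_subset fun h => ?_
        have : c ∈ N \ R := by rw [h]; exact hc
        exact (mem_sdiff.1 this).2 hcR
      obtain ⟨N1, hN1, hcard, hgood⟩ := ih (N \ R) hlt fun u =>
        (card_le_card (filter_subset_filter _ sdiff_subset)).trans (hL u)
      have hc1 : c ∉ N1 := fun h => (mem_sdiff.1 (hN1 h)).2 hcR
      have hsep : ∀ c' ∈ N1, c' ≠ d c ∧ d c' ≠ c ∧ d c' ≠ d c := by
        intro c' hc'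
        have h1 := mem_sdiff.1 (hN1 hc')
        have h2 : ¬ (c' = c ∨ c' = d c ∨ d c' = c ∨ d c' = d c) := fun h =>
          h1.2 (mem_filter.2 ⟨h1.1, h⟩)
        tauto
      refine ⟨insert c N1, ?_, ?_, ?_⟩
      · intro x hx
        rcases mem_insert.1 hx with rfl | hx
        · exact hc
        · exact (mem_sdiff.1 (hN1 hx)).1
      · have h1 : N.card = (N \ R).card + R.card := by
          rw [card_sdiff_add_card_eq_card (filter_subset _ _)]
        rw [card_insert_of_notMem hc1, mul_add, mul_one]
        omega
      · intro x hx y hy hxy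
        rcases mem_insert.1 hx with hxc | hx1
        · rcases mem_insert.1 hy with hyc | hy1
          · exact absurd (hxc.trans hyc.symm) hxy
          · obtain ⟨h1, h2, h3⟩ := hsep y hy1
            rw [hxc]
            exact ⟨h1.symm, h2.symm, h3.symm⟩
        · rcases mem_insert.1 hy with hyc | hy1
          · obtain ⟨h1, h2, h3⟩ := hsep x hx1
            rw [hyc]
            exact ⟨h2, h1, h3⟩
          · exact hgood x hx1 y hy1 hxy

end Pool.Agent.Lib.MP_938ce2_ag_rr
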