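import Mathlib

/-!
Row M3. A random subset of density `1 / q` contains one of `k` disjoint pairs with probability `1 - (1 - 1/q^2)^k`.
-/

set_option autoImplicit false

namespace Pool.Agent.Lib.MP_938ce2_ag_rr

open Finset

open Classical in
private theorem m3_total {ι : Type} (U : Finset ι) (p : ℝ) :
    ∑ R ∈ U.powerset, p ^ R.card * (1 - p) ^ (U.card - R.card) = 1 := by
  rw [Finset.sum_pow_mul_eq_add_pow]
  simp

open Classical in
private theorem m3_mean {ι : Type} (U : Finset ι) (p : ℝ) :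
    ∑ R ∈ U.powerset, p ^ R.card * (1 - p) ^ (U.card - R.card) * (R.card : ℝ) = p * U.card := by
  induction U using Finset.induction_on with
  | empty => simp
  | insert a U ha ih =>
    rw [Finset.sum_powerset_insert ha, Finset.card_insert_of_notMem ha, ← Finset.sum_add_distrib]
    have h : ∀ R ∈ U.powerset, p ^ R.card * (1 - p) ^ (U.card + 1 - R.card) * (R.card : ℝ) +
        p ^ (insert a R).card * (1 - p) ^ (U.card + 1 - (insert a R).card) * ((insert a R).card : ℝ) =
        p ^ R.card * (1 - p) ^ (U.card - R.card) * (R.card : ℝ) +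
          p * (p ^ R.card * (1 - p) ^ (U.card - R.card)) := by
      intro R hR
      have hRU := Finset.mem_powerset.1 hR
      have haR : a ∉ R := fun h => ha (hRU h)
      have hc := Finset.card_le_card hRU
      rw [Finset.card_insert_of_notMem haR]
      have e1 : U.card + 1 - R.card = (U.card - R.card) + 1 := by omega
      have e2 : U.card + 1 - (R.card + 1) = U.card - R.card := by omega
      rw [e1, e2]
      push_cast
      ring
    rw [Finset.sum_congr rfl h, Finset.sum_add_distrib, ih, ← Finset.mul_sum, m3_total]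
    push_cast
    ring

open Classical in
private theorem m3_pairs {ι : Type} (d : ι → ι) (p : ℝ) (P : Finset ι) :
    ∀ U : Finset ι, P ⊆ U → (∀ c ∈ P, d c ∈ U) → (∀ c ∈ P, d c ≠ c) →
      (∀ c ∈ P, ∀ c' ∈ P, c ≠ c' → d c ≠ c' ∧ c ≠ d c' ∧ d c ≠ d c') →
      ∑ R ∈ U.powerset, p ^ R.card * (1 - p) ^ (U.card - R.card) *
        (if ∀ c ∈ P, ¬ (c ∈ R ∧ d c ∈ R) then (1 : ℝ) else 0) = (1 - p ^ 2) ^ P.card := by
  induction P using Finset.induction_on with
  | empty =>
    intro U _ _ _ _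
    simp [m3_total]
  | insert c P hc ih =>
    intro U hU hd hne hdis
    have hcU : c ∈ U := hU (Finset.mem_insert_self _ _)
    have hdU : d c ∈ U := hd c (Finset.mem_insert_self _ _)
    have hdc : d c ≠ c := hne c (Finset.mem_insert_self _ _)
    set V := (U.erase c).erase (d c) with hV
    have hcV : c ∉ insert (d c) V := by
      simp only [hV, Finset.mem_insert, Finset.mem_erase, not_or]
      exact ⟨fun h => hdc h.symm, fun h => h.2.1 rfl⟩
    have hdV : d c ∉ V := by simp [hV]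
    have hUe : U = insert c (insert (d c) V) := by
      ext x
      simp only [hV, Finset.mem_insert, Finset.mem_erase]
      constructor
      · intro hx
        by_cases h1 : x = c
        · exact Or.inl h1
        · by_cases h2 : x = d c
          · exact Or.inr (Or.inl h2)
          · exact Or.inr (Or.inr ⟨h2, h1, hx⟩)
      · rintro (h | h | h)
        · rw [h]; exact hcU
        · rw [h]; exact hdU
        · exact h.2.2
    have hPV : P ⊆ V := by
      intro x hx
      have hxU : x ∈ U := hU (Finset.mem_insert_of_mem hx)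
      have hxc : x ≠ c := fun h => hc (h ▸ hx)
      have h3 := hdis c (Finset.mem_insert_self _ _) x (Finset.mem_insert_of_mem hx) (Ne.symm hxc)
      simp only [hV, Finset.mem_erase]
      exact ⟨fun h => h3.1 h.symm, hxc, hxU⟩
    have hdPV : ∀ x ∈ P, d x ∈ V := by
      intro x hx
      have hxU : d x ∈ U := hd x (Finset.mem_insert_of_mem hx)
      have hxc : x ≠ c := fun h => hc (h ▸ hx)
      have h3 := hdis c (Finset.mem_insert_self _ _) x (Finset.mem_insert_of_mem hx) (Ne.symm hxc)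
      simp only [hV, Finset.mem_erase]
      exact ⟨fun h => h3.2.2 h.symm, fun h => h3.2.1 h.symm, hxU⟩
    have key := ih V hPV hdPV (fun x hx => hne x (Finset.mem_insert_of_mem hx))
      (fun x hx y hy => hdis x (Finset.mem_insert_of_mem hx) y (Finset.mem_insert_of_mem hy))
    have hcard : U.card = V.card + 2 := by
      rw [hUe, Finset.card_insert_of_notMem hcV, Finset.card_insert_of_notMem hdV]
    rw [hcard]
    conv_lhs => rw [hUe]
    rw [Finset.sum_powerset_insert hcV, Finset.sum_powerset_insert hdV,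
      Finset.sum_powerset_insert hdV, ← Finset.sum_add_distrib, ← Finset.sum_add_distrib,
      ← Finset.sum_add_distrib, Finset.card_insert_of_notMem hc, pow_succ, ← key, Finset.sum_mul]
    refine Finset.sum_congr rfl fun R hR => ?_
    have hRV := Finset.mem_powerset.1 hR
    have hcR : c ∉ R := fun h => hcV (Finset.mem_insert_of_mem (hRV h))
    have hdR : d c ∉ R := fun h => hdV (hRV h)
    have hcR' : c ∉ insert (d c) R := by
      simp only [Finset.mem_insert, not_or]
      exact ⟨fun h => hdc h.symm, hcR⟩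
    have hcle := Finset.card_le_card hRV
    have mem_c : ∀ x ∈ P, x ≠ c ∧ d x ≠ c ∧ x ≠ d c ∧ d x ≠ d c := by
      intro x hx
      have hxc : x ≠ c := fun h => hc (h ▸ hx)
      have h3 := hdis c (Finset.mem_insert_self _ _) x (Finset.mem_insert_of_mem hx) (Ne.symm hxc)
      exact ⟨hxc, fun h => h3.2.1 h.symm, fun h => h3.1 h.symm, fun h => h3.2.2 h.symm⟩
    have i0 : (∀ x ∈ insert c P, ¬ (x ∈ R ∧ d x ∈ R)) ↔ ∀ x ∈ P, ¬ (x ∈ R ∧ d x ∈ R) := by
      rw [Finset.forall_mem_insert]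
      exact ⟨fun h => h.2, fun h => ⟨fun h' => hcR h'.1, h⟩⟩
    have i1 : (∀ x ∈ insert c P, ¬ (x ∈ insert (d c) R ∧ d x ∈ insert (d c) R)) ↔
        ∀ x ∈ P, ¬ (x ∈ R ∧ d x ∈ R) := by
      rw [Finset.forall_mem_insert]
      constructor
      · intro h x hx h'
        exact h.2 x hx ⟨Finset.mem_insert_of_mem h'.1, Finset.mem_insert_of_mem h'.2⟩
      · intro h
        refine ⟨fun h' => hcR' h'.1, fun x hx h' => h x hx ?_⟩
        have m := mem_c x hx
        exact ⟨Finset.mem_of_mem_insert_of_ne h'.1 m.2.2.1,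
          Finset.mem_of_mem_insert_of_ne h'.2 m.2.2.2⟩
    have i2 : (∀ x ∈ insert c P, ¬ (x ∈ insert c R ∧ d x ∈ insert c R)) ↔
        ∀ x ∈ P, ¬ (x ∈ R ∧ d x ∈ R) := by
      rw [Finset.forall_mem_insert]
      constructor
      · intro h x hx h'
        exact h.2 x hx ⟨Finset.mem_insert_of_mem h'.1, Finset.mem_insert_of_mem h'.2⟩
      · intro h
        refine ⟨fun h' => ?_, fun x hx h' => h x hx ?_⟩
        · rcases Finset.mem_insert.1 h'.2 with h'' | h''
          · exact hdc h''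
          · exact hdR h''
        have m := mem_c x hx
        exact ⟨Finset.mem_of_mem_insert_of_ne h'.1 m.1,
          Finset.mem_of_mem_insert_of_ne h'.2 m.2.1⟩
    have i3 : ¬ ∀ x ∈ insert c P, ¬ (x ∈ insert c (insert (d c) R) ∧
        d x ∈ insert c (insert (d c) R)) := by
      intro h
      refine h c (Finset.mem_insert_self _ _) ⟨Finset.mem_insert_self _ _, ?_⟩
      exact Finset.mem_insert_of_mem (Finset.mem_insert_self _ _)
    rw [if_neg i3]
    simp only [i0, i1, i2]
    rw [Finset.card_insert_of_notMem hcR', Finset.card_insert_of_notMem hdR,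
      Finset.card_insert_of_notMem hcR]
    have e1 : V.card + 2 - R.card = (V.card - R.card) + 2 := by omega
    have e2 : V.card + 2 - (R.card + 1) = (V.card - R.card) + 1 := by omega
    rw [e1, e2]
    ring

open Classical in
theorem exists_sample {ι : Type} (U F : Finset ι) (q k : ℕ) (hq : 1 ≤ q) (N : ι → Finset ι)
    (d : ι → ι → ι) (hN : ∀ b ∈ F, N b ⊆ U) (hd : ∀ b ∈ F, ∀ c ∈ N b, d b c ∈ U)
    (hk : ∀ b ∈ F, k ≤ (N b).card) (hne : ∀ b ∈ F, ∀ c ∈ N b, d b c ≠ c)
    (hdis : ∀ b ∈ F, ∀ c ∈ N b, ∀ c' ∈ N b, c ≠ c' → d b c ≠ c' ∧ c ≠ d b c' ∧ d b c ≠ d b c') :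
    ∃ R ⊆ U, (R.card : ℝ) + ((F.filter fun b => ∀ c ∈ N b, ¬ (c ∈ R ∧ d b c ∈ R)).card : ℝ)
      ≤ U.card / q + F.card * (1 - 1 / (q : ℝ) ^ 2) ^ k := by
  set p : ℝ := 1 / q with hp
  have hq' : (1 : ℝ) ≤ q := by exact_mod_cast hq
  have hp0 : 0 ≤ p := by positivity
  have hp1 : p ≤ 1 := by
    rw [hp, div_le_one (by linarith)]; exact hq'
  have hp2 : (1 : ℝ) - 1 / (q : ℝ) ^ 2 = 1 - p ^ 2 := by rw [hp]; ring
  have hpp : p ^ 2 ≤ 1 := pow_le_one₀ hp0 hp1
  have hpp0 : 0 ≤ p ^ 2 := by positivity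
  rw [hp2]
  have hUq : (U.card : ℝ) / q = p * U.card := by rw [hp]; ring
  rw [hUq]
  by_contra hcon0
  have hcon : ∀ R ⊆ U, p * U.card + F.card * (1 - p ^ 2) ^ k <
      (R.card : ℝ) + ((F.filter fun b => ∀ c ∈ N b, ¬ (c ∈ R ∧ d b c ∈ R)).card : ℝ) :=
    fun R hR => not_le.1 fun h => hcon0 ⟨R, hR, h⟩
  have hw0 : ∀ R ∈ U.powerset, 0 ≤ p ^ R.card * (1 - p) ^ (U.card - R.card) := by
    intro R _
    have : 0 ≤ 1 - p := by linarith
    positivity
  have hsum1 := m3_total U p
  -- the average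
  have hav : ∑ R ∈ U.powerset, p ^ R.card * (1 - p) ^ (U.card - R.card) *
      ((R.card : ℝ) + ((F.filter fun b => ∀ c ∈ N b, ¬ (c ∈ R ∧ d b c ∈ R)).card : ℝ)) ≤
      p * U.card + F.card * (1 - p ^ 2) ^ k := by
    simp only [mul_add, Finset.sum_add_distrib]
    rw [m3_mean]
    refine add_le_add le_rfl ?_
    have e : ∀ R ∈ U.powerset, p ^ R.card * (1 - p) ^ (U.card - R.card) *
        ((F.filter fun b => ∀ c ∈ N b, ¬ (c ∈ R ∧ d b c ∈ R)).card : ℝ) =
        ∑ b ∈ F, p ^ R.card * (1 - p) ^ (U.card - R.card) *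
          (if ∀ c ∈ N b, ¬ (c ∈ R ∧ d b c ∈ R) then (1 : ℝ) else 0) := by
      intro R _
      rw [← Finset.mul_sum, Finset.sum_boole]
    rw [Finset.sum_congr rfl e, Finset.sum_comm]
    calc ∑ b ∈ F, ∑ R ∈ U.powerset, p ^ R.card * (1 - p) ^ (U.card - R.card) *
          (if ∀ c ∈ N b, ¬ (c ∈ R ∧ d b c ∈ R) then (1 : ℝ) else 0)
        = ∑ b ∈ F, (1 - p ^ 2) ^ (N b).card := by
          refine Finset.sum_congr rfl fun b hb => ?_
          exact m3_pairs (d b) p (N b) U (hN b hb) (hd b hb) (hne b hb) (hdis b hb)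
      _ ≤ ∑ _b ∈ F, (1 - p ^ 2) ^ k := by
          refine Finset.sum_le_sum fun b hb => ?_
          exact pow_le_pow_of_le_one (by linarith) (by linarith) (hk b hb)
      _ = F.card * (1 - p ^ 2) ^ k := by rw [Finset.sum_const, nsmul_eq_mul]
  have hex : ∃ R ∈ U.powerset, 0 < p ^ R.card * (1 - p) ^ (U.card - R.card) := by
    by_contra h
    have : ∑ R ∈ U.powerset, p ^ R.card * (1 - p) ^ (U.card - R.card) ≤ 0 :=
      Finset.sum_nonpos fun R hR => not_lt.1 fun h' => h ⟨R, hR, h'⟩
    rw [hsum1] at this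
    linarith
  have hpos : 0 < ∑ R ∈ U.powerset, p ^ R.card * (1 - p) ^ (U.card - R.card) *
      (((R.card : ℝ) + ((F.filter fun b => ∀ c ∈ N b, ¬ (c ∈ R ∧ d b c ∈ R)).card : ℝ)) -
        (p * U.card + F.card * (1 - p ^ 2) ^ k)) := by
    apply Finset.sum_pos'
    · intro R hR
      have := hcon R (Finset.mem_powerset.1 hR)
      exact mul_nonneg (hw0 R hR) (by linarith)
    · obtain ⟨R, hR, h⟩ := hex
      have := hcon R (Finset.mem_powerset.1 hR)
      exact ⟨R, hR, mul_pos h (by linarith)⟩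
  have : ∑ R ∈ U.powerset, p ^ R.card * (1 - p) ^ (U.card - R.card) *
      (((R.card : ℝ) + ((F.filter fun b => ∀ c ∈ N b, ¬ (c ∈ R ∧ d b c ∈ R)).card : ℝ)) -
        (p * U.card + F.card * (1 - p ^ 2) ^ k)) =
      ∑ R ∈ U.powerset, p ^ R.card * (1 - p) ^ (U.card - R.card) *
      ((R.card : ℝ) + ((F.filter fun b => ∀ c ∈ N b, ¬ (c ∈ R ∧ d b c ∈ R)).card : ℝ)) -
      (∑ R ∈ U.powerset, p ^ R.card * (1 - p) ^ (U.card - R.card)) *
        (p * U.card + F.card * (1 - p ^ 2) ^ k) := by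
    rw [Finset.sum_mul, ← Finset.sum_sub_distrib]
    refine Finset.sum_congr rfl fun R _ => ?_
    ring
  rw [this, hsum1] at hpos
  linarith

end Pool.Agent.Lib.MP_938ce2_ag_rr
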