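import Mathlib
import Pool.Agent.Lib.MP_938ce2_ag_rr.RD
import Pool.Agent.Lib.MP_938ce2_ag_rr.M1
import Pool.Agent.Lib.MP_938ce2_ag_rr.M2
import Pool.Agent.Lib.MP_938ce2_ag_rr.M3

/-!
Row TA (150 lines). Many related pairs give a set with many relations.

RECIPE. The pairs `p = (b, c)` with `b = c` or `b = a` or `c = a` are at most `3 F.card`; if `Rel k a b c d` with `d = a` or `d = b` then `k a ⊓ k b ≤ k c` (at most `6561` such `c` for
every `b`), if `d = c` then `k a ⊓ k c ≤ k b` (at most `6561` such `b` for every `c`). Let `E b c` := `b ≠ c ∧ b ≠ a ∧ c ≠ a ∧ ∃ d ∈ T, d ≠ a ∧ d ≠ b ∧ d ≠ c ∧ Rel k a b c d`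
(symmetric, irreflexive); so more than `28 * 10^10 * F.card` pairs satisfy `E`, and `min_degree` gives `F' ⊆ F`, `s = F'.card ≥ 1`, with all degrees in `F'` at
least `14 * 10^10` (in particular `s ≥ 10^11`). For `b ∈ F'` choose `d b c ∈ T` for its neighbours `c`. `D = {d b c}` (a finite set, subset of `T`, all
`d ∈ D` satisfy `∃ b ∈ F', ∃ c ∈ F', Rel k a b c d`). If `(D \ F').card ≥ 12 s` take a subset of `D \ F'` with `12 s` elements: first alternative. Otherwise
`U = F' ∪ D ⊆ T`, `U.card ≤ 13 s`. The fibres of `d b ·` have at most `L = 531441` elements (`h3 a b u`: `Rel` contains `k a ⊓ k b ⊓ k d ≤ k c`); `disjoint_pairs` gives `N b ⊆ F'` with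
`(N b).card ≥ 14 * 10^10 / 1062884 ≥ 130000`. `exists_sample` with `q = 208`, `k = 130000`: `(1 - 1/208^2)^130000 ≤ exp (-130000/43264) ≤ exp (-3) ≤ 1/16`
(`exp 1 > 2.7182818283`), so `R.card + undet ≤ 13 s / 208 + s / 16 = s / 8`. `W = R ∪ {b ∈ F' undetermined}` gives the second alternative.
-/

set_option autoImplicit false
set_option linter.unusedSectionVars false

namespace Pool.Agent.Lib.MP_938ce2_ag_rr

open Finset

private theorem ta_num (x : ℝ) (k : ℕ) (hk : (k : ℝ) = 130000) (h0 : 0 ≤ x)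
    (h1 : x ≤ Real.exp (-(1 / 43264))) : x ^ k ≤ 1 / 16 := by
  have h4 : x ^ k ≤ Real.exp (-(1 / 43264)) ^ k := pow_le_pow_left₀ h0 h1 _
  have h5 : Real.exp (-(1 / 43264)) ^ k = Real.exp (-(130000 / 43264)) := by
    rw [← Real.exp_nat_mul, hk]
    congr 1
    norm_num
  have h6 : Real.exp (-(130000 / 43264)) ≤ Real.exp (-3) :=
    Real.exp_le_exp.2 (by norm_num)
  have h7 : Real.exp (-3) ≤ 1 / 16 := by
    rw [Real.exp_neg, ← one_div]
    apply one_div_le_one_div_of_le (by norm_num)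
    have h8 : Real.exp 3 = Real.exp 1 ^ 3 := by
      rw [← Real.exp_nat_mul]
      norm_num
    rw [h8]
    have h9 : (2.7 : ℝ) ≤ Real.exp 1 := by
      have := Real.exp_one_gt_d9
      linarith
    calc (16 : ℝ) ≤ 2.7 ^ 3 := by norm_num
      _ ≤ Real.exp 1 ^ 3 := pow_le_pow_left₀ (by norm_num) h9 3
  calc x ^ k ≤ Real.exp (-(1 / 43264)) ^ k := h4
    _ = Real.exp (-(130000 / 43264)) := h5
    _ ≤ Real.exp (-3) := h6
    _ ≤ 1 / 16 := h7

private theorem ta_base : (0 : ℝ) ≤ 1 - 1 / ((208 : ℕ) : ℝ) ^ 2 ∧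
    1 - 1 / ((208 : ℕ) : ℝ) ^ 2 ≤ Real.exp (-(1 / 43264)) := by
  have h2 := Real.add_one_le_exp (-(1 / 43264 : ℝ))
  have h3 : (1 - 1 / ((208 : ℕ) : ℝ) ^ 2) = -(1 / 43264 : ℝ) + 1 := by norm_num
  rw [h3]
  exact ⟨by norm_num, h2⟩

open Classical in
/-- a set of pairs whose rows have at most `B` elements -/
private theorem ta_rows {ι : Type} (F : Finset ι) (P : ι → ι → Prop) (B : ℕ)
    (hB : ∀ b ∈ F, (F.filter fun c => P b c).card ≤ B) :
    ((F ×ˢ F).filter fun p => P p.1 p.2).card ≤ B * F.card := by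
  have h1 : ((F ×ˢ F).filter fun p => P p.1 p.2).card
      = ∑ b ∈ F, (F.filter fun c => P b c).card := by
    simp only [Finset.card_filter]
    exact Finset.sum_product F F (fun p => if P p.1 p.2 then 1 else 0)
  rw [h1, mul_comm, ← smul_eq_mul, ← Finset.sum_const]
  exact Finset.sum_le_sum hB

open Classical in
/-- a set of pairs whose columns have at most `B` elements -/
private theorem ta_cols {ι : Type} (F : Finset ι) (P : ι → ι → Prop) (B : ℕ)
    (hB : ∀ c ∈ F, (F.filter fun b => P b c).card ≤ B) :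
    ((F ×ˢ F).filter fun p => P p.1 p.2).card ≤ B * F.card := by
  have h1 : ((F ×ˢ F).filter fun p => P p.1 p.2).card
      = ∑ c ∈ F, (F.filter fun b => P b c).card := by
    simp only [Finset.card_filter]
    rw [Finset.sum_product F F (fun p => if P p.1 p.2 then 1 else 0)]
    exact Finset.sum_comm
  rw [h1, mul_comm, ← smul_eq_mul, ← Finset.sum_const]
  exact Finset.sum_le_sum hB

open Classical in
private theorem ta_one {ι : Type} (F : Finset ι) (u : ι) :
    (F.filter fun c => c = u).card ≤ 1 := by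
  rw [Finset.card_le_one]
  intro x hx y hy
  rw [Finset.mem_filter] at hx hy
  rw [hx.2, hy.2]

open Classical in
theorem ta {ι G : Type} [Fintype ι] [Group G] (k : ι → Subgroup G)
    (h2 : ∀ a b, (Finset.univ.filter fun c => k a ⊓ k b ≤ k c).card ≤ 6561)
    (h3 : ∀ a b c, (Finset.univ.filter fun d => k a ⊓ k b ⊓ k c ≤ k d).card ≤ 531441)
    (T : Finset ι) (a : ι) (F : Finset ι) (hF : F ⊆ T)
    (h : 3 * 10 ^ 11 * F.card < ((F ×ˢ F).filter fun p => ∃ d ∈ T, Rel k a p.1 p.2 d).card) :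
    ∃ F' ⊆ F, 10 ^ 11 ≤ F'.card ∧
      ((∃ D ⊆ T, Disjoint D F' ∧ D.card = 12 * F'.card ∧
          ∀ d ∈ D, ∃ b ∈ F', ∃ c ∈ F', Rel k a b c d) ∨
       (∃ W ⊆ T, 8 * W.card ≤ F'.card ∧
          ∀ b ∈ F', b ∈ W ∨ ∃ c ∈ W, ∃ d ∈ W, Rel k a b c d)) := by
  -- the graph
  obtain ⟨E, hE⟩ : ∃ E : ι → ι → Prop, ∀ b c, E b c ↔ (b ≠ c ∧ b ≠ a ∧ c ≠ a ∧
    ∃ d ∈ T, d ≠ a ∧ d ≠ b ∧ d ≠ c ∧ Rel k a b c d) := ⟨_, fun _ _ => Iff.rfl⟩
  have hEs : ∀ b c, E b c → E c b := by
    intro b c hbc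
    obtain ⟨h1, h4, h5, d, hd, h6, h7, h8, h9⟩ := (hE b c).1 hbc
    refine (hE c b).2 ⟨h1.symm, h5, h4, d, hd, h6, h8, h7, ?_, ?_, ?_, ?_⟩
    · rw [inf_comm (k c) (k b)]
      exact h9.1
    · exact h9.2.2.1
    · exact h9.2.1
    · have := h9.2.2.2
      rw [inf_assoc, inf_comm (k c) (k b), ← inf_assoc]
      exact this
  have hEi : ∀ b, ¬ E b b := fun b hb => ((hE b b).1 hb).1 rfl
  -- the number of edges
  have hsub : ((F ×ˢ F).filter fun p => ∃ d ∈ T, Rel k a p.1 p.2 d) ⊆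
      ((F ×ˢ F).filter fun p => E p.1 p.2) ∪
      (((F ×ˢ F).filter fun p => p.2 = p.1) ∪ (((F ×ˢ F).filter fun p => p.1 = a) ∪
      (((F ×ˢ F).filter fun p => p.2 = a) ∪
      (((F ×ˢ F).filter fun p => k a ⊓ k p.1 ≤ k p.2) ∪
      ((F ×ˢ F).filter fun p => k a ⊓ k p.2 ≤ k p.1))))) := by
    intro p hp
    rw [Finset.mem_filter] at hp
    obtain ⟨hpF, d, hd, hR⟩ := hp
    simp only [Finset.mem_union, Finset.mem_filter, hpF, true_and]
    by_cases h4 : p.2 = p.1
    · exact Or.inr (Or.inl h4)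
    by_cases h5 : p.1 = a
    · exact Or.inr (Or.inr (Or.inl h5))
    by_cases h6 : p.2 = a
    · exact Or.inr (Or.inr (Or.inr (Or.inl h6)))
    by_cases h7 : d = a
    · refine Or.inr (Or.inr (Or.inr (Or.inr (Or.inl ?_))))
      have h8 := hR.2.2.1
      rw [h7] at h8
      refine le_trans ?_ h8
      exact le_inf le_rfl inf_le_left
    by_cases h9 : d = p.1
    · refine Or.inr (Or.inr (Or.inr (Or.inr (Or.inl ?_))))
      have h8 := hR.2.2.1
      rw [h9] at h8
      refine le_trans ?_ h8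
      exact le_inf le_rfl inf_le_right
    by_cases h10 : d = p.2
    · refine Or.inr (Or.inr (Or.inr (Or.inr (Or.inr ?_))))
      have h8 := hR.2.1
      rw [h10] at h8
      refine le_trans ?_ h8
      exact le_inf le_rfl inf_le_right
    exact Or.inl ((hE _ _).2 ⟨fun h11 => h4 h11.symm, h5, h6, d, hd, h7, h9, h10, hR⟩)
  have hA1 : ((F ×ˢ F).filter fun p => p.2 = p.1).card ≤ 1 * F.card :=
    ta_rows F (fun b c => c = b) 1 fun b _ => ta_one F b
  have hA2 : ((F ×ˢ F).filter fun p => p.1 = a).card ≤ 1 * F.card :=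
    ta_cols F (fun b c => b = a) 1 fun c _ => ta_one F a
  have hA3 : ((F ×ˢ F).filter fun p => p.2 = a).card ≤ 1 * F.card :=
    ta_rows F (fun b c => c = a) 1 fun b _ => ta_one F a
  have hA4 : ((F ×ˢ F).filter fun p => k a ⊓ k p.1 ≤ k p.2).card ≤ 6561 * F.card :=
    ta_rows F (fun b c => k a ⊓ k b ≤ k c) 6561 fun b _ =>
      (Finset.card_le_card (Finset.filter_subset_filter _ (Finset.subset_univ F))).trans (h2 a b)
  have hA5 : ((F ×ˢ F).filter fun p => k a ⊓ k p.2 ≤ k p.1).card ≤ 6561 * F.card :=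
    ta_cols F (fun b c => k a ⊓ k c ≤ k b) 6561 fun c _ =>
      (Finset.card_le_card (Finset.filter_subset_filter _ (Finset.subset_univ F))).trans (h2 a c)
  have hcount : 28 * 10 ^ 10 * F.card < ((F ×ˢ F).filter fun p => E p.1 p.2).card := by
    have h4 := Finset.card_le_card hsub
    have h5 := Finset.card_union_le ((F ×ˢ F).filter fun p => E p.1 p.2)
      (((F ×ˢ F).filter fun p => p.2 = p.1) ∪ (((F ×ˢ F).filter fun p => p.1 = a) ∪
      (((F ×ˢ F).filter fun p => p.2 = a) ∪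
      (((F ×ˢ F).filter fun p => k a ⊓ k p.1 ≤ k p.2) ∪
      ((F ×ˢ F).filter fun p => k a ⊓ k p.2 ≤ k p.1)))))
    have h6 := Finset.card_union_le ((F ×ˢ F).filter fun p => p.2 = p.1)
      (((F ×ˢ F).filter fun p => p.1 = a) ∪
      (((F ×ˢ F).filter fun p => p.2 = a) ∪
      (((F ×ˢ F).filter fun p => k a ⊓ k p.1 ≤ k p.2) ∪
      ((F ×ˢ F).filter fun p => k a ⊓ k p.2 ≤ k p.1))))
    have h7 := Finset.card_union_le ((F ×ˢ F).filter fun p => p.1 = a)
      (((F ×ˢ F).filter fun p => p.2 = a) ∪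
      (((F ×ˢ F).filter fun p => k a ⊓ k p.1 ≤ k p.2) ∪
      ((F ×ˢ F).filter fun p => k a ⊓ k p.2 ≤ k p.1)))
    have h8 := Finset.card_union_le ((F ×ˢ F).filter fun p => p.2 = a)
      (((F ×ˢ F).filter fun p => k a ⊓ k p.1 ≤ k p.2) ∪
      ((F ×ˢ F).filter fun p => k a ⊓ k p.2 ≤ k p.1))
    have h9 := Finset.card_union_le ((F ×ˢ F).filter fun p => k a ⊓ k p.1 ≤ k p.2)
      ((F ×ˢ F).filter fun p => k a ⊓ k p.2 ≤ k p.1)
    omega
  obtain ⟨F', hF'F, hF'ne, hdeg⟩ := min_degree F E hEs hEi (28 * 10 ^ 10) hcount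
  have hF'T : F' ⊆ T := hF'F.trans hF
  -- the size of F'
  have hs : 10 ^ 11 ≤ F'.card := by
    obtain ⟨b, hb⟩ := hF'ne
    have h4 := hdeg b hb
    have h5 : (F'.filter fun c => E b c).card ≤ F'.card :=
      Finset.card_le_card (Finset.filter_subset _ _)
    omega
  refine ⟨F', hF'F, hs, ?_⟩
  -- the choice of d
  have hch : ∀ b c, ∃ d, E b c → (d ∈ T ∧ d ≠ a ∧ d ≠ b ∧ d ≠ c ∧ Rel k a b c d) := by
    intro b c
    by_cases hbc : E b c
    · obtain ⟨_, _, _, d, hd, hd1, hd2, hd3, hd4⟩ := (hE b c).1 hbc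
      exact ⟨d, fun _ => ⟨hd, hd1, hd2, hd3, hd4⟩⟩
    · exact ⟨a, fun h => (hbc h).elim⟩
  choose d hd using hch
  let D : Finset ι := ((F' ×ˢ F').filter fun p => E p.1 p.2).image fun p => d p.1 p.2
  have hDmem : ∀ u ∈ D, u ∈ T ∧ ∃ b ∈ F', ∃ c ∈ F', Rel k a b c u := by
    intro u hu
    obtain ⟨p, hp, rfl⟩ := Finset.mem_image.1 hu
    rw [Finset.mem_filter, Finset.mem_product] at hp
    have h4 := hd p.1 p.2 hp.2
    exact ⟨h4.1, p.1, hp.1.1, p.2, hp.1.2, h4.2.2.2.2⟩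
  have hDin : ∀ b ∈ F', ∀ c ∈ F', E b c → d b c ∈ D := by
    intro b hb c hc hbc
    exact Finset.mem_image.2 ⟨(b, c), Finset.mem_filter.2 ⟨Finset.mem_product.2 ⟨hb, hc⟩, hbc⟩, rfl⟩
  by_cases hcase : 12 * F'.card ≤ (D \ F').card
  · left
    obtain ⟨D', hD', hD'c⟩ := Finset.exists_subset_card_eq hcase
    refine ⟨D', ?_, ?_, hD'c, ?_⟩
    · intro u hu
      exact (hDmem u (Finset.mem_sdiff.1 (hD' hu)).1).1
    · rw [Finset.disjoint_left]
      intro u hu
      exact (Finset.mem_sdiff.1 (hD' hu)).2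
    · intro u hu
      exact (hDmem u (Finset.mem_sdiff.1 (hD' hu)).1).2
  · right
    push Not at hcase
    have hUc : (F' ∪ D).card ≤ 13 * F'.card := by
      have h4 : F' ∪ D = F' ∪ (D \ F') := by simp
      rw [h4]
      have h5 := Finset.card_union_le F' (D \ F')
      omega
    have hUT : F' ∪ D ⊆ T := by
      intro u hu
      rcases Finset.mem_union.1 hu with h4 | h4
      · exact hF'T h4
      · exact (hDmem u h4).1
    -- the disjoint pairs
    have hN : ∀ b, ∃ N : Finset ι, b ∈ F' → (N ⊆ F'.filter (fun c => E b c) ∧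
        130000 ≤ N.card ∧ ∀ c ∈ N, ∀ c' ∈ N, c ≠ c' → d b c ≠ c' ∧ c ≠ d b c' ∧ d b c ≠ d b c') := by
      intro b
      by_cases hb : b ∈ F'
      · have hL : ∀ u, ((F'.filter fun c => E b c).filter fun c => d b c = u).card ≤ 531441 := by
          intro u
          refine (Finset.card_le_card ?_).trans (h3 a b u)
          intro c hc
          rw [Finset.mem_filter, Finset.mem_filter] at hc
          rw [Finset.mem_filter]
          refine ⟨Finset.mem_univ _, ?_⟩
          have h4 := (hd b c hc.1.2).2.2.2.2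
          rw [hc.2] at h4
          exact h4.2.2.1
        obtain ⟨N, hN1, hN2, hN3⟩ := disjoint_pairs (F'.filter fun c => E b c) (d b) 531441 hL
        refine ⟨N, fun _ => ⟨hN1, ?_, hN3⟩⟩
        have h4 := hdeg b hb
        omega
      · exact ⟨∅, fun h => (hb h).elim⟩
    choose N hN using hN
    have hNE : ∀ b ∈ F', ∀ c ∈ N b, c ∈ F' ∧ E b c := by
      intro b hb c hc
      have h4 := (hN b hb).1 hc
      rw [Finset.mem_filter] at h4
      exact h4
    obtain ⟨R, hRU, hR⟩ := exists_sample (F' ∪ D) F' 208 130000 (by norm_num) N d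
      (fun b hb c hc => Finset.mem_union_left _ (hNE b hb c hc).1)
      (fun b hb c hc => Finset.mem_union_right _ (hDin b hb c (hNE b hb c hc).1 (hNE b hb c hc).2))
      (fun b hb => (hN b hb).2.1)
      (fun b hb c hc => (hd b c (hNE b hb c hc).2).2.2.2.1)
      (fun b hb => (hN b hb).2.2)
    have hρ := ta_num (1 - 1 / ((208 : ℕ) : ℝ) ^ 2) 130000 (by norm_num) ta_base.1 ta_base.2
    generalize (1 - 1 / ((208 : ℕ) : ℝ) ^ 2) ^ 130000 = ρ at hR hρ
    obtain ⟨P, hP⟩ : ∃ P : ι → Prop, P = fun b => ∀ c ∈ N b, ¬ (c ∈ R ∧ d b c ∈ R) := ⟨_, rfl⟩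
    have hR2 : (R.card : ℝ) + ((F'.filter fun b => P b).card : ℝ)
        ≤ ((F' ∪ D).card : ℝ) / ((208 : ℕ) : ℝ) + (F'.card : ℝ) * ρ := by
      subst hP
      convert hR
    refine ⟨R ∪ (F'.filter fun b => P b), ?_, ?_, ?_⟩
    · intro u hu
      rcases Finset.mem_union.1 hu with h4 | h4
      · exact hUT (hRU h4)
      · exact hF'T (Finset.mem_filter.1 h4).1
    · have h4 := Finset.card_union_le R (F'.filter fun b => P b)
      have h5 : ((R ∪ (F'.filter fun b => P b)).card : ℝ)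
          ≤ (R.card : ℝ) + ((F'.filter fun b => P b).card : ℝ) := by
        exact_mod_cast h4
      have h6 : ((F' ∪ D).card : ℝ) ≤ 13 * (F'.card : ℝ) := by exact_mod_cast hUc
      have h7 : ((F' ∪ D).card : ℝ) / ((208 : ℕ) : ℝ) ≤ (F'.card : ℝ) / 16 := by
        have h8 : ((208 : ℕ) : ℝ) = 208 := by norm_num
        rw [h8, div_le_div_iff₀ (by norm_num) (by norm_num)]
        linarith
      have h9 : (F'.card : ℝ) * ρ ≤ (F'.card : ℝ) * (1 / 16) :=
        mul_le_mul_of_nonneg_left hρ (Nat.cast_nonneg _)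
      have h10 : (8 : ℝ) * ((R ∪ (F'.filter fun b => P b)).card : ℝ)
          ≤ (F'.card : ℝ) := by linarith
      exact_mod_cast h10
    · intro b hb
      by_cases hbu : P b
      · left
        exact Finset.mem_union_right _ (Finset.mem_filter.2 ⟨hb, hbu⟩)
      · right
        rw [hP] at hbu
        push Not at hbu
        obtain ⟨c, hc, hcR, hdR⟩ := hbu
        exact ⟨c, Finset.mem_union_left _ hcR, d b c, Finset.mem_union_left _ hdR,
          (hd b c (hNE b hb c hc).2).2.2.2.2⟩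

end Pool.Agent.Lib.MP_938ce2_ag_rr
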