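import Mathlib
import Pool.Agent.Lib.MP_938ce2_ag_rr.RD
import Pool.Agent.Lib.MP_938ce2_ag_rr.JA
import Pool.Agent.Lib.MP_938ce2_ag_rr.JB
import Pool.Agent.Lib.MP_938ce2_ag_u2.TypeC
import Pool.Agent.Lib.MP_938ce2_ag_h85d.Isotypic

/-!
Row JD. The joint bound for two-dimensional modules.
-/

set_option autoImplicit false
set_option linter.unusedSectionVars false

namespace Pool.Agent.Lib.MP_938ce2_ag_rr

open Finset Module MonoidAlgebra
open Pool.Agent.Lib.MP_938ce2_ag_h67 (sg VV ev mkV kerM mem_kerM ev_ext ev_single ev_add ev_smul)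
open Pool.Agent.Lib.MP_938ce2_ag_h60 (CMType)
open Pool.Agent.Lib.MP_938ce2_ag_u2 (Act OddM badC mem_badC dM dE dH)

variable {G X : Type} [Group G] [Fintype G] [MulAction G X] [Fintype X] [DecidableEq X]
  {κ : Type} [Fintype κ]

theorem bad_sup (c : G) (S : κ → Submodule (MonoidAlgebra ℚ G) (VV ℚ G X))
    (hS : ∀ i, IsSimpleModule (MonoidAlgebra ℚ G) (S i))
    (hinj : ∀ i j, Nonempty (S i ≃ₗ[MonoidAlgebra ℚ G] S j) → i = j) (Φ : Finset X)
    (hΦ : CMType c Φ) (h : ∀ i, Φ ∈ badC c (S i)) : Φ ∈ badC c (⨆ i, S i) := by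
  rw [mem_badC]
  refine ⟨hΦ, ?_⟩
  have h1 : ∀ i, ∃ M' : Submodule (MonoidAlgebra ℚ G) (VV ℚ G X),
      Nonempty (S i ≃ₗ[MonoidAlgebra ℚ G] M') ∧ ∀ v ∈ M', ∑ x, (sg Φ x : ℚ) * ev v x = 0 :=
    fun i => ((mem_badC c (S i) Φ).1 (h i)).2
  choose M' hM' hM'0 using h1
  refine ⟨⨆ i, M' i, sup_equiv S M' hS hinj hM', ?_⟩
  intro v hv
  refine Submodule.iSup_induction M' (motive := fun v => ∑ x, (sg Φ x : ℚ) * ev v x = 0) hv
    (fun i v hv => hM'0 i v hv) ?_ ?_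
  · have ev0 : ∀ x : X, ev (0 : VV ℚ G X) x = 0 := fun _ => rfl
    simp only [ev0, mul_zero, Finset.sum_const_zero]
  · intro v w hv hw
    simp only [ev_add, mul_add, Finset.sum_add_distrib]
    rw [hv, hw, add_zero]

private theorem num_aux (t : ℝ) (ht : 17 ≤ t) : 4 * t ^ 2 ≤ Real.exp (t ^ 3 / 16) := by
  have h0 : 0 ≤ t ^ 3 / 16 := by positivity
  have h1 := Real.quadratic_le_exp_of_nonneg h0
  have h2 : 4 * t ^ 2 ≤ (t ^ 3 / 16) ^ 2 / 2 := by
    have h3 : (2048 : ℝ) ≤ t ^ 4 := by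
      have : (17 : ℝ) ^ 4 ≤ t ^ 4 := pow_le_pow_left₀ (by norm_num) ht 4
      norm_num at this
      linarith
    have h4 : (t ^ 3 / 16) ^ 2 / 2 = t ^ 2 * t ^ 4 / 512 := by ring
    rw [h4]
    have h5 : 0 ≤ t ^ 2 := by positivity
    nlinarith
  linarith

open Classical in
theorem joint [MulAction.IsPretransitive G X] (c : G) (g : ℕ) (hA : Act G X c g)
    (hg : 10 ^ 10 ≤ g) (S : κ → Submodule (MonoidAlgebra ℚ G) (VV ℚ G X))
    (hS : ∀ i, IsSimpleModule (MonoidAlgebra ℚ G) (S i)) (hodd : ∀ i, OddM c (S i))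
    (hinj : ∀ i j, Nonempty (S i ≃ₗ[MonoidAlgebra ℚ G] S j) → i = j) (h2 : ∀ i, dM (S i) = 2)
    (hm : (Fintype.card κ : ℝ) ≤ (g : ℝ) ^ (1 / 8 : ℝ)) :
    ((Finset.univ.filter fun Φ : Finset X => CMType c Φ ∧ ∀ i, Φ ∈ badC c (S i)).card : ℝ)
      ≤ (8 * (g : ℝ) ^ (-(1 / 4) : ℝ)) ^ Fintype.card κ * 2 ^ g := by
  have hXne : Nonempty X := by
    rw [← Fintype.card_pos_iff, hA.card]
    have := hA.pos
    omega
  have hg0 : (0 : ℝ) ≤ (g : ℝ) := Nat.cast_nonneg g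
  rcases isEmpty_or_nonempty κ with hκ | hκ
  · -- no condition
    rw [Fintype.card_eq_zero, pow_zero, one_mul]
    have h1 := Pool.Agent.Lib.MP_938ce2_ag_u2.card_cm_all hA
    rw [Nat.card_eq_fintype_card, Fintype.card_subtype] at h1
    have h3 : ((Finset.univ.filter fun Φ : Finset X => CMType c Φ ∧ ∀ i, Φ ∈ badC c (S i)).card)
        ≤ 2 ^ g := by
      rw [← h1]
      refine Finset.card_le_card ?_
      intro Φ hΦ
      rw [Finset.mem_filter] at hΦ ⊢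
      exact ⟨hΦ.1, hΦ.2.1⟩
    exact_mod_cast h3
  · set N : Submodule (MonoidAlgebra ℚ G) (VV ℚ G X) := ⨆ i, S i with hN
    set m := Fintype.card κ with hmdef
    have hm1 : 1 ≤ m := Fintype.card_pos
    have hrank : dM N = 2 * m := by
      have h3 := finrank_sup (K := ℚ) S hS hinj
      have h4 : ∀ i, finrank ℚ (S i) = 2 := h2
      rw [Finset.sum_congr rfl (fun i _ => h4 i), Finset.sum_const, smul_eq_mul,
        Finset.card_univ] at h3
      show finrank ℚ N = 2 * m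
      rw [hN, h3, mul_comm]
    have hend : m ≤ dE N := end_ge (K := ℚ) S hS hinj
    have hhom : dH N ≤ dM N := Pool.Agent.Lib.MP_938ce2_ag_h85d.finrank_hom_le N
    have hoddN : OddM c N := by
      intro v hv
      refine Submodule.iSup_induction S (motive := fun v => ∀ x : X, ev v (c • x) = - ev v x) hv
        (fun i v hv => hodd i v hv) ?_ ?_
      · intro x
        have ev0 : ∀ x : X, ev (0 : VV ℚ G X) x = 0 := fun _ => rfl
        rw [ev0, ev0, neg_zero]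
      · intro v w hv hw x
        rw [ev_add, ev_add, hv x, hw x]
        ring
    -- the number t
    set t : ℝ := (g : ℝ) ^ (1 / 8 : ℝ) with ht
    have ht0 : 0 ≤ t := Real.rpow_nonneg hg0 _
    have ht8 : t ^ 8 = (g : ℝ) := by
      rw [ht, ← Real.rpow_natCast, ← Real.rpow_mul hg0]
      norm_num
    have ht17 : 17 ≤ t := by
      by_contra hcon
      have h3 : t ^ 8 < 17 ^ 8 := pow_lt_pow_left₀ (not_le.1 hcon) ht0 (by norm_num)
      rw [ht8] at h3
      have h4 : ((10 ^ 10 : ℕ) : ℝ) ≤ g := by exact_mod_cast hg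
      norm_num at h3 h4
      linarith
    have htg : (g : ℝ) ^ (-(1 / 4) : ℝ) = (t ^ 2)⁻¹ := by
      rw [Real.rpow_neg hg0, ht, ← Real.rpow_natCast, ← Real.rpow_mul hg0]
      norm_num
    -- the prime
    set y := ⌈t ^ 2⌉₊ with hy
    have hy1 : t ^ 2 ≤ y := Nat.le_ceil _
    have hy2 : (y : ℝ) < t ^ 2 + 1 := Nat.ceil_lt_add_one (by positivity)
    have ht2 : (289 : ℝ) ≤ t ^ 2 := by nlinarith
    have hy81 : 81 < y := by
      have : (81 : ℝ) < y := by linarith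
      exact_mod_cast this
    obtain ⟨q, hq, hq1, hq2⟩ := Nat.exists_prime_lt_and_le_two_mul y (by omega)
    have hq81 : 81 < q := by omega
    have hqR1 : (y : ℝ) + 1 ≤ q := by exact_mod_cast hq1
    have hqR2 : (q : ℝ) ≤ 2 * y := by exact_mod_cast hq2
    have hq4 : (q : ℝ) ≤ 4 * t ^ 2 := by linarith
    have hqt : t ^ 2 ≤ (q : ℝ) - 1 := by linarith
    have hq0 : (0 : ℝ) < q := by linarith
    have hbad := Pool.Agent.Lib.MP_938ce2_ag_u2.bad_le_odd hA N hoddN (by omega) hhom q hq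
      (by omega) (not_dvd S h2 q hq hq81)
    -- the exponential
    have hmR : (0 : ℝ) < (m : ℝ) := by exact_mod_cast hm1
    have hx : t ^ 3 / 16 ≤ 2 * (g : ℝ) / ((dM N : ℕ) * (q : ℝ) ^ 2) := by
      rw [hrank, ← ht8]
      push_cast
      rw [div_le_div_iff₀ (by norm_num) (by positivity)]
      have h3 : (q : ℝ) ^ 2 ≤ (4 * t ^ 2) ^ 2 := pow_le_pow_left₀ hq0.le hq4 2
      have h4 : (m : ℝ) * (q : ℝ) ^ 2 ≤ t * (4 * t ^ 2) ^ 2 :=
        mul_le_mul hm h3 (by positivity) ht0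
      have h5 : 0 ≤ t ^ 3 := by positivity
      have h6 := mul_le_mul_of_nonneg_left h4 h5
      nlinarith
    have hexp : ((q : ℝ) - 1) * Real.exp (-(2 * (g : ℝ) / ((dM N : ℕ) * (q : ℝ) ^ 2))) ≤ 1 := by
      have h3 : (q : ℝ) - 1 ≤ Real.exp (2 * (g : ℝ) / ((dM N : ℕ) * (q : ℝ) ^ 2)) := by
        have h4 := num_aux t ht17
        have h5 := Real.exp_le_exp.2 hx
        linarith
      rw [Real.exp_neg, ← div_eq_mul_inv, div_le_one (Real.exp_pos _)]
      exact h3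
    have hq1R : (1 : ℝ) ≤ (q : ℝ) - 1 := by linarith
    have hnum : (1 + ((q : ℝ) - 1) *
        Real.exp (-(2 * (g : ℝ) / ((dM N : ℕ) * (q : ℝ) ^ 2)))) ^ dM N ≤ 4 ^ m := by
      have h3 : (1 + ((q : ℝ) - 1) *
        Real.exp (-(2 * (g : ℝ) / ((dM N : ℕ) * (q : ℝ) ^ 2)))) ≤ 2 := by linarith
      have h4 : (0 : ℝ) ≤ (1 + ((q : ℝ) - 1) *
        Real.exp (-(2 * (g : ℝ) / ((dM N : ℕ) * (q : ℝ) ^ 2)))) := by
        have := Real.exp_pos (-(2 * (g : ℝ) / ((dM N : ℕ) * (q : ℝ) ^ 2)))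
        positivity
      calc _ ≤ (2 : ℝ) ^ dM N := pow_le_pow_left₀ h4 h3 _
        _ = 4 ^ m := by
          rw [hrank, pow_mul]
          norm_num
    have hden : ((q : ℝ) - 1) ^ m ≤ ((q : ℝ) - 1) ^ (dE N + dM N - dH N) :=
      pow_le_pow_right₀ hq1R (by omega)
    have hpos : (0 : ℝ) < ((q : ℝ) - 1) ^ m := by positivity
    have hfin : ((badC c N).card : ℝ) ≤ (8 * (t ^ 2)⁻¹) ^ m * 2 ^ g := by
      have h3 : ((badC c N).card : ℝ) / 2 ^ g ≤ 4 ^ m / ((q : ℝ) - 1) ^ m :=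
        hbad.trans (div_le_div₀ (by positivity) hnum hpos hden)
      have h4 : (4 : ℝ) ^ m / ((q : ℝ) - 1) ^ m ≤ (8 * (t ^ 2)⁻¹) ^ m := by
        rw [← div_pow]
        refine pow_le_pow_left₀ (by positivity) ?_ m
        rw [← div_eq_mul_inv]
        have ht2' : (0 : ℝ) < t ^ 2 := by positivity
        calc (4 : ℝ) / ((q : ℝ) - 1) ≤ 4 / t ^ 2 :=
              div_le_div_of_nonneg_left (by norm_num) ht2' hqt
          _ ≤ 8 / t ^ 2 := div_le_div_of_nonneg_right (by norm_num) ht2'.le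
      rw [div_le_iff₀ (by positivity)] at h3
      exact h3.trans (mul_le_mul_of_nonneg_right h4 (by positivity))
    rw [htg]
    refine le_trans ?_ hfin
    have h5 : (Finset.univ.filter fun Φ : Finset X => CMType c Φ ∧ ∀ i, Φ ∈ badC c (S i)) ⊆
        badC c N := by
      intro Φ hΦ
      rw [Finset.mem_filter] at hΦ
      exact bad_sup c S hS hinj Φ hΦ.2.1 hΦ.2.2
    exact_mod_cast Finset.card_le_card h5

end Pool.Agent.Lib.MP_938ce2_ag_rr
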