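import Mathlib
import Pool.Agent.Lib.MP_938ce2_ag_rr.RD
import Pool.Agent.Lib.MP_938ce2_ag_rr.JD
import Pool.Agent.Lib.MP_938ce2_ag_rr.CT

/-!
Row TB (130 lines). Union bound for the first alternative.

RECIPE. The set is contained in the union over `a`, `F ∈ powersetCard s univ` and `D ∈ powersetCard (12 s) (H a F)`, `H a F = {d | ∃ b ∈ F, ∃ c ∈ F, Rel k a b c d}`, `D`
disjoint from `F`, of `{Φ : CMType c Φ ∧ ∀ i ∈ F ∪ D, Φ ∈ badC c (S i)}`. `(H a F).card ≤ s^2 * 531441` (`three_card`), so there are at most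
`g * g^s * (531441 s^2)^(12 s)` triples (`Nat.choose_le_pow`), and each set has at most `(8 g^(-1/4))^(13 s) * 2^g` elements (`joint` for the subtype of
`F ∪ D`, `13 s ≤ g^(1/8)`). By `h1` the total is at most `g^(1 + s - 13 s/4 + s/4) * 2^g = g^(1 - 2 s) * 2^g ≤ g^(-1) * 2^g`.
-/

set_option autoImplicit false
set_option linter.unusedSectionVars false

namespace Pool.Agent.Lib.MP_938ce2_ag_rr

open Finset Module MonoidAlgebra
open Pool.Agent.Lib.MP_938ce2_ag_h67 (sg VV ev mkV kerM mem_kerM ev_ext ev_single ev_add ev_smul)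
open Pool.Agent.Lib.MP_938ce2_ag_h60 (CMType)
open Pool.Agent.Lib.MP_938ce2_ag_u2 (Act OddM badC mem_badC dM dE dH)

open Classical in
theorem tb {G X : Type} [Group G] [Fintype G] [MulAction G X] [Fintype X] [DecidableEq X]
    {κ : Type} [Fintype κ] [MulAction.IsPretransitive G X] (c : G) (g : ℕ) (hA : Act G X c g)
    (hg : 10 ^ 10 ≤ g) (S : κ → Submodule (MonoidAlgebra ℚ G) (VV ℚ G X))
    (hS : ∀ i, IsSimpleModule (MonoidAlgebra ℚ G) (S i)) (hodd : ∀ i, OddM c (S i))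
    (hinj : ∀ i j, Nonempty (S i ≃ₗ[MonoidAlgebra ℚ G] S j) → i = j) (h2 : ∀ i, dM (S i) = 2)
    (hcard : Fintype.card κ ≤ g) (s : ℕ) (hs : 1 ≤ s) (h13 : (13 * s : ℝ) ≤ (g : ℝ) ^ (1 / 8 : ℝ))
    (h1 : (8 : ℝ) ^ 13 * 531441 ^ 12 * (s : ℝ) ^ 24 ≤ (g : ℝ) ^ (1 / 4 : ℝ)) :
    ((Finset.univ.filter fun Φ : Finset X => CMType c Φ ∧ ∃ (a : κ) (F D : Finset κ),
        F.card = s ∧ Disjoint D F ∧ D.card = 12 * s ∧
        (∀ d ∈ D, ∃ b ∈ F, ∃ b' ∈ F, Rel (fun i => kerM (S i)) a b b' d) ∧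
        (∀ i ∈ F, Φ ∈ badC c (S i)) ∧ ∀ i ∈ D, Φ ∈ badC c (S i)).card : ℝ)
      ≤ (g : ℝ)⁻¹ * 2 ^ g := by
  classical
  have hX : Nonempty X := by
    rw [← Fintype.card_pos_iff, hA.card]
    have := hA.pos
    omega
  have hg0 : (0 : ℝ) < (g : ℝ) := by
    have : 0 < g := by omega
    exact_mod_cast this
  have hg1 : (1 : ℝ) ≤ (g : ℝ) := by
    have : 1 ≤ g := by omega
    exact_mod_cast this
  obtain ⟨q, hq⟩ : ∃ q : ℝ, q = (g : ℝ) ^ (1 / 4 : ℝ) := ⟨_, rfl⟩
  have hq0 : 0 < q := by rw [hq]; exact Real.rpow_pos_of_pos hg0 _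
  have hq4 : q ^ 4 = (g : ℝ) := by
    rw [hq, ← Real.rpow_natCast, ← Real.rpow_mul hg0.le]
    norm_num
  have hqi : (g : ℝ) ^ (-(1 / 4) : ℝ) = q⁻¹ := by
    rw [hq, Real.rpow_neg hg0.le]
  obtain ⟨A, hA'⟩ : ∃ A : Finset κ → Finset (Finset X), A = fun U =>
    Finset.univ.filter fun Φ : Finset X => CMType c Φ ∧ ∀ i ∈ U, Φ ∈ badC c (S i) := ⟨_, rfl⟩
  have hAcard : ∀ U : Finset κ, U.card = 13 * s →
      ((A U).card : ℝ) ≤ (8 * q⁻¹) ^ (13 * s) * 2 ^ g := by
    intro U hU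
    have hj := joint (κ := {i // i ∈ U}) c g hA hg (fun i => S i.1) (fun i => hS i.1)
      (fun i => hodd i.1) (fun i j hij => Subtype.ext (hinj i.1 j.1 hij)) (fun i => h2 i.1)
      (by rw [Fintype.card_coe, hU]; push_cast; exact h13)
    rw [Fintype.card_coe, hU, hqi] at hj
    refine le_trans ?_ hj
    rw [hA']
    refine Nat.cast_le.mpr (Finset.card_le_card ?_)
    intro Φ hΦ
    rw [Finset.mem_filter] at hΦ ⊢
    exact ⟨Finset.mem_univ _, hΦ.2.1, fun i => hΦ.2.2 i.1 i.2⟩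
  obtain ⟨H, hH⟩ : ∃ H : κ → Finset κ → Finset κ, H = fun a F =>
    Finset.univ.filter fun d => ∃ b ∈ F, ∃ b' ∈ F, Rel (fun i => kerM (S i)) a b b' d := ⟨_, rfl⟩
  have hHcard : ∀ a F, F.card = s → (H a F).card ≤ 531441 * s ^ 2 := by
    intro a F hF
    have hsub : H a F ⊆ F.biUnion fun b => F.biUnion fun b' =>
        Finset.univ.filter fun d => kerM (S a) ⊓ kerM (S b) ⊓ kerM (S b') ≤ kerM (S d) := by
      intro d hd
      rw [hH, Finset.mem_filter] at hd
      obtain ⟨-, b, hb, b', hb', hr⟩ := hd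
      rw [Finset.mem_biUnion]
      refine ⟨b, hb, ?_⟩
      rw [Finset.mem_biUnion]
      refine ⟨b', hb', ?_⟩
      rw [Finset.mem_filter]
      exact ⟨Finset.mem_univ _, hr.2.2.2⟩
    refine (Finset.card_le_card hsub).trans ?_
    refine (Finset.card_biUnion_le_card_mul _ _ (s * 531441) ?_).trans ?_
    · intro b hb
      rw [← hF]
      exact Finset.card_biUnion_le_card_mul _ _ _ fun b' hb' => three_card S hS hinj h2 a b b'
    · rw [hF]
      apply le_of_eq
      ring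
  have hcover : (Finset.univ.filter fun Φ : Finset X => CMType c Φ ∧ ∃ (a : κ) (F D : Finset κ),
        F.card = s ∧ Disjoint D F ∧ D.card = 12 * s ∧
        (∀ d ∈ D, ∃ b ∈ F, ∃ b' ∈ F, Rel (fun i => kerM (S i)) a b b' d) ∧
        (∀ i ∈ F, Φ ∈ badC c (S i)) ∧ ∀ i ∈ D, Φ ∈ badC c (S i))
      ⊆ (Finset.univ : Finset κ).biUnion fun a => (Finset.powersetCard s Finset.univ).biUnion
        fun F => ((Finset.powersetCard (12 * s) (H a F)).filter fun D => Disjoint D F).biUnion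
        fun D => A (F ∪ D) := by
    intro Φ hΦ
    rw [Finset.mem_filter] at hΦ
    obtain ⟨-, hcm, a, F, D, hF, hDF, hD, hrel, hbF, hbD⟩ := hΦ
    rw [Finset.mem_biUnion]
    refine ⟨a, Finset.mem_univ _, ?_⟩
    rw [Finset.mem_biUnion]
    refine ⟨F, Finset.mem_powersetCard.mpr ⟨Finset.subset_univ _, hF⟩, ?_⟩
    rw [Finset.mem_biUnion]
    refine ⟨D, ?_, ?_⟩
    · rw [Finset.mem_filter, Finset.mem_powersetCard]
      refine ⟨⟨?_, hD⟩, hDF⟩
      intro d hd
      rw [hH, Finset.mem_filter]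
      exact ⟨Finset.mem_univ _, hrel d hd⟩
    · rw [hA', Finset.mem_filter]
      refine ⟨Finset.mem_univ _, hcm, fun i hi => ?_⟩
      rcases Finset.mem_union.mp hi with hi | hi
      · exact hbF i hi
      · exact hbD i hi
  refine le_trans (Nat.cast_le.mpr (Finset.card_le_card hcover)) ?_
  have hP0 : (0 : ℝ) ≤ (8 * q⁻¹) ^ (13 * s) * 2 ^ g := by positivity
  have hsum : ((((Finset.univ : Finset κ).biUnion fun a => (Finset.powersetCard s Finset.univ).biUnion
        fun F => ((Finset.powersetCard (12 * s) (H a F)).filter fun D => Disjoint D F).biUnion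
        fun D => A (F ∪ D)).card : ℕ) : ℝ)
      ≤ g * ((g : ℝ) ^ s * ((531441 * (s : ℝ) ^ 2) ^ (12 * s)
        * ((8 * q⁻¹) ^ (13 * s) * 2 ^ g))) := by
    have hD : ∀ a F, F ∈ Finset.powersetCard s (Finset.univ : Finset κ) →
        ((((Finset.powersetCard (12 * s) (H a F)).filter fun D => Disjoint D F).biUnion
        fun D => A (F ∪ D)).card : ℝ) ≤ (531441 * (s : ℝ) ^ 2) ^ (12 * s)
        * ((8 * q⁻¹) ^ (13 * s) * 2 ^ g) := by
      intro a F hF
      have hF' := (Finset.mem_powersetCard.mp hF).2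
      have e1 : ((((Finset.powersetCard (12 * s) (H a F)).filter fun D => Disjoint D F).biUnion
          fun D => A (F ∪ D)).card : ℝ)
          ≤ ∑ D ∈ (Finset.powersetCard (12 * s) (H a F)).filter fun D => Disjoint D F,
            ((A (F ∪ D)).card : ℝ) := by
        have := Finset.card_biUnion_le
          (s := (Finset.powersetCard (12 * s) (H a F)).filter fun D => Disjoint D F)
          (t := fun D => A (F ∪ D))
        exact_mod_cast this
      have e2 : ∑ D ∈ (Finset.powersetCard (12 * s) (H a F)).filter fun D => Disjoint D F,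
            ((A (F ∪ D)).card : ℝ)
          ≤ ∑ D ∈ (Finset.powersetCard (12 * s) (H a F)).filter fun D => Disjoint D F,
            ((8 * q⁻¹) ^ (13 * s) * 2 ^ g) := by
        refine Finset.sum_le_sum fun D hD => hAcard _ ?_
        rw [Finset.mem_filter, Finset.mem_powersetCard] at hD
        rw [Finset.card_union_of_disjoint hD.2.symm, hF', hD.1.2]
        ring
      refine (e1.trans e2).trans ?_
      rw [Finset.sum_const, nsmul_eq_mul]
      refine mul_le_mul_of_nonneg_right ?_ hP0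
      have e3 : ((Finset.powersetCard (12 * s) (H a F)).filter fun D => Disjoint D F).card
          ≤ (531441 * s ^ 2) ^ (12 * s) := by
        refine (Finset.card_filter_le _ _).trans ?_
        rw [Finset.card_powersetCard]
        exact (Nat.choose_le_pow _ _).trans (Nat.pow_le_pow_left (hHcard a F hF') _)
      exact_mod_cast e3
    have hDD : ∀ a : κ, ((((Finset.powersetCard s (Finset.univ : Finset κ)).biUnion
        fun F => ((Finset.powersetCard (12 * s) (H a F)).filter fun D => Disjoint D F).biUnion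
        fun D => A (F ∪ D)).card : ℕ) : ℝ) ≤ (g : ℝ) ^ s * ((531441 * (s : ℝ) ^ 2) ^ (12 * s)
        * ((8 * q⁻¹) ^ (13 * s) * 2 ^ g)) := by
      intro a
      have e1 : ((((Finset.powersetCard s (Finset.univ : Finset κ)).biUnion
          fun F => ((Finset.powersetCard (12 * s) (H a F)).filter fun D => Disjoint D F).biUnion
          fun D => A (F ∪ D)).card : ℕ) : ℝ)
          ≤ ∑ F ∈ Finset.powersetCard s (Finset.univ : Finset κ),
            ((((Finset.powersetCard (12 * s) (H a F)).filter fun D => Disjoint D F).biUnion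
              fun D => A (F ∪ D)).card : ℝ) := by
        have := Finset.card_biUnion_le (s := Finset.powersetCard s (Finset.univ : Finset κ))
          (t := fun F => ((Finset.powersetCard (12 * s) (H a F)).filter
            fun D => Disjoint D F).biUnion fun D => A (F ∪ D))
        exact_mod_cast this
      refine e1.trans ((Finset.sum_le_sum fun F hF => hD a F hF).trans ?_)
      rw [Finset.sum_const, nsmul_eq_mul]
      refine mul_le_mul_of_nonneg_right ?_ (by positivity)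
      have e3 : (Finset.powersetCard s (Finset.univ : Finset κ)).card ≤ g ^ s := by
        rw [Finset.card_powersetCard, Finset.card_univ]
        exact (Nat.choose_le_pow _ _).trans (Nat.pow_le_pow_left hcard _)
      exact_mod_cast e3
    have e1 : ((((Finset.univ : Finset κ).biUnion fun a =>
        (Finset.powersetCard s Finset.univ).biUnion
        fun F => ((Finset.powersetCard (12 * s) (H a F)).filter fun D => Disjoint D F).biUnion
        fun D => A (F ∪ D)).card : ℕ) : ℝ)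
        ≤ ∑ a : κ, ((((Finset.powersetCard s (Finset.univ : Finset κ)).biUnion
        fun F => ((Finset.powersetCard (12 * s) (H a F)).filter fun D => Disjoint D F).biUnion
        fun D => A (F ∪ D)).card : ℕ) : ℝ) := by
      have := Finset.card_biUnion_le (s := (Finset.univ : Finset κ))
        (t := fun a => (Finset.powersetCard s (Finset.univ : Finset κ)).biUnion
          fun F => ((Finset.powersetCard (12 * s) (H a F)).filter
            fun D => Disjoint D F).biUnion fun D => A (F ∪ D))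
      exact_mod_cast this
    refine e1.trans ((Finset.sum_le_sum fun a _ => hDD a).trans ?_)
    rw [Finset.sum_const, nsmul_eq_mul, Finset.card_univ]
    refine mul_le_mul_of_nonneg_right ?_ (by positivity)
    exact_mod_cast hcard
  refine hsum.trans ?_
  have hfin : (g : ℝ) * ((g : ℝ) ^ s * ((531441 * (s : ℝ) ^ 2) ^ (12 * s)
      * (8 * q⁻¹) ^ (13 * s))) ≤ (g : ℝ)⁻¹ := by
    have f1 : (531441 * (s : ℝ) ^ 2) ^ (12 * s) * (8 * q⁻¹) ^ (13 * s)
        = ((8 : ℝ) ^ 13 * 531441 ^ 12 * (s : ℝ) ^ 24) ^ s * (q⁻¹) ^ (13 * s) := by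
      rw [mul_pow 8 q⁻¹, pow_mul _ 12 s, pow_mul 8 13 s, ← mul_assoc, ← mul_pow]
      congr 2
      ring
    have f2 : ((8 : ℝ) ^ 13 * 531441 ^ 12 * (s : ℝ) ^ 24) ^ s ≤ q ^ s := by
      refine pow_le_pow_left₀ (by positivity) ?_ s
      rw [hq]
      exact h1
    have f3 : (g : ℝ) ^ s * (q ^ s * (q⁻¹) ^ (13 * s)) = ((g : ℝ)⁻¹) ^ (2 * s) := by
      rw [← hq4, ← pow_mul, ← mul_assoc, ← pow_add, inv_pow, inv_pow, ← pow_mul,
        show 13 * s = (4 * s + s) + 4 * (2 * s) by ring, pow_add q (4 * s + s), mul_inv,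
        ← mul_assoc, mul_inv_cancel₀ (pow_ne_zero _ hq0.ne'), one_mul]
    have f4 : ((g : ℝ)⁻¹) ^ (2 * s) ≤ ((g : ℝ)⁻¹) ^ 2 :=
      pow_le_pow_of_le_one (inv_nonneg.mpr hg0.le) (inv_le_one_of_one_le₀ hg1) (by omega)
    calc (g : ℝ) * ((g : ℝ) ^ s * ((531441 * (s : ℝ) ^ 2) ^ (12 * s) * (8 * q⁻¹) ^ (13 * s)))
        = (g : ℝ) * ((g : ℝ) ^ s * (((8 : ℝ) ^ 13 * 531441 ^ 12 * (s : ℝ) ^ 24) ^ s
          * (q⁻¹) ^ (13 * s))) := by rw [f1]
      _ ≤ (g : ℝ) * ((g : ℝ) ^ s * (q ^ s * (q⁻¹) ^ (13 * s))) := by gcongr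
      _ = (g : ℝ) * ((g : ℝ)⁻¹) ^ (2 * s) := by rw [f3]
      _ ≤ (g : ℝ) * ((g : ℝ)⁻¹) ^ 2 := by gcongr
      _ = (g : ℝ)⁻¹ := by
        rw [sq, ← mul_assoc, mul_inv_cancel₀ hg0.ne', one_mul]
  calc (g : ℝ) * ((g : ℝ) ^ s * ((531441 * (s : ℝ) ^ 2) ^ (12 * s)
        * ((8 * q⁻¹) ^ (13 * s) * 2 ^ g)))
      = ((g : ℝ) * ((g : ℝ) ^ s * ((531441 * (s : ℝ) ^ 2) ^ (12 * s)
      * (8 * q⁻¹) ^ (13 * s)))) * 2 ^ g := by ring
    _ ≤ (g : ℝ)⁻¹ * 2 ^ g := by gcongr

end Pool.Agent.Lib.MP_938ce2_ag_rr
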