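import Mathlib
import Pool.Agent.Lib.MP_938ce2_ag_rr.RD
import Pool.Agent.Lib.MP_938ce2_ag_rr.JD
import Pool.Agent.Lib.MP_938ce2_ag_rr.CT

/-!
Row TC (130 lines). Union bound for the second alternative.

RECIPE. The set is contained in the union over `a`, `W` with `8 * W.card ≤ s` and `F ∈ powersetCard s (H a W)`, `H a W = {b | b ∈ W ∨ ∃ c ∈ W, ∃ d ∈ W, Rel k a b c d}`, of
`{Φ : CMType c Φ ∧ ∀ i ∈ F, Φ ∈ badC c (S i)}`. There are at most `(g + 1)^(s/8) ≤ (2 g)^(s/8)` sets `W` (for `t = s / 8` (floor) they are the images of the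
functions `Fin t → Option κ`; or sum of binomial coefficients), `(H a W).card ≤ W.card + W.card^2 * 531441 ≤ 531441 s^2` (`three_card`: `Rel` contains
`k a ⊓ k c ⊓ k d ≤ k b`), so at most `g * (2 g)^(s/8) * (531441 s^2)^s` triples, and each set has at most `(8 g^(-1/4))^s * 2^g` elements (`joint`,
`s ≤ g^(1/8)`). By `h1` the total is at most `g^(1 + s/8 - s/4 + s/16) * 2^g = g^(1 - s/16) * 2^g ≤ g^(-1) * 2^g`.
-/

set_option autoImplicit false
set_option linter.unusedSectionVars false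

namespace Pool.Agent.Lib.MP_938ce2_ag_rr

open Finset Module MonoidAlgebra
open Pool.Agent.Lib.MP_938ce2_ag_h67 (sg VV ev mkV kerM mem_kerM ev_ext ev_single ev_add ev_smul)
open Pool.Agent.Lib.MP_938ce2_ag_h60 (CMType)
open Pool.Agent.Lib.MP_938ce2_ag_u2 (Act OddM badC mem_badC dM dE dH)

private lemma card_biUnion_real {α β : Type*} [DecidableEq β] (s : Finset α) (t : α → Finset β)
    (B : ℝ) (h : ∀ a ∈ s, ((t a).card : ℝ) ≤ B) : ((s.biUnion t).card : ℝ) ≤ s.card * B := by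
  calc ((s.biUnion t).card : ℝ) ≤ ((∑ a ∈ s, (t a).card : ℕ) : ℝ) := by
        exact_mod_cast Finset.card_biUnion_le
    _ = ∑ a ∈ s, ((t a).card : ℝ) := by push_cast; rfl
    _ ≤ ∑ _a ∈ s, B := Finset.sum_le_sum h
    _ = s.card * B := by rw [Finset.sum_const, nsmul_eq_mul]

private lemma choose_le (n j : ℕ) : n.choose j ≤ n ^ j := Nat.choose_le_pow n j

open Classical in
private lemma card_small_sets {κ : Type} [Fintype κ] (t : ℕ) :
    (Finset.univ.filter fun W : Finset κ => W.card ≤ t).card ≤ (Fintype.card κ + 1) ^ t := by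
  have h1 : (Finset.univ.filter fun W : Finset κ => W.card ≤ t) ⊆
      (Finset.range (t + 1)).biUnion fun j => Finset.powersetCard j (Finset.univ : Finset κ) := by
    intro W hW
    rw [Finset.mem_filter] at hW
    rw [Finset.mem_biUnion]
    exact ⟨W.card, Finset.mem_range.2 (Nat.lt_succ_of_le hW.2),
      Finset.mem_powersetCard.2 ⟨Finset.subset_univ _, rfl⟩⟩
  refine (Finset.card_le_card h1).trans (Finset.card_biUnion_le.trans ?_)
  rw [add_pow]
  refine Finset.sum_le_sum fun j hj => ?_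
  rw [Finset.card_powersetCard, Finset.card_univ, one_pow, mul_one]
  have h2 : 1 ≤ t.choose j := Nat.choose_pos (Nat.lt_succ_iff.1 (Finset.mem_range.1 hj))
  calc (Fintype.card κ).choose j ≤ Fintype.card κ ^ j := choose_le _ _
    _ = Fintype.card κ ^ j * 1 := (mul_one _).symm
    _ ≤ Fintype.card κ ^ j * t.choose j := Nat.mul_le_mul_left _ h2

private lemma numeric (g s t : ℕ) (hg : 10 ^ 10 ≤ g) (hs : 64 ≤ s) (ht : 8 * t ≤ s)
    (h1 : (16 : ℝ) * 531441 * (s : ℝ) ^ 2 ≤ (g : ℝ) ^ (1 / 16 : ℝ)) :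
    (g : ℝ) * ((2 * g : ℝ) ^ t * ((531441 * (s : ℝ) ^ 2) ^ s *
      ((8 * (g : ℝ) ^ (-(1 / 4) : ℝ)) ^ s * 2 ^ g))) ≤ (g : ℝ)⁻¹ * 2 ^ g := by
  set G : ℝ := (g : ℝ) ^ (1 / 16 : ℝ) with hG
  have hg0 : (0 : ℝ) ≤ (g : ℝ) := Nat.cast_nonneg g
  have hg1 : (1 : ℝ) ≤ (g : ℝ) := by
    have : 1 ≤ g := le_trans (by norm_num) hg
    exact_mod_cast this
  have hG1 : 1 ≤ G := Real.one_le_rpow hg1 (by norm_num)
  have hG0 : 0 < G := by linarith
  have hg16 : (g : ℝ) = G ^ 16 := by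
    rw [hG, ← Real.rpow_natCast, ← Real.rpow_mul hg0]
    norm_num
  have hg4 : (g : ℝ) ^ (-(1 / 4) : ℝ) = (G ^ 4)⁻¹ := by
    rw [Real.rpow_neg hg0, hG, ← Real.rpow_natCast, ← Real.rpow_mul hg0]
    norm_num
  have hA : (531441 * (s : ℝ) ^ 2) * (8 * (g : ℝ) ^ (-(1 / 4) : ℝ)) ≤ (2 * G ^ 3)⁻¹ := by
    rw [hg4]
    have h2 : 531441 * (s : ℝ) ^ 2 ≤ G / 16 := by linarith
    calc (531441 * (s : ℝ) ^ 2) * (8 * (G ^ 4)⁻¹) ≤ (G / 16) * (8 * (G ^ 4)⁻¹) := by
          refine mul_le_mul_of_nonneg_right h2 (by positivity)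
      _ = (2 * G ^ 3)⁻¹ := by
          field_simp
          norm_num
  have hB : (2 * g : ℝ) ^ t ≤ (2 * G ^ 2) ^ s := by
    rw [mul_pow, mul_pow]
    refine mul_le_mul ?_ ?_ (by positivity) (by positivity)
    · exact pow_le_pow_right₀ (by norm_num) (by omega)
    · rw [hg16, ← pow_mul, ← pow_mul]
      exact pow_le_pow_right₀ hG1 (by omega)
  have hC : (531441 * (s : ℝ) ^ 2) ^ s * (8 * (g : ℝ) ^ (-(1 / 4) : ℝ)) ^ s
      ≤ ((2 * G ^ 3) ^ s)⁻¹ := by
    rw [← mul_pow, ← inv_pow]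
    refine pow_le_pow_left₀ ?_ hA s
    rw [hg4]
    positivity
  have hD : (g : ℝ) * ((2 * g : ℝ) ^ t * ((531441 * (s : ℝ) ^ 2) ^ s *
      (8 * (g : ℝ) ^ (-(1 / 4) : ℝ)) ^ s)) ≤ (g : ℝ)⁻¹ := by
    calc (g : ℝ) * ((2 * g : ℝ) ^ t * ((531441 * (s : ℝ) ^ 2) ^ s *
        (8 * (g : ℝ) ^ (-(1 / 4) : ℝ)) ^ s))
        ≤ (g : ℝ) * ((2 * G ^ 2) ^ s * ((2 * G ^ 3) ^ s)⁻¹) := by
          refine mul_le_mul_of_nonneg_left ?_ hg0
          refine mul_le_mul hB hC ?_ (by positivity)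
          rw [hg4]
          positivity
      _ = G ^ 16 * (G ^ s)⁻¹ := by
          rw [← hg16]
          congr 1
          rw [show (2 : ℝ) * G ^ 3 = 2 * G ^ 2 * G by ring, mul_pow (2 * G ^ 2) G s, mul_inv]
          rw [← mul_assoc, mul_inv_cancel₀ (by positivity), one_mul]
      _ ≤ G ^ 16 * (G ^ 32)⁻¹ := by
          refine mul_le_mul_of_nonneg_left ?_ (by positivity)
          refine inv_anti₀ (by positivity) ?_
          exact pow_le_pow_right₀ hG1 (by omega)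
      _ = (g : ℝ)⁻¹ := by
          rw [hg16]
          field_simp
  calc (g : ℝ) * ((2 * g : ℝ) ^ t * ((531441 * (s : ℝ) ^ 2) ^ s *
      ((8 * (g : ℝ) ^ (-(1 / 4) : ℝ)) ^ s * 2 ^ g)))
      = ((g : ℝ) * ((2 * g : ℝ) ^ t * ((531441 * (s : ℝ) ^ 2) ^ s *
      (8 * (g : ℝ) ^ (-(1 / 4) : ℝ)) ^ s))) * 2 ^ g := by ring
    _ ≤ (g : ℝ)⁻¹ * 2 ^ g := mul_le_mul_of_nonneg_right hD (by positivity)

open Classical in
theorem tc {G X : Type} [Group G] [Fintype G] [MulAction G X] [Fintype X] [DecidableEq X]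
    {κ : Type} [Fintype κ] [MulAction.IsPretransitive G X] (c : G) (g : ℕ) (hA : Act G X c g)
    (hg : 10 ^ 10 ≤ g) (S : κ → Submodule (MonoidAlgebra ℚ G) (VV ℚ G X))
    (hS : ∀ i, IsSimpleModule (MonoidAlgebra ℚ G) (S i)) (hodd : ∀ i, OddM c (S i))
    (hinj : ∀ i j, Nonempty (S i ≃ₗ[MonoidAlgebra ℚ G] S j) → i = j) (h2 : ∀ i, dM (S i) = 2)
    (hcard : Fintype.card κ ≤ g) (s : ℕ) (hs : 64 ≤ s) (h13 : (s : ℝ) ≤ (g : ℝ) ^ (1 / 8 : ℝ))
    (h1 : (16 : ℝ) * 531441 * (s : ℝ) ^ 2 ≤ (g : ℝ) ^ (1 / 16 : ℝ)) :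
    ((Finset.univ.filter fun Φ : Finset X => CMType c Φ ∧ ∃ (a : κ) (F W : Finset κ),
        F.card = s ∧ 8 * W.card ≤ s ∧
        (∀ b ∈ F, b ∈ W ∨ ∃ b' ∈ W, ∃ d ∈ W, Rel (fun i => kerM (S i)) a b b' d) ∧
        (∀ i ∈ F, Φ ∈ badC c (S i))).card : ℝ)
      ≤ (g : ℝ)⁻¹ * 2 ^ g := by
  have hX : Nonempty X := by
    have h3 : 0 < Fintype.card X := by
      rw [hA.card]
      have := hA.pos
      omega
    exact Fintype.card_pos_iff.1 h3
  set k : κ → Subgroup G := fun i => kerM (S i) with hk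
  let 𝒲 : Finset (Finset κ) := Finset.univ.filter fun W : Finset κ => W.card ≤ s / 8
  let H : κ → Finset κ → Finset κ := fun a W =>
    Finset.univ.filter fun b => b ∈ W ∨ ∃ b' ∈ W, ∃ d ∈ W, Rel k a b b' d
  let bad : Finset κ → Finset (Finset X) := fun F =>
    Finset.univ.filter fun Φ : Finset X => CMType c Φ ∧ ∀ i ∈ F, Φ ∈ badC c (S i)
  have hsub : (Finset.univ.filter fun Φ : Finset X => CMType c Φ ∧ ∃ (a : κ) (F W : Finset κ),
        F.card = s ∧ 8 * W.card ≤ s ∧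
        (∀ b ∈ F, b ∈ W ∨ ∃ b' ∈ W, ∃ d ∈ W, Rel (fun i => kerM (S i)) a b b' d) ∧
        (∀ i ∈ F, Φ ∈ badC c (S i))) ⊆
      (Finset.univ : Finset κ).biUnion fun a => 𝒲.biUnion fun W =>
        (Finset.powersetCard s (H a W)).biUnion bad := by
    intro Φ hΦ
    rw [Finset.mem_filter] at hΦ
    obtain ⟨-, hcm, a, F, W, hF, hW, hFW, hbad⟩ := hΦ
    rw [Finset.mem_biUnion]
    refine ⟨a, Finset.mem_univ _, ?_⟩
    rw [Finset.mem_biUnion]
    refine ⟨W, Finset.mem_filter.2 ⟨Finset.mem_univ _, by omega⟩, ?_⟩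
    rw [Finset.mem_biUnion]
    refine ⟨F, Finset.mem_powersetCard.2 ⟨?_, hF⟩, ?_⟩
    · intro b hb
      exact Finset.mem_filter.2 ⟨Finset.mem_univ _, hFW b hb⟩
    · exact Finset.mem_filter.2 ⟨Finset.mem_univ _, hcm, hbad⟩
  -- the bound for one family
  have hbad : ∀ F : Finset κ, F.card = s →
      ((bad F).card : ℝ) ≤ (8 * (g : ℝ) ^ (-(1 / 4) : ℝ)) ^ s * 2 ^ g := by
    intro F hF
    have h3 := joint (κ := F) c g hA hg (fun i => S i.1) (fun i => hS i.1) (fun i => hodd i.1)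
      (fun i j hij => Subtype.ext (hinj i.1 j.1 hij)) (fun i => h2 i.1)
      (by rw [Fintype.card_coe, hF]; exact h13)
    rw [Fintype.card_coe, hF] at h3
    refine le_trans ?_ h3
    have h4 : bad F ⊆ Finset.univ.filter fun Φ : Finset X =>
        CMType c Φ ∧ ∀ i : F, Φ ∈ badC c (S i.1) := by
      intro Φ hΦ
      rw [Finset.mem_filter] at hΦ ⊢
      exact ⟨hΦ.1, hΦ.2.1, fun i => hΦ.2.2 i.1 i.2⟩
    exact_mod_cast Finset.card_le_card h4
  -- the size of `H`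
  have hH : ∀ a, ∀ W ∈ 𝒲, (H a W).card ≤ 531441 * s ^ 2 := by
    intro a W hW
    have hWs : W.card ≤ s / 8 := (Finset.mem_filter.1 hW).2
    have h3 : H a W ⊆ W ∪ (W ×ˢ W).biUnion fun p =>
        Finset.univ.filter fun b => k a ⊓ k p.1 ⊓ k p.2 ≤ k b := by
      intro b hb
      rw [Finset.mem_filter] at hb
      rcases hb.2 with h | ⟨b', hb', d, hd, hrel⟩
      · exact Finset.mem_union_left _ h
      · refine Finset.mem_union_right _ (Finset.mem_biUnion.2 ⟨(b', d),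
          Finset.mem_product.2 ⟨hb', hd⟩, ?_⟩)
        exact Finset.mem_filter.2 ⟨Finset.mem_univ _, hrel.2.1⟩
    have h4 : ((W ×ˢ W).biUnion fun p =>
        Finset.univ.filter fun b => k a ⊓ k p.1 ⊓ k p.2 ≤ k b).card ≤
        (W ×ˢ W).card * 531441 :=
      Finset.card_biUnion_le_card_mul _ _ _ fun p _ => three_card S hS hinj h2 a p.1 p.2
    have h5 := (Finset.card_le_card h3).trans (Finset.card_union_le _ _)
    rw [Finset.card_product] at h4
    have h6 : W.card * W.card ≤ (s / 8) * (s / 8) := Nat.mul_le_mul hWs hWs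
    have h7 : s / 8 ≤ (s / 8) * (s / 8) := Nat.le_mul_self _
    have h8 : 2 * ((s / 8) * (s / 8)) ≤ s ^ 2 := by
      have h9 : s / 8 ≤ s / 2 := Nat.div_le_div_left (by norm_num) (by norm_num)
      have h10 : 2 * (s / 8) ≤ s := by omega
      have h11 : s / 8 ≤ s := Nat.div_le_self _ _
      calc 2 * ((s / 8) * (s / 8)) = (2 * (s / 8)) * (s / 8) := by ring
        _ ≤ s * s := Nat.mul_le_mul h10 h11
        _ = s ^ 2 := (sq s).symm
    omega
  have h𝒲 : (𝒲.card : ℝ) ≤ (2 * g : ℝ) ^ (s / 8) := by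
    have h3 := card_small_sets (κ := κ) (s / 8)
    have h4 : (Fintype.card κ + 1) ^ (s / 8) ≤ (2 * g) ^ (s / 8) := by
      refine Nat.pow_le_pow_left ?_ _
      omega
    exact_mod_cast h3.trans h4
  have hpc : ∀ a, ∀ W ∈ 𝒲, ((Finset.powersetCard s (H a W)).card : ℝ) ≤
      (531441 * (s : ℝ) ^ 2) ^ s := by
    intro a W hW
    rw [Finset.card_powersetCard]
    have h3 := (choose_le (H a W).card s).trans (Nat.pow_le_pow_left (hH a W hW) s)
    exact_mod_cast h3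
  have hB0 : (0 : ℝ) ≤ (8 * (g : ℝ) ^ (-(1 / 4) : ℝ)) ^ s * 2 ^ g := by positivity
  calc _ ≤ (((Finset.univ : Finset κ).biUnion fun a => 𝒲.biUnion fun W =>
        (Finset.powersetCard s (H a W)).biUnion bad).card : ℝ) := by
        exact_mod_cast Finset.card_le_card hsub
    _ ≤ ((Finset.univ : Finset κ).card : ℝ) * ((2 * g : ℝ) ^ (s / 8) *
        ((531441 * (s : ℝ) ^ 2) ^ s * ((8 * (g : ℝ) ^ (-(1 / 4) : ℝ)) ^ s * 2 ^ g))) := by
        refine card_biUnion_real _ _ _ fun a _ => ?_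
        have h3 := card_biUnion_real 𝒲 (fun W => (Finset.powersetCard s (H a W)).biUnion bad)
          ((531441 * (s : ℝ) ^ 2) ^ s * ((8 * (g : ℝ) ^ (-(1 / 4) : ℝ)) ^ s * 2 ^ g)) ?_
        · refine h3.trans (mul_le_mul_of_nonneg_right h𝒲 (by positivity))
        · intro W hW
          have h4 := card_biUnion_real (Finset.powersetCard s (H a W)) bad
            ((8 * (g : ℝ) ^ (-(1 / 4) : ℝ)) ^ s * 2 ^ g)
            (fun F hF => hbad F (Finset.mem_powersetCard.1 hF).2)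
          exact h4.trans (mul_le_mul_of_nonneg_right (hpc a W hW) hB0)
    _ ≤ (g : ℝ) * ((2 * g : ℝ) ^ (s / 8) *
        ((531441 * (s : ℝ) ^ 2) ^ s * ((8 * (g : ℝ) ^ (-(1 / 4) : ℝ)) ^ s * 2 ^ g))) := by
        refine mul_le_mul_of_nonneg_right ?_ (by positivity)
        rw [Finset.card_univ]
        exact_mod_cast hcard
    _ ≤ (g : ℝ)⁻¹ * 2 ^ g := numeric g s (s / 8) hg hs (by omega) h1

end Pool.Agent.Lib.MP_938ce2_ag_rr
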