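import Mathlib
import Pool.Agent.Lib.MP_938ce2_ag_rr.TA
import Pool.Agent.Lib.MP_938ce2_ag_rr.TB
import Pool.Agent.Lib.MP_938ce2_ag_rr.TC

/-!
Row TD (110 lines). Few related pairs outside a small share of the CM types.

RECIPE. Let `Φ` be in the set, with witnesses `a, F`, `T = {i : Φ ∈ badC c (S i)}`. `ta` (with `two_card`, `three_card`) gives `F' ⊆ F`; `s = F'.card` satisfies
`10^11 ≤ s ≤ T.card ≤ (log g)^2`, so `Φ` is in the set of `tb` or in the set of `tc` for this `s`. For `g ≥ g₀` and all `s ≤ (log g)^2` the numerical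
hypotheses of `tb` and `tc` hold (`(log g)^n = o(g^ε)`: `isLittleO_log_rpow_rpow_atTop` or `Real.log_le_rpow_div`). The union over the at most
`(log g)^2 + 1` values of `s` has at most `2 ((log g)^2 + 1) / g * 2^g ≤ η * 2^g` elements.
-/

set_option autoImplicit false
set_option linter.unusedSectionVars false
set_option linter.unusedVariables false

namespace Pool.Agent.Lib.MP_938ce2_ag_rr

open Finset Module MonoidAlgebra
open Pool.Agent.Lib.MP_938ce2_ag_h67 (sg VV ev mkV kerM mem_kerM ev_ext ev_single ev_add ev_smul)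
open Pool.Agent.Lib.MP_938ce2_ag_h60 (CMType)
open Pool.Agent.Lib.MP_938ce2_ag_u2 (Act OddM badC mem_badC dM dE dH)


private lemma ev_pow (C : ℝ) (r : ℕ) (e : ℝ) (he : 0 < e) :
    ∀ᶠ n : ℕ in Filter.atTop, C * Real.log n ^ r ≤ (n : ℝ) ^ e := by
  have h1 := (isLittleO_log_rpow_rpow_atTop (r : ℝ) he).def
    (show (0 : ℝ) < 1 / (|C| + 1) by positivity)
  have h2 := (tendsto_natCast_atTop_atTop (R := ℝ)).eventually h1
  filter_upwards [h2, Filter.eventually_ge_atTop 1] with n hn hn1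
  have hn1' : (1 : ℝ) ≤ n := by exact_mod_cast hn1
  have hl : 0 ≤ Real.log n := Real.log_nonneg hn1'
  rw [Real.rpow_natCast, Real.norm_of_nonneg (by positivity),
    Real.norm_of_nonneg (by positivity)] at hn
  have hC : C ≤ |C| + 1 := (le_abs_self C).trans (by linarith)
  calc C * Real.log n ^ r ≤ (|C| + 1) * Real.log n ^ r :=
        mul_le_mul_of_nonneg_right hC (by positivity)
    _ ≤ (|C| + 1) * (1 / (|C| + 1) * (n : ℝ) ^ e) :=
        mul_le_mul_of_nonneg_left hn (by positivity)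
    _ = (n : ℝ) ^ e := by
        have : |C| + 1 ≠ 0 := by positivity
        field_simp

private lemma ev_all (η : ℝ) (hη : 0 < η) : ∃ g₀ : ℕ, ∀ g : ℕ, g₀ ≤ g → 10 ^ 10 ≤ g ∧
    13 * Real.log g ^ 2 ≤ (g : ℝ) ^ (1 / 8 : ℝ) ∧
    ((8 : ℝ) ^ 13 * 531441 ^ 12) * Real.log g ^ 48 ≤ (g : ℝ) ^ (1 / 4 : ℝ) ∧
    ((16 : ℝ) * 531441) * Real.log g ^ 4 ≤ (g : ℝ) ^ (1 / 16 : ℝ) ∧
    (2 / η) * Real.log g ^ 2 ≤ (g : ℝ) ^ (1 / 2 : ℝ) ∧ (2 / η) ≤ (g : ℝ) ^ (1 / 2 : ℝ) := by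
  have h := (((((Filter.eventually_ge_atTop (10 ^ 10 : ℕ)).and (ev_pow 13 2 (1 / 8) (by norm_num))).and
    (ev_pow ((8 : ℝ) ^ 13 * 531441 ^ 12) 48 (1 / 4) (by norm_num))).and
    (ev_pow ((16 : ℝ) * 531441) 4 (1 / 16) (by norm_num))).and
    (ev_pow (2 / η) 2 (1 / 2) (by norm_num))).and (ev_pow (2 / η) 0 (1 / 2) (by norm_num))
  obtain ⟨g₀, hg₀⟩ := Filter.eventually_atTop.mp h
  refine ⟨g₀, fun g hg => ?_⟩
  obtain ⟨⟨⟨⟨⟨h1, h2⟩, h3⟩, h4⟩, h5⟩, h6⟩ := hg₀ g hg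
  rw [pow_zero, mul_one] at h6
  exact ⟨h1, h2, h3, h4, h5, h6⟩

open Classical in
theorem td : ∀ η : ℝ, 0 < η → ∃ g₀ : ℕ,
    ∀ (G X : Type) [Group G] [Fintype G] [MulAction G X] [Fintype X] [DecidableEq X]
    [MulAction.IsPretransitive G X] (c : G) (g : ℕ), Act G X c g → g₀ ≤ g →
    ∀ (κ : Type) [Fintype κ] (S : κ → Submodule (MonoidAlgebra ℚ G) (VV ℚ G X)),
    (∀ i, IsSimpleModule (MonoidAlgebra ℚ G) (S i)) → (∀ i, OddM c (S i)) →
    (∀ i j, Nonempty (S i ≃ₗ[MonoidAlgebra ℚ G] S j) → i = j) → (∀ i, dM (S i) = 2) →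
    Fintype.card κ ≤ g →
    ((Finset.univ.filter fun Φ : Finset X => CMType c Φ ∧
      ((Finset.univ.filter fun i => Φ ∈ badC c (S i)).card : ℝ) ≤ Real.log g ^ 2 ∧
      ∃ (a : κ) (F : Finset κ), F ⊆ (Finset.univ.filter fun i => Φ ∈ badC c (S i)) ∧
        3 * 10 ^ 11 * F.card < ((F ×ˢ F).filter fun p =>
          ∃ d ∈ Finset.univ.filter (fun i => Φ ∈ badC c (S i)),
            Rel (fun i => kerM (S i)) a p.1 p.2 d).card).card : ℝ) ≤ η * 2 ^ g := by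
  intro η hη
  obtain ⟨g₀, hg₀⟩ := ev_all η hη
  refine ⟨g₀, ?_⟩
  intro G X _ _ _ _ _ _ c g hA hg κ _ S hS hodd hinj h2 hcard
  obtain ⟨hg10, n1, n2, n3, n4, n5⟩ := hg₀ g hg
  have hX : Nonempty X := by
    rw [← Fintype.card_pos_iff, hA.card]
    omega
  have hg10' : (10 : ℝ) ^ 10 ≤ g := by exact_mod_cast hg10
  have hg0 : (0 : ℝ) < g := by
    have : (0 : ℝ) < 10 ^ 10 := by norm_num
    linarith
  have hg1 : (1 : ℝ) ≤ g := by
    have : (1 : ℝ) ≤ 10 ^ 10 := by norm_num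
    linarith
  have hL : 0 ≤ Real.log g := Real.log_nonneg hg1
  obtain ⟨K, hK⟩ : ∃ K : ℕ, K = 10 ^ 11 := ⟨_, rfl⟩
  have hK64 : 64 ≤ K := by rw [hK]; norm_num
  set N : ℕ := ⌊Real.log g ^ 2⌋₊ with hN
  have hNle : (N : ℝ) ≤ Real.log g ^ 2 := Nat.floor_le (by positivity)
  let Sb : ℕ → Finset (Finset X) := fun s => Finset.univ.filter fun Φ : Finset X => CMType c Φ ∧
        ∃ (a : κ) (F D : Finset κ), F.card = s ∧ Disjoint D F ∧ D.card = 12 * s ∧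
        (∀ d ∈ D, ∃ b ∈ F, ∃ b' ∈ F, Rel (fun i => kerM (S i)) a b b' d) ∧
        (∀ i ∈ F, Φ ∈ badC c (S i)) ∧ ∀ i ∈ D, Φ ∈ badC c (S i)
  let Sc : ℕ → Finset (Finset X) := fun s => Finset.univ.filter fun Φ : Finset X => CMType c Φ ∧
        ∃ (a : κ) (F W : Finset κ), F.card = s ∧ 8 * W.card ≤ s ∧
        (∀ b ∈ F, b ∈ W ∨ ∃ b' ∈ W, ∃ d ∈ W, Rel (fun i => kerM (S i)) a b b' d) ∧
        (∀ i ∈ F, Φ ∈ badC c (S i))
  have hsmall : ∀ s ∈ Finset.Icc K N, ((Sb s).card : ℝ) ≤ (g : ℝ)⁻¹ * 2 ^ g ∧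
      ((Sc s).card : ℝ) ≤ (g : ℝ)⁻¹ * 2 ^ g := by
    intro s hs
    rw [Finset.mem_Icc] at hs
    have hsL : (s : ℝ) ≤ Real.log g ^ 2 := by
      have : (s : ℝ) ≤ N := by exact_mod_cast hs.2
      exact this.trans hNle
    have hs0 : (0 : ℝ) ≤ s := Nat.cast_nonneg _
    have e1 : (13 * s : ℝ) ≤ (g : ℝ) ^ (1 / 8 : ℝ) := by linarith
    have e2 : (8 : ℝ) ^ 13 * 531441 ^ 12 * (s : ℝ) ^ 24 ≤ (g : ℝ) ^ (1 / 4 : ℝ) := by
      refine le_trans ?_ n2
      apply mul_le_mul_of_nonneg_left _ (by positivity)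
      calc (s : ℝ) ^ 24 ≤ (Real.log g ^ 2) ^ 24 := pow_le_pow_left₀ hs0 hsL _
        _ = Real.log g ^ 48 := by rw [← pow_mul]
    have e3 : (16 : ℝ) * 531441 * (s : ℝ) ^ 2 ≤ (g : ℝ) ^ (1 / 16 : ℝ) := by
      refine le_trans ?_ n3
      apply mul_le_mul_of_nonneg_left _ (by positivity)
      calc (s : ℝ) ^ 2 ≤ (Real.log g ^ 2) ^ 2 := pow_le_pow_left₀ hs0 hsL _
        _ = Real.log g ^ 4 := by rw [← pow_mul]
    constructor
    · exact tb c g hA hg10 S hS hodd hinj h2 hcard s (by omega) e1 e2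
    · exact tc c g hA hg10 S hS hodd hinj h2 hcard s (by omega) (by linarith) e3
  have hsub : (Finset.univ.filter fun Φ : Finset X => CMType c Φ ∧
      ((Finset.univ.filter fun i => Φ ∈ badC c (S i)).card : ℝ) ≤ Real.log g ^ 2 ∧
      ∃ (a : κ) (F : Finset κ), F ⊆ (Finset.univ.filter fun i => Φ ∈ badC c (S i)) ∧
        3 * 10 ^ 11 * F.card < ((F ×ˢ F).filter fun p =>
          ∃ d ∈ Finset.univ.filter (fun i => Φ ∈ badC c (S i)),
            Rel (fun i => kerM (S i)) a p.1 p.2 d).card)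
      ⊆ (Finset.Icc K N).biUnion fun s => Sb s ∪ Sc s := by
    intro Φ hΦ
    rw [Finset.mem_filter] at hΦ
    have hcm := hΦ.2.1
    have hT := hΦ.2.2.1
    have h5 := hΦ.2.2.2
    have h6 := h5.choose_spec
    have h7 := h6.choose_spec
    have hF := h7.1
    have hlt := h7.2
    generalize h6.choose = F at hF hlt
    generalize h5.choose = a at hlt
    have hta := ta (fun i => kerM (S i))
      (fun a b => two_card S hS hinj h2 a b) (fun a b c => three_card S hS hinj h2 a b c)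
      (Finset.univ.filter fun i => Φ ∈ badC c (S i)) a F hF (by convert hlt)
    rw [← hK] at hta
    obtain ⟨F', hF', hs, halt⟩ := hta
    have hF'T : ∀ i ∈ F', Φ ∈ badC c (S i) := fun i hi => (Finset.mem_filter.mp (hF (hF' hi))).2
    have hcardF : F'.card ≤ N := by
      apply Nat.le_floor
      refine le_trans ?_ hT
      exact_mod_cast Finset.card_le_card (hF'.trans hF)
    rw [Finset.mem_biUnion]
    refine ⟨F'.card, Finset.mem_Icc.mpr ⟨hs, hcardF⟩, ?_⟩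
    rw [Finset.mem_union]
    rcases halt with ⟨D, hDT, hdis, hDc, hrel⟩ | ⟨W, hWT, hWc, hrel⟩
    · left
      rw [Finset.mem_filter]
      exact ⟨Finset.mem_univ _, hcm, a, F', D, rfl, hdis, hDc, hrel, hF'T,
        fun i hi => (Finset.mem_filter.mp (hDT hi)).2⟩
    · right
      rw [Finset.mem_filter]
      exact ⟨Finset.mem_univ _, hcm, a, F', W, rfl, hWc, hrel, hF'T⟩
  have hp : (0 : ℝ) < 2 ^ g := by positivity
  have h1 : (((Finset.Icc K N).biUnion fun s => Sb s ∪ Sc s).card : ℝ)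
      ≤ (N + 1) * (2 * ((g : ℝ)⁻¹ * 2 ^ g)) := by
    have e1 : (((Finset.Icc K N).biUnion fun s => Sb s ∪ Sc s).card : ℝ)
        ≤ ∑ s ∈ Finset.Icc K N, (((Sb s).card : ℝ) + ((Sc s).card : ℝ)) := by
      exact_mod_cast Finset.card_biUnion_le.trans
        (Finset.sum_le_sum fun s _ => Finset.card_union_le _ _)
    refine e1.trans ?_
    calc ∑ s ∈ Finset.Icc K N, (((Sb s).card : ℝ) + ((Sc s).card : ℝ))
        ≤ ∑ _s ∈ Finset.Icc K N, (2 * ((g : ℝ)⁻¹ * 2 ^ g)) := by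
          refine Finset.sum_le_sum fun s hs => ?_
          obtain ⟨e2, e3⟩ := hsmall s hs
          linarith
      _ = ((Finset.Icc K N).card : ℝ) * (2 * ((g : ℝ)⁻¹ * 2 ^ g)) := by
          rw [Finset.sum_const, nsmul_eq_mul]
      _ ≤ (N + 1) * (2 * ((g : ℝ)⁻¹ * 2 ^ g)) := by
          apply mul_le_mul_of_nonneg_right _ (by positivity)
          have : (Finset.Icc K N).card ≤ N + 1 := by
            rw [Nat.card_Icc]
            omega
          exact_mod_cast this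
  refine (Nat.cast_le.mpr (Finset.card_le_card hsub)).trans (h1.trans ?_)
  have h3 : (g : ℝ) ^ (1 / 2 : ℝ) * (g : ℝ) ^ (1 / 2 : ℝ) = g := by
    rw [← Real.rpow_add hg0]
    norm_num
  have hh : (1 : ℝ) ≤ (g : ℝ) ^ (1 / 2 : ℝ) := Real.one_le_rpow hg1 (by norm_num)
  have h6 : (g : ℝ) ^ (1 / 2 : ℝ) * 2 ≤ g := by
    have e9 : (2 : ℝ) ≤ (g : ℝ) ^ (1 / 2 : ℝ) := by
      have e10 : ((10 : ℝ) ^ 10) ^ (1 / 2 : ℝ) ≤ (g : ℝ) ^ (1 / 2 : ℝ) :=
        Real.rpow_le_rpow (by positivity) hg10' (by norm_num)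
      have e11 : ((10 : ℝ) ^ 10) ^ (1 / 2 : ℝ) = 10 ^ 5 := by
        rw [← Real.sqrt_eq_rpow, show (10 : ℝ) ^ 10 = (10 ^ 5) ^ 2 by norm_num,
          Real.sqrt_sq (by positivity)]
      rw [e11] at e10
      linarith
    calc (g : ℝ) ^ (1 / 2 : ℝ) * 2 ≤ (g : ℝ) ^ (1 / 2 : ℝ) * (g : ℝ) ^ (1 / 2 : ℝ) :=
          mul_le_mul_of_nonneg_left e9 (by positivity)
      _ = g := h3
  have h4 : (N + 1 : ℝ) * 2 ≤ η * g := by
    have e1 : (2 / η) * (Real.log g ^ 2 + 1) ≤ g := by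
      calc (2 / η) * (Real.log g ^ 2 + 1) = (2 / η) * Real.log g ^ 2 + (2 / η) := by ring
        _ ≤ (g : ℝ) ^ (1 / 2 : ℝ) + (g : ℝ) ^ (1 / 2 : ℝ) := add_le_add n4 n5
        _ = (g : ℝ) ^ (1 / 2 : ℝ) * 2 := by ring
        _ ≤ g := h6
    have e2 : 2 * (Real.log g ^ 2 + 1) ≤ η * g := by
      have e3 : 2 * (Real.log g ^ 2 + 1) = η * ((2 / η) * (Real.log g ^ 2 + 1)) := by
        field_simp
      rw [e3]
      exact mul_le_mul_of_nonneg_left e1 hη.le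
    linarith
  calc (N + 1 : ℝ) * (2 * ((g : ℝ)⁻¹ * 2 ^ g)) = ((N + 1 : ℝ) * 2) * (g : ℝ)⁻¹ * 2 ^ g := by ring
    _ ≤ (η * g) * (g : ℝ)⁻¹ * 2 ^ g := by
        apply mul_le_mul_of_nonneg_right _ hp.le
        exact mul_le_mul_of_nonneg_right h4 (by positivity)
    _ = η * 2 ^ g := by
        rw [mul_assoc η, mul_inv_cancel₀ hg0.ne', mul_one]

end Pool.Agent.Lib.MP_938ce2_ag_rr
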