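import Mathlib
import Pool.Agent.Lib.MP_938ce2_ag_rr.TSD
import Pool.Agent.Lib.MP_938ce2_ag_rr.SP
import Pool.Agent.Lib.MP_938ce2_ag_rr.RC
import Pool.Agent.Lib.MP_938ce2_ag_rr.TD
import Pool.Agent.Lib.MP_938ce2_ag_sub.S11

/-!
Row ML (200 lines, as `main_sub` in `MP_938ce2_ag_sub/S11.lean`). Linear codimension for `G`-sets.

RECIPE. `A` = the constant of `TS` (absolute), `κ = 1 / (32 max A (10^20))`. Given `η`: first exceptional set: `#{i : dM (S i) = 2 ∧ Φ ∈ badC c (S i)} > (log g)^2`; by `I2`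
(constant `C2`), the private lemmas `sum_N`, `markov` of S11 (copy them) its share is at most `C2 log g / (log g)^2 ≤ η/4` for `g ≥ g₀`. Second exceptional set: `I3` with
`η/4`. Third: `TS` with `η/4`. Fourth: `td (η/4)` for `κ = {i // dM (S i) = 2}` (at most `g` elements: `∑ k i * dM (S i) ≤ g`, `1 ≤ k i` from `u3.odd_numbers`). Outside all
four: `supp4` with `A` and `B = 10^20` (`rest_fourth`), as in the private theorem `gen_of_good` of S11: `2 g ≤ 8 max A B * (4 J)`, but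
`8 max A B * (4 J) ≤ 32 max A B * κ * g = g`. Contradiction.
-/

set_option autoImplicit false
set_option linter.unusedSectionVars false

namespace Pool.Agent.Lib.MP_938ce2_ag_rr

open Finset Module MonoidAlgebra
open Pool.Agent.Lib.MP_938ce2_ag_h67 (sg VV ev mkV kerM)
open Pool.Agent.Lib.MP_938ce2_ag_h60 (CMType)
open Pool.Agent.Lib.MP_938ce2_ag_h65 (GeneratedUpTo)
open Pool.Agent.Lib.MP_938ce2_ag_u2 (Act OddM badC mem_badC dM dE dH)
open Pool.Agent.Lib.MP_938ce2_ag_sub (Rest ZZ Quad mem_ZZ I2 I3)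

/-- a CM type outside the four exceptional sets has no exceptional class of small codimension -/
private theorem gen_of_good4 {G X : Type} [Group G] [Fintype G] [MulAction G X] [Fintype X]
    [DecidableEq X] [MulAction.IsPretransitive G X] {c : G} {g : ℕ} (hA : Act G X c g)
    (x₀ : X) {Φ : Finset X} (hΦ : CMType c Φ) (A B : ℝ) (hA0 : 0 < A) (hB0 : 0 ≤ B)
    (hS : ∀ b : Finset X → ℝ, ∑ x, (∑ U ∈ ZZ G c x₀ Φ, b U * (sg U x : ℝ)) ^ 4
      ≤ A * (2 * g) * (∑ U ∈ ZZ G c x₀ Φ, b U ^ 2) ^ 2)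
    (hR : ∀ f ∈ Rest G c x₀ Φ,
      (Fintype.card X : ℝ) * ∑ x, (f x : ℝ) ^ 4 ≤ B * (∑ x, (f x : ℝ) ^ 2) ^ 2)
    (J : ℕ) (hJ : (J : ℝ) ≤ 1 / (32 * max A B) * g) : GeneratedUpTo G J Φ := by
  by_contra hbad
  obtain ⟨τ, hne, hsum⟩ := Pool.Agent.Lib.MP_938ce2_ag_h65.exists_vec_of_not_generated
    hA.comm hA.sq hA.free hΦ hbad
  have hg1 : (1 : ℝ) ≤ g := by exact_mod_cast hA.pos
  have hM : 0 < max A B := lt_of_lt_of_le hA0 (le_max_left _ _)
  have hodd : ∀ x, Pool.Agent.Lib.MP_938ce2_ag_h65.vec c τ (c • x)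
      = - Pool.Agent.Lib.MP_938ce2_ag_h65.vec c τ x := fun x =>
    Pool.Agent.Lib.MP_938ce2_ag_h65.vec_odd hA.sq τ x
  have hf : ∀ σ : G, ∑ x, sg Φ x * Pool.Agent.Lib.MP_938ce2_ag_h65.vec c τ (σ • x) = 0 := by
    intro σ
    rw [Pool.Agent.Lib.MP_938ce2_ag_u2.DegAux.sum_sg_odd hA hΦ
      (fun x => Pool.Agent.Lib.MP_938ce2_ag_h65.vec c τ (σ • x)), hsum, mul_zero]
    intro x
    rw [smul_smul, ← hA.comm, ← smul_smul, hodd]
  have h1 := supp4 hA x₀ Φ hΦ A B hA0.le hB0 hS hR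
    (Pool.Agent.Lib.MP_938ce2_ag_h65.vec c τ) hodd hf hne
  have h2 := Pool.Agent.Lib.MP_938ce2_ag_h65.card_supp_vec c τ Finset.univ
  have h4 : ((Finset.univ.filter fun x =>
      Pool.Agent.Lib.MP_938ce2_ag_h65.vec c τ x ≠ 0).card : ℝ) ≤ 4 * J := by
    have e1 : (Finset.univ.filter fun x =>
      Pool.Agent.Lib.MP_938ce2_ag_h65.vec c τ x ≠ 0).card ≤ 4 * J := by omega
    exact_mod_cast e1
  have h5 : (2 * g : ℝ) ≤ 8 * max A B * (4 * J) :=
    h1.trans (mul_le_mul_of_nonneg_left h4 (by positivity))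
  have h6 : 8 * max A B * (4 * (J : ℝ)) ≤ g := by
    have e1 : 8 * max A B * (4 * (J : ℝ)) ≤ 8 * max A B * (4 * (1 / (32 * max A B) * g)) :=
      mul_le_mul_of_nonneg_left (by linarith) (by positivity)
    have e2 : 8 * max A B * (4 * (1 / (32 * max A B) * g)) = g := by
      field_simp
      ring
    rw [e2] at e1
    exact e1
  linarith

open Classical in
/-- the sum of the numbers of the modules of dimension two orthogonal to the CM types -/
private theorem ml_sum_N {G X : Type} [Group G] [Fintype G] [MulAction G X] [Fintype X]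
    [DecidableEq X] {c : G} {g : ℕ} (hg : 1 ≤ g) (b : ℝ) (hb : 0 ≤ b) {ι : Type} [Fintype ι]
    (S : ι → Submodule (MonoidAlgebra ℚ G) (VV ℚ G X)) (k : ι → ℕ) (hk : ∀ i, 1 ≤ k i)
    (hsum : ∑ i, k i * dM (S i) ≤ g)
    (h2 : ∀ i, dM (S i) = 2 → ((badC c (S i)).card : ℝ) ≤ b / g) :
    ∑ Φ : Finset X, ((Finset.univ.filter fun i => dM (S i) = 2 ∧ Φ ∈ badC c (S i)).card : ℝ)
      ≤ b := by
  have hg0 : (0 : ℝ) < g := by exact_mod_cast hg
  have e1 : ∀ Φ : Finset X,
      ((Finset.univ.filter fun i => dM (S i) = 2 ∧ Φ ∈ badC c (S i)).card : ℝ)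
        = ∑ i, if dM (S i) = 2 ∧ Φ ∈ badC c (S i) then (1 : ℝ) else 0 := by
    intro Φ
    rw [Finset.card_filter]
    push_cast
    rfl
  rw [Finset.sum_congr rfl fun Φ _ => e1 Φ, Finset.sum_comm]
  have e2 : ∀ i, ∑ Φ : Finset X, (if dM (S i) = 2 ∧ Φ ∈ badC c (S i) then (1 : ℝ) else 0)
      ≤ ((k i * dM (S i) : ℕ) : ℝ) * (b / g) := by
    intro i
    by_cases h : dM (S i) = 2
    · have e3 : ∑ Φ : Finset X, (if dM (S i) = 2 ∧ Φ ∈ badC c (S i) then (1 : ℝ) else 0)
          = ((badC c (S i)).card : ℝ) := by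
        simp only [h, true_and]
        rw [Finset.sum_boole, Finset.filter_mem_eq_inter, Finset.univ_inter]
      rw [e3]
      have e4 : (1 : ℝ) ≤ ((k i * dM (S i) : ℕ) : ℝ) := by
        have := hk i
        have e5 : 1 ≤ k i * dM (S i) := by
          rw [h]
          omega
        exact_mod_cast e5
      calc ((badC c (S i)).card : ℝ) ≤ b / g := h2 i h
        _ = 1 * (b / g) := (one_mul _).symm
        _ ≤ ((k i * dM (S i) : ℕ) : ℝ) * (b / g) :=
            mul_le_mul_of_nonneg_right e4 (by positivity)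
    · have e3 : ∑ Φ : Finset X, (if dM (S i) = 2 ∧ Φ ∈ badC c (S i) then (1 : ℝ) else 0) = 0 :=
        Finset.sum_eq_zero fun Φ _ => if_neg fun hh => h hh.1
      rw [e3]
      positivity
  refine (Finset.sum_le_sum fun i _ => e2 i).trans ?_
  rw [← Finset.sum_mul, ← Nat.cast_sum]
  have e6 : ((∑ i, k i * dM (S i) : ℕ) : ℝ) ≤ g := by exact_mod_cast hsum
  calc ((∑ i, k i * dM (S i) : ℕ) : ℝ) * (b / g) ≤ g * (b / g) :=
        mul_le_mul_of_nonneg_right e6 (by positivity)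
    _ = b := by field_simp

open Classical in
/-- Markov's inequality -/
private theorem ml_markov {T : Type} [Fintype T] (N : T → ℕ) (a b : ℝ) (ha : 0 < a)
    (h : ∑ t, (N t : ℝ) ≤ b) : ((Finset.univ.filter fun t => a < (N t : ℝ)).card : ℝ) ≤ b / a := by
  rw [le_div_iff₀ ha]
  calc ((Finset.univ.filter fun t => a < (N t : ℝ)).card : ℝ) * a
      = ∑ t ∈ Finset.univ.filter fun t => a < (N t : ℝ), a := by
        rw [Finset.sum_const, nsmul_eq_mul]
    _ ≤ ∑ t ∈ Finset.univ.filter fun t => a < (N t : ℝ), (N t : ℝ) :=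
        Finset.sum_le_sum fun t ht => ((Finset.mem_filter.mp ht).2).le
    _ ≤ ∑ t, (N t : ℝ) :=
        Finset.sum_le_sum_of_subset_of_nonneg (Finset.filter_subset _ _)
          fun t _ _ => Nat.cast_nonneg _
    _ ≤ b := h

theorem main_lin (h2 : I2) (h3 : I3) (hS : TS) : ∃ κ : ℝ, 0 < κ ∧ ∀ η : ℝ, 0 < η → ∃ g₀ : ℕ,
    ∀ (G X : Type) [Group G] [Fintype G] [MulAction G X] [Fintype X] [DecidableEq X]
      [MulAction.IsPretransitive G X] (c : G) (g : ℕ), Act G X c g → g₀ ≤ g → ∀ J : ℕ,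
      (J : ℝ) ≤ κ * g →
      (Nat.card {Φ : Finset X // CMType c Φ ∧ ¬ GeneratedUpTo G J Φ} : ℝ) ≤ η * 2 ^ g := by
  obtain ⟨C, hC, hI2⟩ := h2
  obtain ⟨A, hA0, hTS⟩ := hS
  have hM : 0 < max A (10 ^ 20 : ℝ) := lt_of_lt_of_le hA0 (le_max_left _ _)
  refine ⟨1 / (32 * max A (10 ^ 20)), by positivity, ?_⟩
  intro η hη
  obtain ⟨g₁, hI3⟩ := h3 (η / 4) (by positivity)
  obtain ⟨g₂, hS4⟩ := hTS (η / 4) (by positivity)
  obtain ⟨g₃, hTD⟩ := td (η / 4) (by positivity)
  refine ⟨max (max (max 2 g₁) (max g₂ g₃)) ⌈Real.exp (4 * C / η)⌉₊, ?_⟩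
  intro G X _ _ _ _ _ _ c g hA hg J hJ
  classical
  have hg' : max (max 2 g₁) (max g₂ g₃) ≤ g := (le_max_left _ _).trans hg
  have hg2 : 2 ≤ g := (le_max_left _ _).trans ((le_max_left _ _).trans hg')
  have hg1 : g₁ ≤ g := (le_max_right _ _).trans ((le_max_left _ _).trans hg')
  have hgS : g₂ ≤ g := (le_max_left _ _).trans ((le_max_right _ _).trans hg')
  have hgT : g₃ ≤ g := (le_max_right _ _).trans ((le_max_right _ _).trans hg')
  have hgE : Real.exp (4 * C / η) ≤ g := Nat.ceil_le.mp ((le_max_right _ _).trans hg)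
  have hg2' : (2 : ℝ) ≤ g := by exact_mod_cast hg2
  have hg0 : (0 : ℝ) < g := by linarith
  have hlg0 : 0 < Real.log g := Real.log_pos (by linarith)
  have hlgE : 4 * C / η ≤ Real.log g := (Real.le_log_iff_exp_le hg0).2 hgE
  have hX : Nonempty X := by
    rw [← Fintype.card_pos_iff, hA.card]
    omega
  obtain ⟨x₀⟩ := hX
  obtain ⟨ι, hι, S, k, hS, hodd, hall, hinj, hk, -, hsum⟩ :=
    Pool.Agent.Lib.MP_938ce2_ag_u3.odd_numbers hA
  have hp : (0 : ℝ) < 2 ^ g := by positivity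
  have hmap : ∀ Φ : Finset X, Finset.univ.filter (fun i => dM (S i) = 2 ∧ Φ ∈ badC c (S i))
      = (Finset.univ.filter fun i : {i : ι // dM (S i) = 2} => Φ ∈ badC c (S i.1)).map
        (Function.Embedding.subtype fun i => dM (S i) = 2) := by
    intro Φ
    ext i
    rw [Finset.mem_filter, Finset.mem_map]
    constructor
    · rintro ⟨_, h5, h6⟩
      refine ⟨⟨i, h5⟩, ?_, rfl⟩
      rw [Finset.mem_filter]
      exact ⟨Finset.mem_univ _, h6⟩
    · rintro ⟨j, hj, rfl⟩
      rw [Finset.mem_filter] at hj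
      exact ⟨Finset.mem_univ _, j.2, hj.2⟩
  have hcardκ : Fintype.card {i : ι // dM (S i) = 2} ≤ g := by
    rw [Fintype.card_subtype]
    calc (Finset.univ.filter fun i => dM (S i) = 2).card
        = ∑ i ∈ Finset.univ.filter fun i => dM (S i) = 2, 1 := by
          rw [Finset.sum_const, smul_eq_mul, mul_one]
      _ ≤ ∑ i ∈ Finset.univ.filter fun i => dM (S i) = 2, k i * dM (S i) := by
          refine Finset.sum_le_sum fun i hi => ?_
          rw [Finset.mem_filter] at hi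
          rw [hi.2]
          have := hk i
          omega
      _ ≤ ∑ i, k i * dM (S i) :=
          Finset.sum_le_sum_of_subset_of_nonneg (Finset.filter_subset _ _)
            fun i _ _ => Nat.zero_le _
      _ ≤ g := hsum
  -- the first exceptional set
  have hE1 : ((Finset.univ.filter fun Φ : Finset X => Real.log g ^ 2
      < ((Finset.univ.filter fun i => dM (S i) = 2 ∧ Φ ∈ badC c (S i)).card : ℝ)).card : ℝ)
      ≤ η / 4 * 2 ^ g := by
    have e1 := ml_sum_N (c := c) (g := g) (by omega) (C * Real.log g * 2 ^ g) (by positivity) S k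
      hk hsum (fun i hi => by
        have e2 := hI2 G X c g hA hg2 (S i) (hS i) (hodd i) hi
        rw [div_le_iff₀ hp] at e2
        refine e2.trans (le_of_eq ?_)
        ring)
    have e3 := ml_markov (fun Φ : Finset X => (Finset.univ.filter fun i =>
      dM (S i) = 2 ∧ Φ ∈ badC c (S i)).card) (Real.log g ^ 2) (C * Real.log g * 2 ^ g)
      (by positivity) e1
    refine e3.trans ?_
    rw [div_le_iff₀ (by positivity)]
    rw [div_le_iff₀ hη] at hlgE
    have e4 : C * Real.log g ≤ η / 4 * Real.log g ^ 2 := by nlinarith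
    calc C * Real.log g * 2 ^ g ≤ η / 4 * Real.log g ^ 2 * 2 ^ g :=
          mul_le_mul_of_nonneg_right e4 hp.le
      _ = η / 4 * 2 ^ g * Real.log g ^ 2 := by ring
  -- the second exceptional set
  have hE2 : ((Finset.univ.filter fun Φ : Finset X =>
      ∃ i, 3 ≤ dM (S i) ∧ Φ ∈ badC c (S i)).card : ℝ) ≤ η / 4 * 2 ^ g := by
    have e1 := hI3 G X c g hA hg1 {i : ι // 3 ≤ dM (S i)} (fun i => S i.1) (fun i => hS i.1)
      (fun i => hodd i.1) (fun i j hij => Subtype.ext (hinj i.1 j.1 hij)) (fun i => i.2)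
    rw [← Finset.sum_div, div_le_iff₀ hp] at e1
    refine le_trans ?_ e1
    have e2 : (Finset.univ.filter fun Φ : Finset X => ∃ i, 3 ≤ dM (S i) ∧ Φ ∈ badC c (S i))
        ⊆ (Finset.univ : Finset {i : ι // 3 ≤ dM (S i)}).biUnion fun i => badC c (S i.1) := by
      intro Φ hΦ
      rw [Finset.mem_filter] at hΦ
      obtain ⟨-, i, hi, hb⟩ := hΦ
      rw [Finset.mem_biUnion]
      exact ⟨⟨i, hi⟩, Finset.mem_univ _, hb⟩
    exact_mod_cast (Finset.card_le_card e2).trans Finset.card_biUnion_le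
  -- the third exceptional set
  have hE3 := hS4 G X c g hA hgS x₀
  -- the fourth exceptional set
  have hE4 := hTD G X c g hA hgT {i : ι // dM (S i) = 2} (fun i => S i.1) (fun i => hS i.1)
    (fun i => hodd i.1) (fun i j hij => Subtype.ext (hinj i.1 j.1 hij)) (fun i => i.2) hcardκ
  -- all others are good
  set E1 : Finset (Finset X) := Finset.univ.filter fun Φ : Finset X => Real.log g ^ 2
      < ((Finset.univ.filter fun i => dM (S i) = 2 ∧ Φ ∈ badC c (S i)).card : ℝ) with hE1def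
  set E2 : Finset (Finset X) := Finset.univ.filter fun Φ : Finset X =>
      ∃ i, 3 ≤ dM (S i) ∧ Φ ∈ badC c (S i) with hE2def
  set E3 : Finset (Finset X) := Finset.univ.filter fun Φ : Finset X => CMType c Φ ∧
      ∃ b : Finset X → ℝ, A * (2 * g) * (∑ U ∈ ZZ G c x₀ Φ, b U ^ 2) ^ 2
        < ∑ x, (∑ U ∈ ZZ G c x₀ Φ, b U * (sg U x : ℝ)) ^ 4 with hE3def
  set E4 : Finset (Finset X) := Finset.univ.filter fun Φ : Finset X => CMType c Φ ∧
      ((Finset.univ.filter fun i : {i : ι // dM (S i) = 2} => Φ ∈ badC c (S i.1)).card : ℝ)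
        ≤ Real.log g ^ 2 ∧
      ∃ (a : {i : ι // dM (S i) = 2}) (F : Finset {i : ι // dM (S i) = 2}),
        F ⊆ (Finset.univ.filter fun i : {i : ι // dM (S i) = 2} => Φ ∈ badC c (S i.1)) ∧
        3 * 10 ^ 11 * F.card < ((F ×ˢ F).filter fun p =>
          ∃ d ∈ Finset.univ.filter (fun i : {i : ι // dM (S i) = 2} => Φ ∈ badC c (S i.1)),
            Rel (fun i : {i : ι // dM (S i) = 2} => kerM (S i.1)) a p.1 p.2 d).card with hE4def
  have hsub : (Finset.univ.filter fun Φ : Finset X => CMType c Φ ∧ ¬ GeneratedUpTo G J Φ)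
      ⊆ (E1 ∪ E2) ∪ (E3 ∪ E4) := by
    intro Φ hΦ
    rw [Finset.mem_filter] at hΦ
    obtain ⟨-, hcm, hbad⟩ := hΦ
    by_contra hcon
    rw [Finset.mem_union, Finset.mem_union, Finset.mem_union] at hcon
    push Not at hcon
    obtain ⟨⟨c1, c2⟩, c3, c4⟩ := hcon
    have d1 : ((Finset.univ.filter fun i => dM (S i) = 2 ∧ Φ ∈ badC c (S i)).card : ℝ)
        ≤ Real.log g ^ 2 := by
      by_contra h
      push Not at h
      exact c1 (by rw [hE1def, Finset.mem_filter]; exact ⟨Finset.mem_univ _, h⟩)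
    have d2 : ∀ i, 3 ≤ dM (S i) → Φ ∉ badC c (S i) := by
      intro i hi hb
      exact c2 (by rw [hE2def, Finset.mem_filter]; exact ⟨Finset.mem_univ _, i, hi, hb⟩)
    have d3 : ∀ b : Finset X → ℝ, ∑ x, (∑ U ∈ ZZ G c x₀ Φ, b U * (sg U x : ℝ)) ^ 4
        ≤ A * (2 * g) * (∑ U ∈ ZZ G c x₀ Φ, b U ^ 2) ^ 2 := by
      intro b
      by_contra h
      push Not at h
      exact c3 (by rw [hE3def, Finset.mem_filter]; exact ⟨Finset.mem_univ _, hcm, b, h⟩)
    rw [hmap Φ, Finset.card_map] at d1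
    have d4 : ∀ (a : {i : ι // dM (S i) = 2}) (F : Finset {i : ι // dM (S i) = 2}),
        F ⊆ (Finset.univ.filter fun i : {i : ι // dM (S i) = 2} => Φ ∈ badC c (S i.1)) →
        ((F ×ˢ F).filter fun p =>
          ∃ d ∈ Finset.univ.filter (fun i : {i : ι // dM (S i) = 2} => Φ ∈ badC c (S i.1)),
            Rel (fun i : {i : ι // dM (S i) = 2} => kerM (S i.1)) a p.1 p.2 d).card
          ≤ 3 * 10 ^ 11 * F.card := by
      intro a F hF
      by_contra h
      push Not at h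
      exact c4 (by
        rw [hE4def, Finset.mem_filter]
        exact ⟨Finset.mem_univ _, hcm, d1, a, F, hF, h⟩)
    apply hbad
    refine gen_of_good4 hA x₀ hcm A (10 ^ 20) hA0 (by positivity) d3 ?_ J hJ
    intro f hf
    exact rest_fourth hA x₀ Φ hcm ι S hS hall hinj d2 d4 f hf
  have hcard : Nat.card {Φ : Finset X // CMType c Φ ∧ ¬ GeneratedUpTo G J Φ}
      = (Finset.univ.filter fun Φ : Finset X => CMType c Φ ∧ ¬ GeneratedUpTo G J Φ).card := by
    rw [Nat.card_eq_fintype_card, Fintype.card_subtype]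
  rw [hcard]
  have hle : ((Finset.univ.filter fun Φ : Finset X => CMType c Φ ∧
      ¬ GeneratedUpTo G J Φ).card : ℝ) ≤ (E1.card + E2.card : ℝ) + (E3.card + E4.card) := by
    exact_mod_cast (Finset.card_le_card hsub).trans ((Finset.card_union_le _ _).trans
      (Nat.add_le_add (Finset.card_union_le _ _) (Finset.card_union_le _ _)))
  have hE3' : (E3.card : ℝ) ≤ η / 4 * 2 ^ g := by convert hE3
  have hE4' : (E4.card : ℝ) ≤ η / 4 * 2 ^ g := by convert hE4
  linarith

end Pool.Agent.Lib.MP_938ce2_ag_rr
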