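import Mathlib
import Pool.Agent.Lib.MP_938ce2_ag_rr.ML
import Pool.Agent.Lib.MP_938ce2_ag_l4.T29
import Pool.Agent.Lib.MP_938ce2_ag_u5.Final5
import Pool.Agent.Lib.MP_938ce2_ag_u6.Classes6

/-!
Linear codimension for every CM field.
-/

set_option autoImplicit false
set_option linter.unusedSectionVars false

namespace Pool.Agent.Lib.MP_938ce2_ag_rr

open Finset Module NumberField
open Pool.Agent.Lib.MP_938ce2_ag_h60 (CMType conj)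
open Pool.Agent.Lib.MP_938ce2_ag_h65 (GeneratedUpTo)
open Pool.Agent.Lib.MP_938ce2_ag_u5 (act_emb)

theorem linear_codimension : ∃ κ : ℝ, 0 < κ ∧ ∀ η : ℝ, 0 < η → ∃ g₀ : ℕ,
    ∀ (L E : Type) [Field L] [NumberField L] [IsGalois ℚ L] [IsCMField L] [Field E]
      [NumberField E] [IsCMField E] [Nonempty (E →ₐ[ℚ] L)] (g J : ℕ),
      finrank ℚ E = 2 * g → g₀ ≤ g → (J : ℝ) ≤ κ * g →
      ({Φ : Finset (E →ₐ[ℚ] L) |
        CMType (conj L) Φ ∧ ¬ GeneratedUpTo (L ≃ₐ[ℚ] L) J Φ}.ncard : ℝ) ≤ η * 2 ^ g := by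
  obtain ⟨κ, hκ, h⟩ := main_lin Pool.Agent.Lib.MP_938ce2_ag_u6.dim_two
    Pool.Agent.Lib.MP_938ce2_ag_u6.dim_three Pool.Agent.Lib.MP_938ce2_ag_l4.ts
  refine ⟨κ, hκ, fun η hη => ?_⟩
  obtain ⟨g₀, hg₀⟩ := h η hη
  refine ⟨g₀ + 1, ?_⟩
  intro L E _ _ _ _ _ _ _ _ g J hE hg hJ
  classical
  have hA := act_emb L E g hE (by omega)
  have h1 := hg₀ (L ≃ₐ[ℚ] L) (E →ₐ[ℚ] L) (conj L) g hA (by omega) J hJ
  exact h1

end Pool.Agent.Lib.MP_938ce2_ag_rr
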